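import Mathlib

/-!
Real analysis used for the near-critical two-point function.
-/

set_option autoImplicit false

namespace Pool.Agent.W2helper77.TP

/-- The power of two at the scale `r / (4 N)`. -/
theorem exists_J {N r : ℕ} (hN : 1 ≤ N) (h : 4 * N ≤ r) :
    ∃ J : ℕ, 4 * (2^J * N) ≤ r ∧ (r:ℝ) / (8 * N) ≤ (2:ℝ)^J := by
  obtain ⟨m, hm⟩ : ∃ m : ℕ, m = r / (4 * N) := ⟨_, rfl⟩
  have hm1 : 1 ≤ m := by
    rw [hm, Nat.one_le_div_iff (by omega)]
    exact h
  refine ⟨Nat.log 2 m, ?_, ?_⟩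
  · have h1 : 2^(Nat.log 2 m) ≤ m := Nat.pow_log_le_self 2 (by omega)
    have h3 : m * (4 * N) ≤ r := by rw [hm]; exact Nat.div_mul_le_self r (4*N)
    calc 4 * (2^(Nat.log 2 m) * N) = 2^(Nat.log 2 m) * (4 * N) := by ring
      _ ≤ m * (4 * N) := Nat.mul_le_mul_right _ h1
      _ ≤ r := h3
  · have h2 : m < 2^(Nat.log 2 m + 1) := Nat.lt_pow_succ_log_self (by norm_num) m
    have h4 : r < (m + 1) * (4 * N) := by
      have := Nat.lt_mul_div_succ r (show 0 < 4 * N by omega)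
      rw [← hm] at this
      calc r < 4 * N * (m + 1) := this
        _ = (m + 1) * (4 * N) := by ring
    have hN0 : (0:ℝ) < N := by exact_mod_cast (by omega : 0 < N)
    rw [div_le_iff₀ (by positivity)]
    have h9 : r ≤ 2^(Nat.log 2 m) * (8 * N) := by
      have : (m + 1) * (4 * N) ≤ 2^(Nat.log 2 m + 1) * (4 * N) := Nat.mul_le_mul_right _ h2
      have e : 2^(Nat.log 2 m + 1) * (4 * N) = 2^(Nat.log 2 m) * (8 * N) := by ring
      omega
    exact_mod_cast h9

theorem quarter_pow (J : ℕ) : ((1:ℝ)/4)^(2^J) ≤ Real.exp (-((2:ℝ)^J)) := by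
  have h10 : (1/4 : ℝ) ≤ Real.exp (-1) := by
    rw [Real.exp_neg, one_div]
    apply inv_anti₀ (Real.exp_pos _)
    have := Real.exp_one_lt_d9
    linarith
  calc ((1:ℝ)/4)^(2^J) ≤ (Real.exp (-1))^(2^J) := pow_le_pow_left₀ (by norm_num) h10 _
    _ = Real.exp (-((2:ℝ)^J)) := by
        rw [← Real.exp_nat_mul]
        congr 1
        push_cast
        ring

theorem small_r {a : ℝ} (ha : 0 < a) (ha1 : a ≤ 1) {r : ℕ} (hr : 1 ≤ r) (hr2 : r ≤ 2) :
    1/2 ≤ (r:ℝ)^(-a) := by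
  have hr0 : (0:ℝ) < r := by exact_mod_cast hr
  have h2 : (r:ℝ) ≤ 2 := by exact_mod_cast hr2
  calc (1:ℝ)/2 = (2:ℝ)^(-1:ℝ) := by rw [Real.rpow_neg_one]; norm_num
    _ ≤ (2:ℝ)^(-a) := Real.rpow_le_rpow_of_exponent_le (by norm_num) (by linarith)
    _ ≤ (r:ℝ)^(-a) := Real.rpow_le_rpow_of_nonpos hr0 h2 (by linarith)

theorem pow_scale {a γ : ℝ} (ha : 0 < a) (ha1 : a ≤ 1) (hγ : 0 < γ) (hγ1 : γ ≤ 1) {r m : ℝ}
    (hr : 0 < r) (hm : γ * r ≤ m) : m^(-a) ≤ γ⁻¹ * r^(-a) := by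
  calc m^(-a) ≤ (γ * r)^(-a) :=
        Real.rpow_le_rpow_of_nonpos (by positivity) hm (by linarith)
    _ = γ^(-a) * r^(-a) := Real.mul_rpow hγ.le hr.le
    _ ≤ γ⁻¹ * r^(-a) := by
        apply mul_le_mul_of_nonneg_right _ (by positivity)
        rw [← Real.rpow_neg_one]
        exact Real.rpow_le_rpow_of_exponent_ge hγ hγ1 (by linarith)

theorem abs_up {A a β E : ℝ} (hA : 1 ≤ A) (ha : 0 < a) (ha1 : a ≤ 1) (hβ : 0 < β) (hβ1 : β ≤ 1)
    (hE : 1 ≤ E) : ∃ C c : ℝ, 0 < C ∧ 0 < c ∧ ∀ (Λ : ℝ) (n N r : ℕ) (T : ℝ), 1 ≤ Λ →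
      β * Λ ≤ n → 1 ≤ n → 2 ≤ N → (N:ℝ) ≤ E * Λ → 1 ≤ r → T ≤ 1 →
      (∀ m : ℕ, 1 ≤ m → m ≤ n → 2 * m < r → T ≤ A * (m:ℝ)^(-a)) →
      (∀ J : ℕ, 4 * (2^J * N) ≤ r → T ≤ A * (n:ℝ)^(-a) * (1/4)^(2^J)) →
      T ≤ C * (r:ℝ)^(-a) * Real.exp (-(c * ((r:ℝ)/Λ))) := by
  obtain ⟨γ, hγ⟩ : ∃ γ : ℝ, γ = β / (6 * E) := ⟨_, rfl⟩
  have hγ0 : 0 < γ := by rw [hγ]; positivity
  have hγ6 : γ ≤ 1/6 := by
    rw [hγ, div_le_iff₀ (by positivity)]
    linarith
  refine ⟨4 + 2 * A / γ + 16 * A * E / β, 1 / (16 * E), by positivity, by positivity, ?_⟩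
  intro Λ n N r T hΛ hn hn1 hN hNE hr hT1 h2 h3
  have hr0 : (0:ℝ) < r := by exact_mod_cast hr
  have hN0 : (0:ℝ) < N := by exact_mod_cast (by omega : 0 < N)
  have hn0 : (0:ℝ) < n := by exact_mod_cast hn1
  have hra : 0 < (r:ℝ)^(-a) := by positivity
  have q1 : 0 ≤ 2 * A / γ := by positivity
  have q2 : 0 ≤ 16 * A * E / β := by positivity
  rcases lt_or_ge r (4 * N) with hrN | hrN
  · have hrN' : (r:ℝ) ≤ 4 * N := by exact_mod_cast hrN.le
    have hx : 1/2 ≤ Real.exp (-(1 / (16 * E) * ((r:ℝ)/Λ))) := by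
      have h5 : 1 / (16 * E) * ((r:ℝ)/Λ) ≤ 1/4 := by
        rw [div_mul_div_comm, one_mul, div_le_iff₀ (by positivity)]
        nlinarith
      calc (1:ℝ)/2 ≤ 1 - 1/4 := by norm_num
        _ ≤ Real.exp (-(1/4)) := by
            have := Real.add_one_le_exp (-(1/4 : ℝ))
            linarith
        _ ≤ _ := Real.exp_le_exp.mpr (by linarith)
    rcases le_or_gt r 2 with hr2 | hr2
    · have h6 := small_r ha ha1 hr hr2
      have h7 : 1/2 * (1/2) ≤ (r:ℝ)^(-a) * Real.exp (-(1 / (16 * E) * ((r:ℝ)/Λ))) :=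
        mul_le_mul h6 hx (by norm_num) hra.le
      have h8 : 0 ≤ (r:ℝ)^(-a) * Real.exp (-(1 / (16 * E) * ((r:ℝ)/Λ))) := by positivity
      rw [mul_assoc]
      nlinarith
    · obtain ⟨m, hm⟩ : ∃ m : ℕ, m = min n ((r - 1)/2) := ⟨_, rfl⟩
      have hm1 : 1 ≤ m := by omega
      have hmr : γ * r ≤ m := by
        have h7 : γ * r ≤ n := by
          have e1 : γ * r ≤ γ * (4 * (E * Λ)) := by
            apply mul_le_mul_of_nonneg_left _ hγ0.le
            linarith
          have e2 : γ * (4 * (E * Λ)) = (2/3) * (β * Λ) := by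
            rw [hγ]; field_simp; ring
          have e3 : 0 ≤ β * Λ := by positivity
          linarith
        have h8 : γ * r ≤ (((r - 1)/2 : ℕ):ℝ) := by
          have e1 : r ≤ 6 * ((r-1)/2) := by omega
          have e2 : (r:ℝ) ≤ 6 * (((r-1)/2 : ℕ):ℝ) := by exact_mod_cast e1
          nlinarith
        rw [hm]
        rcases min_choice n ((r-1)/2) with h | h
        · rw [h]; exact h7
        · rw [h]; exact h8
      have h9 := h2 m hm1 (by omega) (by omega)
      have h10 := pow_scale ha ha1 hγ0 (by linarith) hr0 hmr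
      calc T ≤ A * (m:ℝ)^(-a) := h9
        _ ≤ A * (γ⁻¹ * (r:ℝ)^(-a)) := mul_le_mul_of_nonneg_left h10 (by linarith)
        _ = (2 * A / γ) * (r:ℝ)^(-a) * (1/2) := by field_simp
        _ ≤ (4 + 2 * A / γ + 16 * A * E / β) * (r:ℝ)^(-a) * (1/2) := by
            apply mul_le_mul_of_nonneg_right _ (by norm_num)
            apply mul_le_mul_of_nonneg_right _ hra.le
            linarith
        _ ≤ _ := mul_le_mul_of_nonneg_left hx (by positivity)
  · obtain ⟨J, hJ1, hJ2⟩ := exists_J (by omega : 1 ≤ N) hrN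
    have h9 := h3 J hJ1
    have h10 : ((1:ℝ)/4)^(2^J) ≤ Real.exp (-((r:ℝ) / (8 * N))) :=
      (quarter_pow J).trans (Real.exp_le_exp.mpr (by linarith))
    obtain ⟨t, ht⟩ : ∃ t : ℝ, t = (r:ℝ)/N := ⟨_, rfl⟩
    have ht0 : 0 ≤ t := by rw [ht]; positivity
    have e0 : (r:ℝ) / (8 * N) = t / 8 := by rw [ht]; field_simp
    rw [e0] at h10
    have hEb : 1 ≤ E / β := by rw [le_div_iff₀ hβ]; linarith
    have h11 : (n:ℝ)^(-a) ≤ (r:ℝ)^(-a) * (1 + E / β * t) := by
      have e1 : (n:ℝ)^(-a) = (r:ℝ)^(-a) * ((r:ℝ)/n)^a := by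
        rw [Real.div_rpow hr0.le hn0.le, Real.rpow_neg hr0.le, Real.rpow_neg hn0.le]
        have : (r:ℝ)^a ≠ 0 := by positivity
        field_simp
      rw [e1]
      apply mul_le_mul_of_nonneg_left _ hra.le
      have e2 : (r:ℝ)/n ≤ E / β * t := by
        rw [ht, div_mul_div_comm, div_le_div_iff₀ hn0 (by positivity)]
        have e3 : β * N ≤ E * n := by nlinarith
        nlinarith
      have e4 : ((r:ℝ)/n)^a ≤ (1 + E / β * t)^a :=
        Real.rpow_le_rpow (by positivity) (by linarith) ha.le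
      refine e4.trans ?_
      calc (1 + E / β * t)^a ≤ (1 + E / β * t)^(1:ℝ) :=
            Real.rpow_le_rpow_of_exponent_le (by
              have : 0 ≤ E / β * t := by positivity
              linarith) ha1
        _ = _ := Real.rpow_one _
    have h12 : (1 + E / β * t) * Real.exp (-(t/8)) ≤ 16 * (E / β) * Real.exp (-(t/16)) := by
      have e1 : 1 + E / β * t ≤ 16 * (E / β) * (1 + t/16) := by nlinarith
      have e2 : 1 + t/16 ≤ Real.exp (t/16) := by
        have := Real.add_one_le_exp (t/16)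
        linarith
      have e3 : Real.exp (-(t/8)) = Real.exp (-(t/16)) * Real.exp (-(t/16)) := by
        rw [← Real.exp_add]; congr 1; ring
      have e4 : Real.exp (t/16) * Real.exp (-(t/16)) = 1 := by
        rw [← Real.exp_add]; simp
      have e5 := Real.exp_pos (-(t/16))
      calc (1 + E / β * t) * Real.exp (-(t/8))
          ≤ (16 * (E / β) * Real.exp (t/16)) * Real.exp (-(t/8)) := by
            apply mul_le_mul_of_nonneg_right _ (Real.exp_pos _).le
            refine e1.trans ?_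
            exact mul_le_mul_of_nonneg_left e2 (by positivity)
        _ = 16 * (E / β) * (Real.exp (t/16) * Real.exp (-(t/16))) * Real.exp (-(t/16)) := by
            rw [e3]; ring
        _ = _ := by rw [e4, mul_one]
    have h13 : Real.exp (-(t/16)) ≤ Real.exp (-(1 / (16 * E) * ((r:ℝ)/Λ))) := by
      apply Real.exp_le_exp.mpr
      apply neg_le_neg
      rw [ht, div_mul_div_comm, one_mul, div_div, div_le_div_iff₀ (by positivity) (by positivity)]
      nlinarith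
    calc T ≤ A * (n:ℝ)^(-a) * (1/4)^(2^J) := h9
      _ ≤ A * ((r:ℝ)^(-a) * (1 + E / β * t)) * Real.exp (-(t/8)) := by
          apply mul_le_mul _ h10 (by positivity) (by positivity)
          exact mul_le_mul_of_nonneg_left h11 (by linarith)
      _ = A * (r:ℝ)^(-a) * ((1 + E / β * t) * Real.exp (-(t/8))) := by ring
      _ ≤ A * (r:ℝ)^(-a) * (16 * (E / β) * Real.exp (-(t/16))) :=
          mul_le_mul_of_nonneg_left h12 (by positivity)
      _ ≤ A * (r:ℝ)^(-a) * (16 * (E / β) * Real.exp (-(1 / (16 * E) * ((r:ℝ)/Λ)))) := by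
          apply mul_le_mul_of_nonneg_left _ (by positivity)
          exact mul_le_mul_of_nonneg_left h13 (by positivity)
      _ = (16 * A * E / β) * (r:ℝ)^(-a) * Real.exp (-(1 / (16 * E) * ((r:ℝ)/Λ))) := by ring
      _ ≤ _ := by
          apply mul_le_mul_of_nonneg_right _ (Real.exp_pos _).le
          apply mul_le_mul_of_nonneg_right _ hra.le
          linarith

/-- The critical case. -/
theorem abs_up0 {A a : ℝ} (hA : 1 ≤ A) (ha : 0 < a) (ha1 : a ≤ 1) {r : ℕ} {T : ℝ} (hr : 1 ≤ r)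
    (hT1 : T ≤ 1) (h2 : ∀ m : ℕ, 1 ≤ m → 2 * m < r → T ≤ A * (m:ℝ)^(-a)) :
    T ≤ 6 * A * (r:ℝ)^(-a) := by
  have hr0 : (0:ℝ) < r := by exact_mod_cast hr
  have hra : 0 < (r:ℝ)^(-a) := by positivity
  rcases le_or_gt r 2 with hr2 | hr2
  · have h6 := small_r ha ha1 hr hr2
    nlinarith
  · have h9 := h2 ((r-1)/2) (by omega) (by omega)
    have h8 : (1/6) * (r:ℝ) ≤ (((r - 1)/2 : ℕ):ℝ) := by
      have e1 : r ≤ 6 * ((r-1)/2) := by omega
      have e2 : (r:ℝ) ≤ 6 * (((r-1)/2 : ℕ):ℝ) := by exact_mod_cast e1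
      linarith
    have h10 := pow_scale ha ha1 (by norm_num : (0:ℝ) < 1/6) (by norm_num) hr0 h8
    have h11 := mul_le_mul_of_nonneg_left h10 (by linarith : 0 ≤ A)
    have e : ((1:ℝ)/6)⁻¹ = 6 := by norm_num
    rw [e] at h11
    linarith

/-- Sums of powers times exponentials: upper bound. -/
theorem sum_pow_exp {c Λ : ℝ} (hc : 0 < c) (hΛ : 1 ≤ Λ) {α : ℝ} (hα : 0 ≤ α) (M : ℕ) :
    ∃ K : ℝ, K = (2 * α / c + 1)^α * (1 + 2/c) ∧
    ∑ r ∈ Finset.range M, ((r:ℝ) + 1)^α * Real.exp (-(c * (((r:ℝ) + 1)/Λ))) ≤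
      K * Λ^(1 + α) := by
  refine ⟨_, rfl, ?_⟩
  have hΛ0 : 0 < Λ := by linarith
  have h1 : ∀ r ∈ Finset.range M, ((r:ℝ) + 1)^α * Real.exp (-(c * (((r:ℝ) + 1)/Λ))) ≤
      (2 * α / c + 1)^α * Λ^α * (Real.exp (-(c / (2 * Λ))))^(r + 1) := by
    intro r _
    have hr0 : (0:ℝ) < (r:ℝ) + 1 := by positivity
    obtain ⟨t, ht⟩ : ∃ t : ℝ, t = ((r:ℝ) + 1)/Λ := ⟨_, rfl⟩
    have ht0 : 0 < t := by rw [ht]; positivity
    have e1 : (r:ℝ) + 1 = Λ * t := by rw [ht]; field_simp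
    have e2 : (Real.exp (-(c / (2 * Λ))))^(r + 1) = Real.exp (-(c * t / 2)) := by
      rw [← Real.exp_nat_mul]
      congr 1
      push_cast
      rw [e1]
      field_simp
    rw [e2, ← ht, e1, Real.mul_rpow hΛ0.le ht0.le]
    have e3 : t^α * Real.exp (-(c * t / 2)) ≤ (2 * α / c + 1)^α := by
      rcases eq_or_lt_of_le hα with h0 | h0
      · rw [← h0]
        simp only [Real.rpow_zero, one_mul, mul_zero, zero_div, zero_add]
        rw [Real.exp_le_one_iff]
        have : 0 ≤ c * t / 2 := by positivity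
        linarith
      · have e4 : Real.exp (-(c * t / 2)) = (Real.exp (-(c * t / (2 * α))))^α := by
          rw [← Real.exp_mul]
          congr 1
          field_simp
        rw [e4, ← Real.mul_rpow ht0.le (Real.exp_pos _).le]
        apply Real.rpow_le_rpow (by positivity) _ hα
        have e5 : c * t / (2 * α) ≤ Real.exp (c * t / (2 * α)) := by
          have := Real.add_one_le_exp (c * t / (2 * α))
          linarith
        have e6 : t * Real.exp (-(c * t / (2 * α))) ≤ 2 * α / c := by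
          rw [Real.exp_neg, ← div_eq_mul_inv, div_le_div_iff₀ (Real.exp_pos _) hc]
          have := mul_le_mul_of_nonneg_left e5 (by positivity : 0 ≤ 2 * α)
          calc t * c = 2 * α * (c * t / (2 * α)) := by field_simp
            _ ≤ _ := this
        linarith
    have e7 : Real.exp (-(c * t)) = Real.exp (-(c * t / 2)) * Real.exp (-(c * t / 2)) := by
      rw [← Real.exp_add]; congr 1; ring
    rw [e7]
    have e8 := Real.exp_pos (-(c * t / 2))
    calc Λ^α * t^α * (Real.exp (-(c * t / 2)) * Real.exp (-(c * t / 2)))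
        = Λ^α * (t^α * Real.exp (-(c * t / 2))) * Real.exp (-(c * t / 2)) := by ring
      _ ≤ Λ^α * (2 * α / c + 1)^α * Real.exp (-(c * t / 2)) := by
          apply mul_le_mul_of_nonneg_right _ e8.le
          exact mul_le_mul_of_nonneg_left e3 (by positivity)
      _ = _ := by ring
  refine (Finset.sum_le_sum h1).trans ?_
  rw [← Finset.mul_sum]
  obtain ⟨x, hx⟩ : ∃ x : ℝ, x = Real.exp (-(c / (2 * Λ))) := ⟨_, rfl⟩
  have hx0 : 0 < x := by rw [hx]; exact Real.exp_pos _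
  have hx1 : x < 1 := by
    rw [hx, Real.exp_lt_one_iff]
    have : 0 < c / (2 * Λ) := by positivity
    linarith
  rw [← hx]
  have h5 : ∑ r ∈ Finset.range M, x^(r + 1) ≤ (1 + 2/c) * Λ := by
    have h6 : ∑ r ∈ Finset.range M, x^(r + 1) ≤ ∑' r : ℕ, x^r := by
      have h7 : ∑ r ∈ Finset.range M, x^(r + 1) ≤ ∑ r ∈ Finset.range M, x^r := by
        apply Finset.sum_le_sum
        intro r _
        rw [pow_succ]
        exact mul_le_of_le_one_right (by positivity) hx1.le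
      exact h7.trans ((summable_geometric_of_lt_one hx0.le hx1).sum_le_tsum _
        (fun r _ => by positivity))
    rw [tsum_geometric_of_lt_one hx0.le hx1] at h6
    refine h6.trans ?_
    -- `1 - exp(-u) ≥ u / (1 + u)`
    obtain ⟨u, hu⟩ : ∃ u : ℝ, u = c / (2 * Λ) := ⟨_, rfl⟩
    have hu0 : 0 < u := by rw [hu]; positivity
    rw [← hu] at hx
    have h8 : x ≤ 1 / (1 + u) := by
      rw [hx, Real.exp_neg, ← one_div]
      apply one_div_le_one_div_of_le (by positivity)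
      have := Real.add_one_le_exp u
      linarith
    have h9 : u / (1 + u) ≤ 1 - x := by
      have : u / (1 + u) = 1 - 1 / (1 + u) := by field_simp; ring
      rw [this]; linarith
    have h10 : (1 - x)⁻¹ ≤ 1 + 1/u := by
      have h11 : (1 - x)⁻¹ ≤ (u / (1 + u))⁻¹ := inv_anti₀ (by positivity) h9
      have : (u / (1 + u))⁻¹ = 1 + 1/u := by field_simp; ring
      linarith
    have h12 : 1 + 1/u ≤ (1 + 2/c) * Λ := by
      have : 1/u = 2/c * Λ := by rw [hu]; field_simp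
      rw [this]
      linarith
    linarith
  calc (2 * α / c + 1)^α * Λ^α * ∑ r ∈ Finset.range M, x^(r + 1)
      ≤ (2 * α / c + 1)^α * Λ^α * ((1 + 2/c) * Λ) :=
        mul_le_mul_of_nonneg_left h5 (by positivity)
    _ = (2 * α / c + 1)^α * (1 + 2/c) * (Λ * Λ^α) := by ring
    _ = _ := by rw [Real.rpow_add hΛ0, Real.rpow_one]

end Pool.Agent.W2helper77.TP
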