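import Pool.Agent.W2helper77.TP.Up
import Pool.Agent.W2helper77.TP.Abs
import Pool.Agent.W424.NC.FarB
import Pool.Agent.W424.NC.Stab
import Pool.Agent.H31R3.Kes.GUp

/-!
The near-critical truncated two-point function and truncated radius, up to constants.
-/

set_option autoImplicit false
set_option maxHeartbeats 400000

namespace Pool.Agent.W2helper77.TP

open H974 H31K Finset MeasureTheory

theorem scale {β s : ℝ} (hβ : 0 < β) (hs : 0 < s) (h : 8 * s ≤ β) :
    ∃ n : ℕ, 8 ≤ n ∧ s ≤ β * (n:ℝ)^(-(3/4 : ℝ)) ∧ (n:ℝ) ≤ β^(4/3 : ℝ) * s^(-(4/3) : ℝ) ∧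
      β^(4/3 : ℝ) * s^(-(4/3) : ℝ) ≤ 2 * n := by
  have e0 : (β/s)^(4/3 : ℝ) = β^(4/3 : ℝ) * s^(-(4/3) : ℝ) := by
    rw [Real.div_rpow hβ.le hs.le, Real.rpow_neg hs.le, div_eq_mul_inv]
  have h8 : 8 ≤ β / s := by rw [le_div_iff₀ hs]; exact h
  have hx16 : 16 ≤ (β/s)^(4/3 : ℝ) := by
    calc (16:ℝ) = ((8:ℝ))^(4/3 : ℝ) := by
          have : (8:ℝ) = (2:ℝ)^(3:ℝ) := by norm_num
          rw [this, ← Real.rpow_mul (by norm_num)]
          norm_num
      _ ≤ (β/s)^(4/3 : ℝ) := Real.rpow_le_rpow (by norm_num) h8 (by norm_num)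
  have hx0 : 0 < (β/s)^(4/3 : ℝ) := by linarith
  have hn1 : 16 ≤ ⌊(β/s)^(4/3 : ℝ)⌋₊ := Nat.le_floor (by exact_mod_cast hx16)
  have hn0 : (0:ℝ) < (⌊(β/s)^(4/3 : ℝ)⌋₊ : ℝ) := by exact_mod_cast (by omega : 0 < _)
  have hle := Nat.floor_le hx0.le
  refine ⟨⌊(β/s)^(4/3 : ℝ)⌋₊, by omega, ?_, ?_, ?_⟩
  · have h2 : (⌊(β/s)^(4/3 : ℝ)⌋₊ : ℝ)^(3/4 : ℝ) ≤ β / s := by
      calc (⌊(β/s)^(4/3 : ℝ)⌋₊ : ℝ)^(3/4 : ℝ) ≤ ((β/s)^(4/3 : ℝ))^(3/4 : ℝ) :=
            Real.rpow_le_rpow hn0.le hle (by norm_num)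
        _ = β / s := by
            rw [← Real.rpow_mul (by positivity)]
            norm_num
    rw [Real.rpow_neg hn0.le, ← div_eq_mul_inv, le_div_iff₀ (by positivity)]
    rw [le_div_iff₀ hs] at h2
    linarith
  · rw [← e0]; exact hle
  · rw [← e0]
    have hn1' : (1:ℝ) ≤ (⌊(β/s)^(4/3 : ℝ)⌋₊ : ℝ) := by exact_mod_cast (by omega : 1 ≤ _)
    have := Nat.lt_floor_add_one ((β/s)^(4/3 : ℝ))
    linarith

/-- The windows. -/
theorem winA : ∃ κ b c C : ℝ, 0 < κ ∧ κ ≤ 1 ∧ 0 < b ∧ 0 < c ∧ 0 < C ∧ ∀ n : ℕ, 1 ≤ n → ∀ q : ℝ,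
    |q - 1/2| ≤ b * (n:ℝ)^(-(3/4 : ℝ)) → WinA q κ c C n := by
  obtain ⟨κ, b, hκ, hb, hst⟩ := Pool.Agent.W424.NC.armS
  obtain ⟨cc, CC, hcc, hCC, harm⟩ := Pool.Agent.W424.NC.arm_crit
  have hκ1 : κ ≤ 1 := by
    have := (hst 1 le_rfl (1/2) (by simp; positivity)).1.kle
    linarith
  refine ⟨κ, b, cc/3, 3 * CC, hκ, hκ1, hb, by positivity, by positivity, ?_⟩
  intro n hn q hq
  have hw := (hst n hn q hq).1
  have key : ∀ m : ℕ, 1 ≤ m → m ≤ n → |q - 1/2| ≤ b * (m:ℝ)^(-(3/4 : ℝ)) := by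
    intro m hm hmn
    refine hq.trans (mul_le_mul_of_nonneg_left ?_ hb.le)
    exact Real.rpow_le_rpow_of_nonpos (by exact_mod_cast hm) (by exact_mod_cast hmn) (by norm_num)
  refine ⟨hw, by positivity, by positivity, ?_, ?_⟩
  · intro m hm hmn
    have h1 := (hst m hm q (key m hm hmn)).2.2
    have h2 := (harm m hm).1
    linarith
  · intro m hm hmn
    have h1 := (hst m hm q (key m hm hmn)).2.1
    have h2 := (harm m hm).2
    linarith

theorem tf_le_tau (p : unitInterval) (x : Vtx) : tf p x ≤ tau p x := by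
  unfold tf tau
  exact measureReal_mono (fun ω hω => hω.1)

theorem tf_nonneg (p : unitInterval) (x : Vtx) : 0 ≤ tf p x := measureReal_nonneg

theorem rf_nonneg (p : unitInterval) (r : ℕ) : 0 ≤ rf p r := measureReal_nonneg

theorem rf_le_arm (p : unitInterval) {r m : ℕ} (h : m ≤ r) : rf p r ≤ arm p m := by
  have h1 : rf p r ≤ arm p r := by
    rw [← law_armE]
    unfold rf
    exact measureReal_mono (fun ω hω => hω.1)
  exact h1.trans (arm_anti p.2.1 p.2.2 h)

theorem sq48 {n : ℕ} (hn : 1 ≤ n) : ((n:ℝ)^(-(5/48) : ℝ))^2 = (n:ℝ)^(-(5/24) : ℝ) := by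
  have hn0 : (0:ℝ) ≤ n := Nat.cast_nonneg _
  rw [← Real.rpow_natCast ((n:ℝ)^(-(5/48) : ℝ)), ← Real.rpow_mul hn0]
  congr 1
  norm_num

theorem natAbs_cases {x : Vtx} {r m : ℕ} (hxr : r = max x.1.natAbs x.2.natAbs) (hm : 2 * m < r) :
    2 * (m:ℤ) < |x.1| ∨ 2 * (m:ℤ) < |x.2| := by
  rw [Int.abs_eq_natAbs, Int.abs_eq_natAbs]
  have : r = x.1.natAbs ∨ r = x.2.natAbs := by
    rcases max_choice x.1.natAbs x.2.natAbs with h | h
    · left; rw [hxr, h]
    · right; rw [hxr, h]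
  rcases this with h | h
  · left; omega
  · right; omega

/-- **The near-critical truncated two-point function and radius.** -/
theorem near : ∃ δ c C k K : ℝ, 0 < δ ∧ 0 < c ∧ 0 < C ∧ 0 < k ∧ 0 < K ∧ δ ≤ 1/4 ∧
    ∀ p : unitInterval, |(p:ℝ) - 1/2| ≤ δ →
      (∀ (x : Vtx) (r : ℕ), r = max x.1.natAbs x.2.natAbs → 1 ≤ r →
        c * (r:ℝ)^(-(5/24) : ℝ) * Real.exp (-(K * (r * |(p:ℝ) - 1/2|^(4/3 : ℝ)))) ≤ tf p x ∧
        tf p x ≤ C * (r:ℝ)^(-(5/24) : ℝ) * Real.exp (-(k * (r * |(p:ℝ) - 1/2|^(4/3 : ℝ))))) ∧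
      (∀ r : ℕ, 1 ≤ r →
        c * (r:ℝ)^(-(5/48) : ℝ) * Real.exp (-(K * (r * |(p:ℝ) - 1/2|^(4/3 : ℝ)))) ≤ rf p r ∧
        rf p r ≤ C * (r:ℝ)^(-(5/48) : ℝ) * Real.exp (-(k * (r * |(p:ℝ) - 1/2|^(4/3 : ℝ))))) := by
  obtain ⟨κ, b, c0, C0, hκ, hκ1, hb, hc0, hC0, hwin⟩ := winA
  obtain ⟨E, hE1, hfar⟩ := Pool.Agent.W424.NC.farS
  obtain ⟨c1, K1, hc1, hK1, hlow⟩ := tf_low (C := C0) hκ hκ1 hc0
  obtain ⟨c2, K2, hc2, hK2, hlow2⟩ := rf_low (C := C0) hκ hκ1 hc0
  obtain ⟨B, hB⟩ : ∃ B : ℝ, B = b^(4/3 : ℝ) := ⟨_, rfl⟩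
  have hB0 : 0 < B := by rw [hB]; positivity
  obtain ⟨β, hβ⟩ : ∃ β : ℝ, β = min (B/2) 1 := ⟨_, rfl⟩
  have hβ0 : 0 < β := by rw [hβ]; exact lt_min (by positivity) one_pos
  have hβ1 : β ≤ 1 := by rw [hβ]; exact min_le_right _ _
  have hβB : β ≤ B/2 := by rw [hβ]; exact min_le_left _ _
  obtain ⟨E', hE'⟩ : ∃ E' : ℝ, E' = E + B + 3 := ⟨_, rfl⟩
  obtain ⟨A1, hA1⟩ : ∃ A1 : ℝ, A1 = C0^2 + 1 := ⟨_, rfl⟩
  obtain ⟨A2, hA2⟩ : ∃ A2 : ℝ, A2 = C0 + 1 := ⟨_, rfl⟩
  have hA1' : 1 ≤ A1 := by rw [hA1]; nlinarith [sq_nonneg C0]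
  have hA2' : 1 ≤ A2 := by rw [hA2]; linarith
  obtain ⟨C3, k3, hC3, hk3, hup⟩ := abs_up (A := A1) (a := 5/24) (β := β) (E := E') hA1'
    (by norm_num) (by norm_num) hβ0 hβ1 (by rw [hE']; linarith)
  obtain ⟨C4, k4, hC4, hk4, hup2⟩ := abs_up (A := A2) (a := 5/48) (β := β) (E := E') hA2'
    (by norm_num) (by norm_num) hβ0 hβ1 (by rw [hE']; linarith)
  obtain ⟨K, hK⟩ : ∃ K : ℝ, K = (K1 + K2) / β := ⟨_, rfl⟩
  have hK0 : 0 < K := by rw [hK]; positivity
  refine ⟨min (b/8) (1/4), min c1 c2 * Real.exp (-(K1 + K2)), C3 + C4 + 6 * A1 + 6 * A2, min k3 k4, K,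
    lt_min (by positivity) (by norm_num), mul_pos (lt_min hc1 hc2) (Real.exp_pos _),
    by positivity, lt_min hk3 hk4, hK0, min_le_right _ _, ?_⟩
  intro p hp
  obtain ⟨s, hs⟩ : ∃ s : ℝ, s = |(p:ℝ) - 1/2| := ⟨_, rfl⟩
  rw [← hs] at hp
  have hsb : s ≤ b/8 := hp.trans (min_le_left _ _)
  have hs4 : s ≤ 1/4 := hp.trans (min_le_right _ _)
  have hs0 : 0 ≤ s := by rw [hs]; exact abs_nonneg _
  have h0 := p.2.1
  have h1 := p.2.2
  rw [← hs]
  have hexpK : Real.exp (-(K1 + K2)) ≤ 1 := by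
    rw [Real.exp_le_one_iff]; linarith
  have hmc1 : min c1 c2 * Real.exp (-(K1 + K2)) ≤ c1 := by
    calc min c1 c2 * Real.exp (-(K1 + K2)) ≤ min c1 c2 * 1 :=
          mul_le_mul_of_nonneg_left hexpK (lt_min hc1 hc2).le
      _ ≤ c1 := by rw [mul_one]; exact min_le_left _ _
  have hmc2 : min c1 c2 * Real.exp (-(K1 + K2)) ≤ c2 := by
    calc min c1 c2 * Real.exp (-(K1 + K2)) ≤ min c1 c2 * 1 :=
          mul_le_mul_of_nonneg_left hexpK (lt_min hc1 hc2).le
      _ ≤ c2 := by rw [mul_one]; exact min_le_right _ _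
  rcases eq_or_lt_of_le hs0 with hsz | hsp
  · -- the critical point
    have hz : s^(4/3 : ℝ) = 0 := by rw [← hsz]; exact Real.zero_rpow (by norm_num)
    rw [hz]
    simp only [mul_zero, neg_zero, Real.exp_zero, mul_one]
    have hW : ∀ n : ℕ, 1 ≤ n → WinA p κ c0 C0 n := by
      intro n hn
      apply hwin n hn
      rw [← hs, ← hsz]
      positivity
    have hrn : ∀ r : ℕ, 1 ≤ r → ((r:ℝ) / ((max 8 r : ℕ):ℝ)) ≤ 1 := by
      intro r hr
      rw [div_le_one (by exact_mod_cast (by omega : 0 < max 8 r))]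
      exact_mod_cast le_max_right 8 r
    refine ⟨fun x r hxr hr => ⟨?_, ?_⟩, fun r hr => ⟨?_, ?_⟩⟩
    · have h2 := hlow p (max 8 r) (hW _ (by omega)) (le_max_left _ _) x r hr hxr
      refine le_trans ?_ h2
      have hr0 : (0:ℝ) < r := by exact_mod_cast hr
      have hra : 0 < (r:ℝ)^(-(5/24) : ℝ) := by positivity
      have e1 : Real.exp (-(K1 + K2)) ≤ Real.exp (-(K1 * ((r:ℝ) / ((max 8 r : ℕ):ℝ)))) := by
        apply Real.exp_le_exp.mpr
        have := mul_le_mul_of_nonneg_left (hrn r hr) hK1.le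
        linarith
      calc min c1 c2 * Real.exp (-(K1 + K2)) * (r:ℝ)^(-(5/24) : ℝ)
          ≤ c1 * Real.exp (-(K1 * ((r:ℝ) / ((max 8 r : ℕ):ℝ)))) * (r:ℝ)^(-(5/24) : ℝ) := by
            apply mul_le_mul_of_nonneg_right _ hra.le
            exact mul_le_mul (min_le_left _ _) e1 (Real.exp_pos _).le hc1.le
        _ = _ := by ring
    · have h3 := abs_up0 (A := A1) (a := 5/24) hA1' (by norm_num) (by norm_num) (T := tf p x) hr
        ((tf_le_tau p x).trans (tau_le_one p x)) (by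
          intro m hm hmr
          have h4 := (tf_le_tau p x).trans (tau_le_arm_sq p (natAbs_cases hxr hmr))
          have h5 := (hW m hm).upp m hm le_rfl
          have h6 := pow_le_pow_left₀ (arm_nonneg h0 h1 m) h5 2
          rw [mul_pow, sq48 hm] at h6
          refine h4.trans (h6.trans ?_)
          apply mul_le_mul_of_nonneg_right _ (by positivity)
          rw [hA1]; linarith)
      refine h3.trans ?_
      apply mul_le_mul_of_nonneg_right _ (by positivity)
      linarith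
    · have h2 := hlow2 p (max 8 r) (hW _ (by omega)) (le_max_left _ _) r hr
      refine le_trans ?_ h2
      have hr0 : (0:ℝ) < r := by exact_mod_cast hr
      have hra : 0 < (r:ℝ)^(-(5/48) : ℝ) := by positivity
      have e1 : Real.exp (-(K1 + K2)) ≤ Real.exp (-(K2 * ((r:ℝ) / ((max 8 r : ℕ):ℝ)))) := by
        apply Real.exp_le_exp.mpr
        have := mul_le_mul_of_nonneg_left (hrn r hr) hK2.le
        linarith
      calc min c1 c2 * Real.exp (-(K1 + K2)) * (r:ℝ)^(-(5/48) : ℝ)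
          ≤ c2 * Real.exp (-(K2 * ((r:ℝ) / ((max 8 r : ℕ):ℝ)))) * (r:ℝ)^(-(5/48) : ℝ) := by
            apply mul_le_mul_of_nonneg_right _ hra.le
            exact mul_le_mul (min_le_right _ _) e1 (Real.exp_pos _).le hc2.le
        _ = _ := by ring
    · have h3 := abs_up0 (A := A2) (a := 5/48) hA2' (by norm_num) (by norm_num) (T := rf p r) hr
        ((rf_le_arm p (Nat.zero_le r)).trans (arm_le_one h0 h1 0)) (by
          intro m hm hmr
          have h4 := rf_le_arm p (show m ≤ r by omega)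
          have h5 := (hW m hm).upp m hm le_rfl
          refine h4.trans (h5.trans ?_)
          apply mul_le_mul_of_nonneg_right _ (by positivity)
          rw [hA2]; linarith)
      refine h3.trans ?_
      apply mul_le_mul_of_nonneg_right _ (by positivity)
      linarith
  · -- off the critical point
    obtain ⟨n, hn8, hwn, hnup, hnlow⟩ := scale hb hsp (by linarith)
    rw [← hB] at hnup hnlow
    obtain ⟨Λ, hΛ⟩ : ∃ Λ : ℝ, Λ = s^(-(4/3) : ℝ) := ⟨_, rfl⟩
    rw [← hΛ] at hnup hnlow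
    have hΛ0 : 0 < Λ := by rw [hΛ]; positivity
    have hΛ1 : 1 ≤ Λ := by
      rw [hΛ]
      exact Real.one_le_rpow_of_pos_of_le_one_of_nonpos hsp (by linarith) (by norm_num)
    have hinv : ∀ r : ℕ, (r:ℝ) * s^(4/3 : ℝ) = (r:ℝ)/Λ := by
      intro r
      rw [hΛ, Real.rpow_neg hsp.le, div_inv_eq_mul]
    have hW : WinA p κ c0 C0 n := hwin n (by omega) p (by rw [← hs]; exact hwn)
    have hn0 : (0:ℝ) < n := by exact_mod_cast (by omega : 0 < n)
    have hβn : β * Λ ≤ n := by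
      have := mul_le_mul_of_nonneg_right hβB hΛ0.le
      linarith
    obtain ⟨N, hN⟩ : ∃ N : ℕ, N = ⌈E * Λ⌉₊ + n + 2 := ⟨_, rfl⟩
    have hNE : E * Λ ≤ N := by
      have h2 := Nat.le_ceil (E * Λ)
      rw [hN]
      push_cast
      linarith
    have hNup : (N:ℝ) ≤ E' * Λ := by
      have h2 := Nat.ceil_lt_add_one (show 0 ≤ E * Λ by positivity)
      rw [hN, hE']
      push_cast
      nlinarith
    have hN2 : 2 ≤ N := by omega
    have hcase : eps p N ≤ 1/100 ∨ eps (1 - (p:ℝ)) N ≤ 1/100 := by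
      rcases lt_trichotomy (p:ℝ) (1/2) with h | h | h
      · right
        apply hfar _ (by linarith) (by linarith)
        have e : 1 - (p:ℝ) - 1/2 = s := by rw [hs, abs_of_neg (by linarith)]; ring
        rw [e, ← hΛ]
        exact hNE
      · exfalso
        rw [hs, h] at hsp
        simp at hsp
      · left
        apply hfar _ h h1
        have e : (p:ℝ) - 1/2 = s := by rw [hs, abs_of_pos (by linarith)]
        rw [e, ← hΛ]
        exact hNE
    have hexp : ∀ (r : ℕ) (k' : ℝ), min k3 k4 ≤ k' →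
        Real.exp (-(k' * ((r:ℝ)/Λ))) ≤ Real.exp (-(min k3 k4 * ((r:ℝ)/Λ))) := by
      intro r k' hk'
      apply Real.exp_le_exp.mpr
      have := mul_le_mul_of_nonneg_right hk' (show 0 ≤ (r:ℝ)/Λ by positivity)
      linarith
    have hexp2 : ∀ (r : ℕ) (K' : ℝ), 0 ≤ K' → K' ≤ K1 + K2 →
        Real.exp (-(K * ((r:ℝ)/Λ))) ≤ Real.exp (-(K' * ((r:ℝ)/n))) := by
      intro r K' hK'0 hK'
      apply Real.exp_le_exp.mpr
      apply neg_le_neg
      have e1 : (r:ℝ)/n ≤ (r:ℝ)/(β * Λ) := by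
        apply div_le_div_of_nonneg_left (Nat.cast_nonneg _) (by positivity) hβn
      have e2 : K * ((r:ℝ)/Λ) = (K1 + K2) * ((r:ℝ)/(β * Λ)) := by
        rw [hK]; field_simp
      rw [e2]
      exact mul_le_mul hK' e1 (by positivity) (by linarith)
    refine ⟨fun x r hxr hr => ⟨?_, ?_⟩, fun r hr => ⟨?_, ?_⟩⟩
    · rw [hinv]
      have h2 := hlow p n hW hn8 x r hr hxr
      refine le_trans ?_ h2
      apply mul_le_mul _ (hexp2 r K1 hK1.le (by linarith)) (Real.exp_pos _).le (by positivity)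
      exact mul_le_mul_of_nonneg_right hmc1 (by positivity)
    · rw [hinv]
      have h3 := hup Λ n N r (tf p x) hΛ1 hβn (by omega) hN2 hNup hr
        ((tf_le_tau p x).trans (tau_le_one p x)) (by
          intro m hm hmn hmr
          have h4 := (tf_le_tau p x).trans (tau_le_arm_sq p (natAbs_cases hxr hmr))
          have h5 := hW.upp m hm hmn
          have h6 := pow_le_pow_left₀ (arm_nonneg h0 h1 m) h5 2
          rw [mul_pow, sq48 hm] at h6
          refine h4.trans (h6.trans ?_)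
          apply mul_le_mul_of_nonneg_right _ (by positivity)
          rw [hA1]; linarith) (by
          intro J hJ
          have h5 := hW.upp n (by omega) le_rfl
          have h6 := pow_le_pow_left₀ (arm_nonneg h0 h1 n) h5 2
          rw [mul_pow, sq48 (by omega)] at h6
          have hle : N ≤ 2^J * N := Nat.le_mul_of_pos_left _ (by positivity)
          have h7 : tf p x ≤ (arm p n)^2 * (1/4)^(2^J) := by
            rcases hcase with hc | hc
            · exact tf_up_super p hN2 hc J hxr (by omega) (by omega)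
            · exact tf_up_sub p hN2 hc J hxr hJ (by omega)
          refine h7.trans ?_
          apply mul_le_mul_of_nonneg_right _ (by positivity)
          refine h6.trans ?_
          apply mul_le_mul_of_nonneg_right _ (by positivity)
          rw [hA1]; linarith)
      refine h3.trans ?_
      apply mul_le_mul _ (hexp r k3 (min_le_left _ _)) (Real.exp_pos _).le (by positivity)
      apply mul_le_mul_of_nonneg_right _ (by positivity)
      linarith
    · rw [hinv]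
      have h2 := hlow2 p n hW hn8 r hr
      refine le_trans ?_ h2
      apply mul_le_mul _ (hexp2 r K2 hK2.le (by linarith)) (Real.exp_pos _).le (by positivity)
      exact mul_le_mul_of_nonneg_right hmc2 (by positivity)
    · rw [hinv]
      have h3 := hup2 Λ n N r (rf p r) hΛ1 hβn (by omega) hN2 hNup hr
        ((rf_le_arm p (Nat.zero_le r)).trans (arm_le_one h0 h1 0)) (by
          intro m hm hmn hmr
          have h4 := rf_le_arm p (show m ≤ r by omega)
          have h5 := hW.upp m hm hmn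
          refine h4.trans (h5.trans ?_)
          apply mul_le_mul_of_nonneg_right _ (by positivity)
          rw [hA2]; linarith) (by
          intro J hJ
          have h5 := hW.upp n (by omega) le_rfl
          have hle : N ≤ 2^J * N := Nat.le_mul_of_pos_left _ (by positivity)
          have h7 : rf p r ≤ (arm p n) * (1/4)^(2^J) := by
            rcases hcase with hc | hc
            · exact rf_up_super p hN2 hc J (by omega) (by omega)
            · exact rf_up_sub p hN2 hc J (by omega) (by omega)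
          refine h7.trans ?_
          apply mul_le_mul_of_nonneg_right _ (by positivity)
          refine h5.trans ?_
          apply mul_le_mul_of_nonneg_right _ (by positivity)
          rw [hA2]; linarith)
      refine h3.trans ?_
      apply mul_le_mul _ (hexp r k4 (min_le_right _ _)) (Real.exp_pos _).le (by positivity)
      apply mul_le_mul_of_nonneg_right _ (by positivity)
      linarith

end Pool.Agent.W2helper77.TP
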