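import Pool.Agent.H31R3.Kes.Prob

/-!
Crossing probabilities of long rectangles, arms and circuits beyond the RSW window.
-/

set_option autoImplicit false
set_option maxHeartbeats 400000

namespace Pool.Agent.W2helper77.TP

open H974 H31K Finset

/-- Crossings of long rectangles of height `h`. -/
theorem hh_long {q κ : ℝ} (h0 : 0 ≤ q) (h1 : q ≤ 1) (hκ : 0 < κ) {h : ℕ} (hh1 : 1 ≤ h)
    (hc : κ ≤ hh q (16 * h) h) (k : ℕ) :
    κ^(2 * k + 1) ≤ hh q (((16 + 15 * k) * h : ℕ) : ℤ) h := by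
  have hsq : κ ≤ hh q h h := hc.trans (hh_mono h0 h1 (by omega) (by omega) le_rfl)
  induction k with
  | zero =>
    have e : (((16 + 15 * 0) * h : ℕ) : ℤ) = 16 * h := by push_cast; ring
    rw [e]
    simpa using hc
  | succ k ih =>
    have g := hh_glue h0 h1 (w1 := (((16 + 15 * k) * h : ℕ) : ℤ)) (w2 := 16 * (h:ℤ)) (v := (h:ℤ))
      (h := (h:ℤ)) (by omega) (by push_cast; nlinarith) (by omega) (by omega)
    have e : (((16 + 15 * k) * h : ℕ) : ℤ) + 16 * (h:ℤ) - h = (((16 + 15 * (k+1)) * h : ℕ) : ℤ) := by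
      push_cast; ring
    rw [e] at g
    refine le_trans ?_ g
    have e2 : κ^(2 * (k+1) + 1) = κ^(2 * k + 1) * κ * κ := by ring
    rw [e2]
    have n1 : 0 < κ^(2 * k + 1) := by positivity
    exact mul_le_mul (mul_le_mul ih hc hκ.le (n1.le.trans ih)) hsq hκ.le
      (mul_nonneg (n1.le.trans ih) (hκ.le.trans hc))

/-- Crossings of general rectangles at a scale larger than `h`. -/
theorem hh_gen {q κ : ℝ} (h0 : 0 ≤ q) (h1 : q ≤ 1) (hκ : 0 < κ) (hκ1 : κ ≤ 1) {h : ℕ} (hh1 : 1 ≤ h)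
    (hc : κ ≤ hh q (16 * h) h) {w h' : ℤ} (hw : 1 ≤ w) {K : ℕ} (hK : w ≤ K * h) (hh' : h ≤ h') :
    κ^(2 * K + 1) ≤ hh q w h' := by
  refine (hh_long h0 h1 hκ hh1 hc K).trans (hh_mono h0 h1 (by omega) ?_ hh')
  push_cast
  nlinarith [Int.natCast_nonneg K, Int.natCast_nonneg h]

/-- Arms beyond the window. -/
theorem arm_far {q κ : ℝ} {r : ℕ} (h0 : 0 ≤ q) (h1 : q ≤ 1) (hκ : 0 < κ) (hκ1 : κ ≤ 1)
    (hr : 1 ≤ r) (hc : κ ≤ hh q (16 * r) r) {m K : ℕ} (hm : 2 * r ≤ m) (hK : m ≤ K * r) :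
    κ^(2 * K + 5) * arm q (2 * r) ≤ arm q m := by
  have ok := okq h0 h1
  have hsub : boxE (2 * r) ⊆ boxE m := boxE_mono hm
  have e1 := pr_Arm q hsub
  have e2 : κ^4 ≤ Pr (fun _ => q) (boxE m) (Circ r ((2 * r : ℕ) : ℤ)) := by
    refine le_trans ?_ (pr_Circ h0 h1 (R1 := r) (R2 := ((2 * r : ℕ) : ℤ)) (by positivity)
      (by push_cast; omega) hsub)
    apply pow_le_pow_left₀ hκ.le
    refine hc.trans ?_
    apply hh_mono h0 h1
    · push_cast; omega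
    · push_cast; omega
    · push_cast; omega
  have hsub2 : LRE 0 m (-(r:ℤ)) r ⊆ boxE m := by
    refine LRE_subset_RE.trans ?_
    unfold boxE
    apply RE_subset <;> omega
  have e3 : κ^(2 * K + 1) ≤ Pr (fun _ => q) (boxE m) (LRc 0 m (-(r:ℤ)) r) := by
    rw [pr_LRc q hsub2]
    apply hh_gen h0 h1 hκ hκ1 hr hc (K := K)
    · omega
    · have : (m:ℤ) ≤ K * r := by exact_mod_cast hK
      linarith
    · omega
  have i1 := Pr_harris ok (Arm_incr (boxE m) (2 * r))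
    (B := Circ r ((2 * r : ℕ) : ℤ)) (fun F G h _ hF => hF.mono h)
  have i2 := Pr_harris ok (S := boxE m)
    (A := fun F => Arm (2 * r) F ∧ Circ r ((2 * r : ℕ) : ℤ) F)
    (B := LRc 0 m (-(r:ℤ)) r) (fun F G h _ hF => ⟨hF.1.mono h, hF.2.mono h⟩)
    (LRc_incr _ _ _ _ _)
  have i3 : Pr (fun _ => q) (boxE m)
      (fun F => (Arm (2 * r) F ∧ Circ r ((2 * r : ℕ) : ℤ) F) ∧ LRc 0 m (-(r:ℤ)) r F) ≤
        arm q m := by
    unfold arm
    apply Pr_mono ok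
    rintro F _ ⟨⟨k1, k2⟩, k3⟩
    exact arm_of_glue3 hr hm k1 k2 k3
  rw [e1] at i1
  have ha : 0 ≤ arm q (2 * r) := arm_nonneg h0 h1 _
  have j1 : arm q (2 * r) * κ^4 ≤ _ := (mul_le_mul_of_nonneg_left e2 ha).trans i1
  have j2 : (arm q (2 * r) * κ^4) * κ^(2 * K + 1) ≤ _ :=
    (mul_le_mul j1 e3 (by positivity) ((by positivity : 0 ≤ arm q (2 * r) * κ^4).trans j1)).trans i2
  calc κ^(2 * K + 5) * arm q (2 * r) = (arm q (2 * r) * κ^4) * κ^(2 * K + 1) := by ring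
    _ ≤ _ := j2
    _ ≤ _ := i3

/-- The dual circuit: probability that the four strips are not crossed. -/
theorem pr_Blk {q κ : ℝ} (h0 : 0 ≤ q) (h1 : q ≤ 1) {R1 R2 : ℤ} (hR1 : 0 ≤ R1) (hR : R1 < R2)
    {S : Finset Edg} (hS : RE (-R2) R2 (-R2) R2 ⊆ S) (hk : 0 ≤ κ)
    (hval : κ ≤ hh (1 - q) (2 * R2 + 1) (R2 - R1 - 1)) :
    κ^4 ≤ Pr (fun _ => q) S (Blk R1 R2) := by
  have ok := okq h0 h1
  obtain ⟨s1, s2, s3, s4⟩ := blk_subs hR1 hR.le hS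
  have e1 := pr_LRc q s1
  have e2 := pr_LRc q s2
  have e3 := pr_TBc q s3
  have e4 := pr_TBc q s4
  have d2 : R2 - -R2 = 2 * R2 := by ring
  have d3 : -R1 - -R2 = R2 - R1 := by ring
  rw [d2] at e1
  rw [d3, d2] at e2
  rw [d2] at e3
  rw [d3, d2] at e4
  have hd := hh_dual (q := q) (w := R2 - R1) (h := 2 * R2) (by omega) (by omega)
  have hval' : κ ≤ 1 - hh q (R2 - R1) (2 * R2) := by linarith
  have i1 := Pr_harris_dd ok (LRc_incr S R1 R2 (-R2) R2) (LRc_incr S (-R2) (-R1) (-R2) R2)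
  have i2 := Pr_harris_dd ok (TBc_incr S (-R2) R2 R1 R2) (TBc_incr S (-R2) R2 (-R2) (-R1))
  rw [e1, e2] at i1
  rw [e3, e4] at i2
  have c1 : IncrE S (fun F => LRc R1 R2 (-R2) R2 F ∨ LRc (-R2) (-R1) (-R2) R2 F) :=
    fun F G hFG _ hF => hF.imp (LRc.mono hFG) (LRc.mono hFG)
  have c2 : IncrE S (fun F => TBc (-R2) R2 R1 R2 F ∨ TBc (-R2) R2 (-R2) (-R1) F) :=
    fun F G hFG _ hF => hF.imp (TBc.mono hFG) (TBc.mono hFG)
  have i3 := Pr_harris_dd ok c1 c2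
  rw [← Pr_not, ← Pr_not] at i3
  have j1 : Pr (fun _ => q) S (fun F => ¬ (LRc R1 R2 (-R2) R2 F ∨
      LRc (-R2) (-R1) (-R2) R2 F)) = Pr (fun _ => q) S (fun F => ¬ LRc R1 R2 (-R2) R2 F ∧
      ¬ LRc (-R2) (-R1) (-R2) R2 F) := Pr_congr (fun F _ => not_or)
  have j2 : Pr (fun _ => q) S (fun F => ¬ (TBc (-R2) R2 R1 R2 F ∨
      TBc (-R2) R2 (-R2) (-R1) F)) = Pr (fun _ => q) S (fun F => ¬ TBc (-R2) R2 R1 R2 F ∧
      ¬ TBc (-R2) R2 (-R2) (-R1) F) := Pr_congr (fun F _ => not_or)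
  rw [j1, j2] at i3
  have k1 : κ * κ ≤ (1 - hh q (R2 - R1) (2 * R2)) * (1 - hh q (R2 - R1) (2 * R2)) :=
    mul_le_mul hval' hval' hk (hk.trans hval')
  have k2 : (κ * κ) * (κ * κ) ≤ _ := mul_le_mul (k1.trans i1) (k1.trans i2) (by positivity)
    ((by positivity : 0 ≤ κ * κ).trans (k1.trans i1))
  calc κ^4 = (κ * κ) * (κ * κ) := by ring
    _ ≤ _ := k2
    _ ≤ _ := i3

/-- Dual circuits are rare if dual crossings are: failure of the block event. -/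
theorem pr_not_Blk {p : ℝ} (h0 : 0 ≤ p) (h1 : p ≤ 1) {N : ℕ} (hN : 2 ≤ N) {S : Finset Edg}
    (hS : RE (-(2 * (N:ℤ) - 1)) (2 * (N:ℤ) - 1) (-(2 * (N:ℤ) - 1)) (2 * (N:ℤ) - 1) ⊆ S) :
    Pr (fun _ => p) S (fun F => ¬ Blk ((N:ℤ) - 1) (2 * (N:ℤ) - 1) F) ≤ 20 * eps (1 - p) N := by
  have hN' : (2:ℤ) ≤ N := by exact_mod_cast hN
  have ok := okq h0 h1
  set n : ℤ := (N:ℤ) with hn
  obtain ⟨s1, s2, s3, s4⟩ := blk_subs (R1 := n - 1) (R2 := 2 * n - 1) (by omega) (by omega) hS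
  have e1 : Pr (fun _ => p) S (LRc (n - 1) (2 * n - 1) (-(2 * n - 1)) (2 * n - 1)) =
      hh p n (4 * n - 2) := by
    rw [pr_LRc p s1]
    congr 1 <;> ring
  have e2 : Pr (fun _ => p) S (LRc (-(2 * n - 1)) (-(n - 1)) (-(2 * n - 1)) (2 * n - 1)) =
      hh p n (4 * n - 2) := by
    rw [pr_LRc p s2]
    congr 1 <;> ring
  have e3 : Pr (fun _ => p) S (TBc (-(2 * n - 1)) (2 * n - 1) (n - 1) (2 * n - 1)) =
      hh p n (4 * n - 2) := by
    rw [pr_TBc p s3]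
    congr 1 <;> ring
  have e4 : Pr (fun _ => p) S (TBc (-(2 * n - 1)) (2 * n - 1) (-(2 * n - 1)) (-(n - 1))) =
      hh p n (4 * n - 2) := by
    rw [pr_TBc p s4]
    congr 1 <;> ring
  have i1 : Pr (fun _ => p) S (fun F => ¬ Blk (n - 1) (2 * n - 1) F) ≤ Pr (fun _ => p) S (fun F =>
      ((LRc (n - 1) (2 * n - 1) (-(2 * n - 1)) (2 * n - 1) F ∨
        LRc (-(2 * n - 1)) (-(n - 1)) (-(2 * n - 1)) (2 * n - 1) F)) ∨
      (TBc (-(2 * n - 1)) (2 * n - 1) (n - 1) (2 * n - 1) F ∨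
        TBc (-(2 * n - 1)) (2 * n - 1) (-(2 * n - 1)) (-(n - 1)) F)) := by
    apply Pr_mono ok
    intro F _ hnb
    unfold Blk at hnb
    tauto
  have i2 := Pr_or_le ok S (fun F => LRc (n - 1) (2 * n - 1) (-(2 * n - 1)) (2 * n - 1) F ∨
        LRc (-(2 * n - 1)) (-(n - 1)) (-(2 * n - 1)) (2 * n - 1) F)
      (fun F => TBc (-(2 * n - 1)) (2 * n - 1) (n - 1) (2 * n - 1) F ∨
        TBc (-(2 * n - 1)) (2 * n - 1) (-(2 * n - 1)) (-(n - 1)) F)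
  have i3 := Pr_or_le ok S (LRc (n - 1) (2 * n - 1) (-(2 * n - 1)) (2 * n - 1))
    (LRc (-(2 * n - 1)) (-(n - 1)) (-(2 * n - 1)) (2 * n - 1))
  have i4 := Pr_or_le ok S (TBc (-(2 * n - 1)) (2 * n - 1) (n - 1) (2 * n - 1))
    (TBc (-(2 * n - 1)) (2 * n - 1) (-(2 * n - 1)) (-(n - 1)))
  rw [e1, e2] at i3
  rw [e3, e4] at i4
  have d1 := hh_dual (q := p) (w := n) (h := 4 * n - 2) (by omega) (by omega)
  have d2 : hh (1 - p) (4 * n) (n - 1) ≤ hh (1 - p) (4 * n - 2 + 1) (n - 1) :=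
    hh_mono (by linarith) (by linarith) (by omega) (by omega) le_rfl
  have d3 := long_cross (p := 1 - p) (by linarith) (by linarith) hN
  rw [← hn] at d3
  linarith

end Pool.Agent.W2helper77.TP
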