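import Pool.Agent.W2helper77.TP.Long
import Pool.Agent.H31R3.Kes.SigUp
import Pool.Agent.H974R2.Sus

/-!
Lower bounds for the truncated two-point function and for the truncated radius.
-/

set_option autoImplicit false
set_option maxHeartbeats 400000

namespace Pool.Agent.W2helper77.TP

open H974 H31K Finset MeasureTheory

/-- The near-critical window of size `n`. -/
structure WinA (p κ c C : ℝ) (n : ℕ) : Prop where
  win : H12S.Win p κ n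
  cpos : 0 < c
  Cpos : 0 < C
  low : ∀ m : ℕ, 1 ≤ m → m ≤ n → c * (m:ℝ)^(-(5/48) : ℝ) ≤ arm p m
  upp : ∀ m : ℕ, 1 ≤ m → m ≤ n → arm p m ≤ C * (m:ℝ)^(-(5/48) : ℝ)

/-- The size of the cluster is finite and it contains `x`. -/
noncomputable def tf (p : unitInterval) (x : Vtx) : ℝ :=
  (bondLaw p).real {ω | x ∈ cluster0 ω ∧ (cluster0 ω).Finite}

/-- The cluster of the origin is finite and reaches distance `r`. -/
noncomputable def rf (p : unitInterval) (r : ℕ) : ℝ :=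
  (bondLaw p).real {ω | ω ∈ ArmE r ∧ (cluster0 ω).Finite}

theorem blk_local' {R1 R2 : ℤ} (h0 : 0 ≤ R1) (h1 : R1 ≤ R2) {n : ℕ} (hn : (n:ℤ) ≤ R1)
    {S : Finset Edg} (hS : RE (-R2) R2 (-R2) R2 ⊆ S) (F : Finset Edg) :
    Blk R1 R2 F ↔ Blk R1 R2 (F ∩ (S \ boxE n)) := by
  obtain ⟨s1, s2, s3, s4⟩ := blk_subs h0 h1 hS
  have t1 : LRE R1 R2 (-R2) R2 ⊆ S \ boxE n := by
    intro e he
    rw [Finset.mem_sdiff]
    refine ⟨s1 he, ?_⟩
    unfold boxE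
    obtain ⟨x, y, _ | _⟩ := e
    · simp only [mem_LRE_false, mem_RE_false] at he ⊢; omega
    · simp only [mem_LRE_true, mem_RE_true] at he ⊢; omega
  have t2 : LRE (-R2) (-R1) (-R2) R2 ⊆ S \ boxE n := by
    intro e he
    rw [Finset.mem_sdiff]
    refine ⟨s2 he, ?_⟩
    unfold boxE
    obtain ⟨x, y, _ | _⟩ := e
    · simp only [mem_LRE_false, mem_RE_false] at he ⊢; omega
    · simp only [mem_LRE_true, mem_RE_true] at he ⊢; omega
  have t3 : TBE (-R2) R2 R1 R2 ⊆ S \ boxE n := by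
    intro e he
    rw [Finset.mem_sdiff]
    refine ⟨s3 he, ?_⟩
    unfold boxE
    obtain ⟨x, y, _ | _⟩ := e
    · simp only [mem_TBE_false, mem_RE_false] at he ⊢; omega
    · simp only [mem_TBE_true, mem_RE_true] at he ⊢; omega
  have t4 : TBE (-R2) R2 (-R2) (-R1) ⊆ S \ boxE n := by
    intro e he
    rw [Finset.mem_sdiff]
    refine ⟨s4 he, ?_⟩
    unfold boxE
    obtain ⟨x, y, _ | _⟩ := e
    · simp only [mem_TBE_false, mem_RE_false] at he ⊢; omega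
    · simp only [mem_TBE_true, mem_RE_true] at he ⊢; omega
  unfold Blk
  rw [LRc_local (F := F) t1, LRc_local (F := F) t2, TBc_local (F := F) t3,
    TBc_local (F := F) t4]

/-- Independence of an event inside the box and the dual circuit around it. -/
theorem indep_Blk (q : ℝ) {R1 R2 : ℤ} (h0 : 0 ≤ R1) (h1 : R1 ≤ R2) {n : ℕ} (hn : (n:ℤ) ≤ R1)
    {S : Finset Edg} (hS : RE (-R2) R2 (-R2) R2 ⊆ S) (hb : boxE n ⊆ S)
    (A : Finset Edg → Prop) (hA : ∀ F, F ⊆ S → (A F ↔ A (F ∩ boxE n))) :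
    Pr (fun _ => q) S (fun F => A F ∧ Blk R1 R2 F) =
      Pr (fun _ => q) S A * Pr (fun _ => q) S (Blk R1 R2) :=
  Pr_indep hb Finset.sdiff_subset Finset.disjoint_sdiff hA
    (fun F _ => blk_local' h0 h1 hn hS F)

theorem fin_of_Blk {R1 R2 : ℤ} (h0 : 0 ≤ R1) (h1 : R1 < R2) {n : ℕ} (hn : R2 ≤ n)
    {ω : sqLattice.edgeSet → Bool} (h : Blk R1 R2 (FF (boxE n) ω)) : (cluster0 ω).Finite := by
  by_contra hinf
  have hinf' : (cluster0 ω).Infinite := hinf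
  rw [infinite_iff] at hinf'
  obtain ⟨v, hv, hr⟩ := armE_iff.mp (hinf' n)
  have hr' : Reach (↑(FF (boxE n) ω) : Set Edg) (0, 0) v := by rw [FF_coe]; exact hr
  refine not_blk_of_arm h0 h1 hr' ?_ h
  unfold onB inR at hv
  omega

theorem tf_ge (p : unitInterval) {κ' : ℝ} (hκ : 0 ≤ κ') {r : ℕ} (hr : 1 ≤ r) {x : Vtx}
    (hval : κ' ≤ hh (1 - (p:ℝ)) (16 * r + 1) (3 * r - 1)) :
    Pr (fun _ => (p:ℝ)) (boxE (5 * r)) (TP x) * κ'^4 ≤ tf p x := by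
  have h0 := p.2.1
  have h1 := p.2.2
  have ok := okq h0 h1
  have hb : boxE (5 * r) ⊆ boxE (8 * r) := boxE_mono (by omega)
  have hS : RE (-((8 * r : ℕ):ℤ)) ((8 * r : ℕ):ℤ) (-((8 * r : ℕ):ℤ)) ((8 * r : ℕ):ℤ) ⊆
      boxE (8 * r) := by
    unfold boxE; exact Finset.Subset.refl _
  set A : Finset Edg → Prop := fun F => TP x (F ∩ boxE (5 * r)) with hA
  have e1 : Pr (fun _ => (p:ℝ)) (boxE (8 * r)) A = Pr (fun _ => (p:ℝ)) (boxE (5 * r)) (TP x) := by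
    rw [Pr_local (A := A) hb]
    · apply Pr_congr
      intro F hF
      simp only [hA]
      rw [Finset.inter_eq_left.mpr hF]
    · intro F _
      simp only [hA]
      rw [Finset.inter_assoc, Finset.inter_self]
  have e2 := indep_Blk (p:ℝ) (R1 := ((5 * r : ℕ):ℤ)) (R2 := ((8 * r : ℕ):ℤ)) (by positivity)
    (by push_cast; omega) (n := 5 * r) le_rfl hS hb A (by
      intro F _
      simp only [hA]
      rw [Finset.inter_assoc, Finset.inter_self])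
  have e3 : κ'^4 ≤ Pr (fun _ => (p:ℝ)) (boxE (8 * r)) (Blk ((5 * r : ℕ):ℤ) ((8 * r : ℕ):ℤ)) := by
    apply pr_Blk h0 h1 (by positivity) (by push_cast; omega) hS hκ
    have d1 : 2 * ((8 * r : ℕ):ℤ) + 1 = 16 * r + 1 := by push_cast; ring
    have d2 : ((8 * r : ℕ):ℤ) - ((5 * r : ℕ):ℤ) - 1 = 3 * r - 1 := by push_cast; ring
    rw [d1, d2]
    exact hval
  have e4 : Pr (fun _ => (p:ℝ)) (boxE (8 * r)) (fun F => A F ∧ Blk ((5 * r : ℕ):ℤ) ((8 * r : ℕ):ℤ) F)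
      ≤ tf p x := by
    rw [← law_event p (boxE (8 * r))]
    unfold tf
    refine measureReal_mono ?_
    rintro ω ⟨hω1, hω2⟩
    refine ⟨?_, fin_of_Blk (by positivity) (by push_cast; omega) le_rfl hω2⟩
    have h3 : Reach (↑(FF (boxE (8 * r)) ω ∩ boxE (5 * r)) : Set Edg) (0, 0) x := hω1
    apply (open_reach ω _ _).mpr
    refine h3.mono ?_
    intro e he
    rw [Finset.coe_inter, FF_coe] at he
    exact he.1.1
  rw [e2, e1] at e4
  exact (mul_le_mul_of_nonneg_left e3 (Pr_nonneg ok _ _)).trans e4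

theorem rf_ge (p : unitInterval) {κ' : ℝ} (hκ : 0 ≤ κ') {r : ℕ} (hr : 1 ≤ r)
    (hval : κ' ≤ hh (1 - (p:ℝ)) (16 * r + 1) (3 * r - 1)) :
    arm p r * κ'^4 ≤ rf p r := by
  have h0 := p.2.1
  have h1 := p.2.2
  have ok := okq h0 h1
  have hb : boxE (5 * r) ⊆ boxE (8 * r) := boxE_mono (by omega)
  have hb1 : boxE r ⊆ boxE (8 * r) := boxE_mono (by omega)
  have hb2 : boxE r ⊆ boxE (5 * r) := boxE_mono (by omega)
  have hS : RE (-((8 * r : ℕ):ℤ)) ((8 * r : ℕ):ℤ) (-((8 * r : ℕ):ℤ)) ((8 * r : ℕ):ℤ) ⊆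
      boxE (8 * r) := by
    unfold boxE; exact Finset.Subset.refl _
  have e1 := pr_Arm (p:ℝ) hb1
  have e2 := indep_Blk (p:ℝ) (R1 := ((5 * r : ℕ):ℤ)) (R2 := ((8 * r : ℕ):ℤ)) (by positivity)
    (by push_cast; omega) (n := 5 * r) le_rfl hS hb (Arm r) (fun F _ => Arm_local hb2)
  have e3 : κ'^4 ≤ Pr (fun _ => (p:ℝ)) (boxE (8 * r)) (Blk ((5 * r : ℕ):ℤ) ((8 * r : ℕ):ℤ)) := by
    apply pr_Blk h0 h1 (by positivity) (by push_cast; omega) hS hκ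
    have d1 : 2 * ((8 * r : ℕ):ℤ) + 1 = 16 * r + 1 := by push_cast; ring
    have d2 : ((8 * r : ℕ):ℤ) - ((5 * r : ℕ):ℤ) - 1 = 3 * r - 1 := by push_cast; ring
    rw [d1, d2]
    exact hval
  have e4 : Pr (fun _ => (p:ℝ)) (boxE (8 * r)) (fun F => Arm r F ∧
      Blk ((5 * r : ℕ):ℤ) ((8 * r : ℕ):ℤ) F) ≤ rf p r := by
    rw [← law_event p (boxE (8 * r))]
    unfold rf
    refine measureReal_mono ?_
    rintro ω ⟨hω1, hω2⟩
    refine ⟨?_, fin_of_Blk (by positivity) (by push_cast; omega) le_rfl hω2⟩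
    rw [armE_iff]
    obtain ⟨v, hv, hr⟩ := hω1
    refine ⟨v, hv, hr.mono ?_⟩
    rw [FF_coe]
    rintro e ⟨⟨he1, -⟩, he2⟩
    exact ⟨he1, he2⟩
  rw [e2, e1] at e4
  exact (mul_le_mul_of_nonneg_left e3 (arm_nonneg h0 h1 _)).trans e4

/-- Arms at all scales. -/
theorem arm_low {p κ c C : ℝ} {n : ℕ} (W : WinA p κ c C n) (hn : 8 ≤ n) {m : ℕ} (hm : 1 ≤ m) :
    c * (m:ℝ)^(-(5/48) : ℝ) * κ^(2 * (m / (n/8)) + 7) ≤ arm p m := by
  have h0 : 0 ≤ p := by linarith [W.win.lo]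
  have h1 : p ≤ 1 := by linarith [W.win.hi]
  have hκ := W.win.kpos
  have hκ1 : κ ≤ 1 := by linarith [W.win.kle]
  have hc := W.cpos
  have hm0 : (0:ℝ) < m := by exact_mod_cast hm
  have hmp : 0 < c * (m:ℝ)^(-(5/48) : ℝ) := by positivity
  rcases le_or_gt m n with hmn | hmn
  · refine le_trans ?_ (W.low m hm hmn)
    exact mul_le_of_le_one_right hmp.le (pow_le_one₀ hκ.le hκ1)
  · obtain ⟨r, hr⟩ : ∃ r : ℕ, r = n / 8 := ⟨_, rfl⟩
    rw [← hr]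
    have hr1 : 1 ≤ r := by omega
    have h2 := arm_far h0 h1 hκ hκ1 hr1 (W.win.pri r hr1 (by omega)) (m := m) (K := m / r + 1)
      (by omega) (by
        have := Nat.lt_mul_div_succ m (show 0 < r by omega)
        nlinarith)
    have h3 := W.low (2 * r) (by omega) (by omega)
    have h4 : (m:ℝ)^(-(5/48) : ℝ) ≤ ((2 * r : ℕ):ℝ)^(-(5/48) : ℝ) := by
      apply Real.rpow_le_rpow_of_nonpos _ _ (by norm_num)
      · exact_mod_cast (by omega : 0 < 2 * r)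
      · exact_mod_cast (by omega : 2 * r ≤ m)
    refine le_trans ?_ h2
    have e : 2 * (m / r + 1) + 5 = 2 * (m / r) + 7 := by ring
    rw [e, mul_comm (c * (m:ℝ)^(-(5/48) : ℝ))]
    apply mul_le_mul_of_nonneg_left _ (by positivity)
    exact (mul_le_mul_of_nonneg_left h4 hc.le).trans h3

/-- Crossings at scales above the window. -/
theorem hh_low {q κ : ℝ} {n : ℕ} (h0 : 0 ≤ q) (h1 : q ≤ 1) (hκ : 0 < κ) (hκ1 : κ ≤ 1)
    (hw : ∀ h : ℕ, 1 ≤ h → h ≤ n → κ ≤ hh q (16 * h) h) (hn : 8 ≤ n) {w h L : ℕ}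
    (hh1 : 1 ≤ h) (hw1 : 1 ≤ w) (hL : w ≤ L * h) :
    κ^(2 * (w / (n/8) + 1 + L) + 1) ≤ hh q w h := by
  obtain ⟨r, hr⟩ : ∃ r : ℕ, r = n / 8 := ⟨_, rfl⟩
  rw [← hr]
  have hr1 : 1 ≤ r := by omega
  rcases le_or_gt r h with hrh | hrh
  · have h2 := hh_gen h0 h1 hκ hκ1 hr1 (hw r hr1 (by omega)) (w := w) (h' := h) (K := w / r + 1)
      (by omega) (by
        have := Nat.lt_mul_div_succ w (show 0 < r by omega)
        have h3 : w ≤ (w / r + 1) * r := by nlinarith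
        exact_mod_cast h3) (by omega)
    refine le_trans ?_ h2
    apply pow_le_pow_of_le_one hκ.le hκ1
    omega
  · have h2 := hh_gen h0 h1 hκ hκ1 hh1 (hw h hh1 (by omega)) (w := w) (h' := h) (K := L)
      (by omega) (by exact_mod_cast hL) le_rfl
    refine le_trans ?_ h2
    apply pow_le_pow_of_le_one hκ.le hκ1
    have : 0 ≤ w / r := Nat.zero_le _
    omega

theorem pow_exp {κ : ℝ} (hκ : 0 < κ) (k : ℕ) : κ^k = Real.exp (-((-Real.log κ) * k)) := by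
  rw [neg_mul, neg_neg, mul_comm, Real.exp_nat_mul, Real.exp_log hκ]

theorem pow_low {κ : ℝ} (hκ : 0 < κ) (hκ1 : κ ≤ 1) {k : ℕ} {A B t : ℝ} (h : (k:ℝ) ≤ A * t + B) :
    κ^(B : ℝ) * Real.exp (-((-Real.log κ) * A * t)) ≤ κ^k := by
  rw [pow_exp hκ, Real.rpow_def_of_pos hκ, ← Real.exp_add]
  apply Real.exp_le_exp.mpr
  have hl : 0 ≤ -Real.log κ := by
    have := Real.log_nonpos hκ.le hκ1
    linarith
  nlinarith [mul_le_mul_of_nonneg_left h hl]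

theorem div_le16 {m n : ℕ} (hn : 8 ≤ n) : ((m / (n/8) : ℕ):ℝ) ≤ 16 * ((m:ℝ)/n) := by
  obtain ⟨r, hr⟩ : ∃ r : ℕ, r = n / 8 := ⟨_, rfl⟩
  rw [← hr]
  have hr1 : 1 ≤ r := by omega
  have hn16 : n ≤ 16 * r := by omega
  have h1 : ((m / r : ℕ):ℝ) ≤ (m:ℝ)/r := Nat.cast_div_le
  have hr0 : (0:ℝ) < r := by exact_mod_cast hr1
  have hn0 : (0:ℝ) < n := by exact_mod_cast (by omega : 0 < n)
  refine h1.trans ?_
  rw [div_le_iff₀ hr0, mul_assoc, div_mul_eq_mul_div, mul_div_assoc', le_div_iff₀ hn0]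
  have h2 : (n:ℝ) ≤ 16 * r := by exact_mod_cast hn16
  nlinarith [Nat.cast_nonneg (α := ℝ) m]

theorem rpow4 {r : ℕ} (hr : 1 ≤ r) {k : ℕ} (hk1 : 1 ≤ k) (hk : k ≤ 4) :
    1/2 * (r:ℝ)^(-(5/48) : ℝ) ≤ ((k * r : ℕ):ℝ)^(-(5/48) : ℝ) := by
  have hr0 : (0:ℝ) < r := by exact_mod_cast hr
  have hk0 : (0:ℝ) < k := by exact_mod_cast hk1
  rw [Nat.cast_mul, Real.mul_rpow hk0.le hr0.le]
  apply mul_le_mul_of_nonneg_right _ (by positivity)
  have h4 : (k:ℝ) ≤ 4 := by exact_mod_cast hk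
  calc (1:ℝ)/2 = (4:ℝ)^(-(1/2) : ℝ) := by
        rw [Real.rpow_neg (by norm_num), show (4:ℝ) = 2^(2:ℝ) by norm_num,
          ← Real.rpow_mul (by norm_num)]
        norm_num
    _ ≤ (4:ℝ)^(-(5/48) : ℝ) := Real.rpow_le_rpow_of_exponent_le (by norm_num) (by norm_num)
    _ ≤ (k:ℝ)^(-(5/48) : ℝ) := Real.rpow_le_rpow_of_nonpos hk0 h4 (by norm_num)

/-- **Lower bound for the truncated two-point function.** -/
theorem tf_low {κ c C : ℝ} (hκ : 0 < κ) (hκ1 : κ ≤ 1) (hc : 0 < c) : ∃ c' K : ℝ, 0 < c' ∧ 0 < K ∧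
    ∀ (p : unitInterval) (n : ℕ), WinA p κ c C n → 8 ≤ n → ∀ (x : Vtx) (r : ℕ), 1 ≤ r →
      r = max x.1.natAbs x.2.natAbs →
      c' * (r:ℝ)^(-(5/24) : ℝ) * Real.exp (-(K * ((r:ℝ)/n))) ≤ tf p x := by
  obtain ⟨lam, hlam⟩ : ∃ lam : ℝ, lam = -Real.log κ := ⟨_, rfl⟩
  have hlam0 : 0 ≤ lam := by
    have := Real.log_nonpos hκ.le hκ1
    rw [hlam]; linarith
  refine ⟨(c/2) * (c/2) * (κ^((7 + 7 + 4 * 9 + 4 * 21 : ℕ))), lam * 4000 + 1, by positivity,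
    by positivity, ?_⟩
  intro p n W hn x r hr hxr
  have h0 := p.2.1
  have h1 := p.2.2
  obtain ⟨x1, x2⟩ := x
  simp only at hxr
  have hx : inR (-r) r (-r) r (x1, x2) := by
    unfold inR
    simp only
    omega
  have t := two_point h0 h1 (r := r) (by omega) hx (Finset.Subset.refl _)
  have a1 := arm_low W hn (m := 3 * r) (by omega)
  have a2 := arm_low W hn (m := 4 * r) (by omega)
  have b1 := hh_low h0 h1 hκ hκ1 W.win.pri hn (w := 6 * r) (h := 2 * r) (L := 3) (by omega)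
    (by omega) (by omega)
  have b2 := hh_low (q := 1 - (p:ℝ)) (by linarith) (by linarith) hκ hκ1 W.win.dua hn
    (w := 16 * r + 1) (h := 3 * r - 1) (L := 9) (by omega) (by omega) (by omega)
  have hr0 : (0:ℝ) < r := by exact_mod_cast hr
  have b3 : κ^(2 * ((16 * r + 1) / (n/8) + 1 + 9) + 1) ≤ hh (1 - (p:ℝ)) (16 * r + 1) (3 * r - 1) := by
    refine b2.trans (le_of_eq ?_)
    congr 1
    · omega
  have g := tf_ge p (x := (x1, x2)) (κ' := κ^(2 * ((16 * r + 1) / (n/8) + 1 + 9) + 1))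
    (by positivity) hr b3
  refine le_trans ?_ g
  have hp0 : 0 < (r:ℝ)^(-(5/48) : ℝ) := by positivity
  have a1' : (c/2) * (r:ℝ)^(-(5/48) : ℝ) * κ^(2 * (3 * r / (n/8)) + 7) ≤ arm p (3 * r) := by
    refine le_trans ?_ a1
    apply mul_le_mul_of_nonneg_right _ (by positivity)
    have := mul_le_mul_of_nonneg_left (rpow4 hr (k := 3) (by norm_num) (by norm_num)) hc.le
    linarith
  have a2' : (c/2) * (r:ℝ)^(-(5/48) : ℝ) * κ^(2 * (4 * r / (n/8)) + 7) ≤ arm p (4 * r) := by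
    refine le_trans ?_ a2
    apply mul_le_mul_of_nonneg_right _ (by positivity)
    have := mul_le_mul_of_nonneg_left (rpow4 hr (k := 4) (by norm_num) (by norm_num)) hc.le
    linarith
  have b1' : (κ^(2 * (6 * r / (n/8) + 1 + 3) + 1))^4 ≤
      (hh p ((6 * r : ℕ) : ℤ) ((2 * r : ℕ) : ℤ))^4 := pow_le_pow_left₀ (by positivity) b1 4
  have t1 : ((c/2) * (r:ℝ)^(-(5/48) : ℝ) * κ^(2 * (3 * r / (n/8)) + 7)) *
      ((c/2) * (r:ℝ)^(-(5/48) : ℝ) * κ^(2 * (4 * r / (n/8)) + 7)) *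
        (κ^(2 * (6 * r / (n/8) + 1 + 3) + 1))^4 ≤ Pr (fun _ => (p:ℝ)) (boxE (5 * r)) (TP (x1, x2)) := by
    refine le_trans ?_ t
    apply mul_le_mul _ b1' (by positivity) (mul_nonneg (arm_nonneg h0 h1 _) (arm_nonneg h0 h1 _))
    exact mul_le_mul a1' a2' (by positivity) (arm_nonneg h0 h1 _)
  refine le_trans ?_ (mul_le_mul_of_nonneg_right t1 (by positivity))
  -- collect the powers
  obtain ⟨k1, hk1⟩ : ∃ k : ℕ, k = 3 * r / (n/8) := ⟨_, rfl⟩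
  obtain ⟨k2, hk2⟩ : ∃ k : ℕ, k = 4 * r / (n/8) := ⟨_, rfl⟩
  obtain ⟨k3, hk3⟩ : ∃ k : ℕ, k = 6 * r / (n/8) := ⟨_, rfl⟩
  obtain ⟨k4, hk4⟩ : ∃ k : ℕ, k = (16 * r + 1) / (n/8) := ⟨_, rfl⟩
  rw [← hk1, ← hk2, ← hk3, ← hk4]
  have e1 : (c/2 * (r:ℝ)^(-(5/48) : ℝ) * κ^(2 * k1 + 7)) *
      (c/2 * (r:ℝ)^(-(5/48) : ℝ) * κ^(2 * k2 + 7)) * (κ^(2 * (k3 + 1 + 3) + 1))^4 *
        (κ^(2 * (k4 + 1 + 9) + 1))^4 =
      ((c/2) * (c/2) * κ^((7 + 7 + 4 * 9 + 4 * 21 : ℕ))) *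
        ((r:ℝ)^(-(5/48) : ℝ) * (r:ℝ)^(-(5/48) : ℝ)) * κ^(2 * k1 + 2 * k2 + 8 * k3 + 8 * k4) := by
    ring
  rw [e1, ← Real.rpow_add hr0, show (-(5/48) + -(5/48) : ℝ) = -(5/24) by norm_num]
  apply mul_le_mul_of_nonneg_left _ (by positivity)
  rw [pow_exp hκ, ← hlam]
  apply Real.exp_le_exp.mpr
  have d1 := div_le16 (m := 3 * r) hn
  have d2 := div_le16 (m := 4 * r) hn
  have d3 := div_le16 (m := 6 * r) hn
  have d4 := div_le16 (m := 16 * r + 1) hn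
  rw [← hk1] at d1
  rw [← hk2] at d2
  rw [← hk3] at d3
  rw [← hk4] at d4
  have hn0 : (0:ℝ) < n := by exact_mod_cast (by omega : 0 < n)
  obtain ⟨t, ht⟩ : ∃ t : ℝ, t = (r:ℝ)/n := ⟨_, rfl⟩
  have ht0 : 0 ≤ t := by rw [ht]; positivity
  have c1 : ((3 * r : ℕ):ℝ)/n = 3 * t := by rw [ht]; push_cast; ring
  have c2 : ((4 * r : ℕ):ℝ)/n = 4 * t := by rw [ht]; push_cast; ring
  have c3 : ((6 * r : ℕ):ℝ)/n = 6 * t := by rw [ht]; push_cast; ring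
  have c4 : ((16 * r + 1 : ℕ):ℝ)/n ≤ 17 * t := by
    rw [ht, ← mul_div_assoc]
    apply div_le_div_of_nonneg_right _ hn0.le
    push_cast
    have : (1:ℝ) ≤ r := by exact_mod_cast hr
    linarith
  rw [c1] at d1
  rw [c2] at d2
  rw [c3] at d3
  rw [← ht]
  push_cast
  have h5 : 2 * (k1:ℝ) + 2 * k2 + 8 * k3 + 8 * k4 ≤ 4000 * t := by linarith
  have h6 := mul_le_mul_of_nonneg_left h5 hlam0
  nlinarith

/-- **Lower bound for the truncated radius.** -/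
theorem rf_low {κ c C : ℝ} (hκ : 0 < κ) (hκ1 : κ ≤ 1) (hc : 0 < c) : ∃ c' K : ℝ, 0 < c' ∧ 0 < K ∧
    ∀ (p : unitInterval) (n : ℕ), WinA p κ c C n → 8 ≤ n → ∀ r : ℕ, 1 ≤ r →
      c' * (r:ℝ)^(-(5/48) : ℝ) * Real.exp (-(K * ((r:ℝ)/n))) ≤ rf p r := by
  obtain ⟨lam, hlam⟩ : ∃ lam : ℝ, lam = -Real.log κ := ⟨_, rfl⟩
  have hlam0 : 0 ≤ lam := by
    have := Real.log_nonpos hκ.le hκ1
    rw [hlam]; linarith
  refine ⟨c * (κ^((7 + 4 * 21 : ℕ))), lam * 4000 + 1, by positivity, by positivity, ?_⟩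
  intro p n W hn r hr
  have h0 := p.2.1
  have h1 := p.2.2
  have a1 := arm_low W hn (m := r) (by omega)
  have b2 := hh_low (q := 1 - (p:ℝ)) (by linarith) (by linarith) hκ hκ1 W.win.dua hn
    (w := 16 * r + 1) (h := 3 * r - 1) (L := 9) (by omega) (by omega) (by omega)
  have hr0 : (0:ℝ) < r := by exact_mod_cast hr
  have b3 : κ^(2 * ((16 * r + 1) / (n/8) + 1 + 9) + 1) ≤ hh (1 - (p:ℝ)) (16 * r + 1) (3 * r - 1) := by
    refine b2.trans (le_of_eq ?_)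
    congr 1
    · omega
  have g := rf_ge p (κ' := κ^(2 * ((16 * r + 1) / (n/8) + 1 + 9) + 1))
    (by positivity) hr b3
  refine le_trans ?_ (le_trans (mul_le_mul_of_nonneg_right a1 (by positivity)) g)
  obtain ⟨k1, hk1⟩ : ∃ k : ℕ, k = r / (n/8) := ⟨_, rfl⟩
  obtain ⟨k4, hk4⟩ : ∃ k : ℕ, k = (16 * r + 1) / (n/8) := ⟨_, rfl⟩
  rw [← hk1, ← hk4]
  have e1 : c * (r:ℝ)^(-(5/48) : ℝ) * κ^(2 * k1 + 7) * (κ^(2 * (k4 + 1 + 9) + 1))^4 =
      (c * κ^((7 + 4 * 21 : ℕ))) * (r:ℝ)^(-(5/48) : ℝ) * κ^(2 * k1 + 8 * k4) := by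
    ring
  rw [e1]
  apply mul_le_mul_of_nonneg_left _ (by positivity)
  rw [pow_exp hκ, ← hlam]
  apply Real.exp_le_exp.mpr
  have d1 := div_le16 (m := r) hn
  have d4 := div_le16 (m := 16 * r + 1) hn
  rw [← hk1] at d1
  rw [← hk4] at d4
  have hn0 : (0:ℝ) < n := by exact_mod_cast (by omega : 0 < n)
  obtain ⟨t, ht⟩ : ∃ t : ℝ, t = (r:ℝ)/n := ⟨_, rfl⟩
  have ht0 : 0 ≤ t := by rw [ht]; positivity
  have c4 : ((16 * r + 1 : ℕ):ℝ)/n ≤ 17 * t := by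
    rw [ht, ← mul_div_assoc]
    apply div_le_div_of_nonneg_right _ hn0.le
    push_cast
    have : (1:ℝ) ≤ r := by exact_mod_cast hr
    linarith
  rw [← ht] at d1
  rw [← ht]
  push_cast
  have h5 : 2 * (k1:ℝ) + 8 * k4 ≤ 4000 * t := by linarith
  have h6 := mul_le_mul_of_nonneg_left h5 hlam0
  nlinarith

end Pool.Agent.W2helper77.TP
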