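import Pool.Agent.W2helper77.TP.Near

/-!
Truncated susceptibility, spatial moments and decay rates near the critical point.
-/

set_option autoImplicit false
set_option maxHeartbeats 400000

namespace Pool.Agent.W2helper77.TP

open H974 H31K Finset MeasureTheory Filter

/-- The radius of a vertex. -/
def rad (x : Vtx) : ℕ := max x.1.natAbs x.2.natAbs

/-- The truncated mean cluster size. -/
noncomputable def chi (p : unitInterval) : ENNReal :=
  ∫⁻ ω in {ω | (cluster0 ω).Finite}, ((cluster0 ω).encard : ENNReal) ∂(bondLaw p)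

/-- The spatial moments of the truncated two-point function. -/
noncomputable def mom (a : ℝ) (p : unitInterval) : ENNReal :=
  ∑' x : Vtx, ENNReal.ofReal ((rad x : ℝ)^a * tf p x)

theorem rf_eq (p : unitInterval) (n : ℕ) : rf p n =
    (bondLaw p).real {ω | (∃ x ∈ cluster0 ω, n ≤ rad x) ∧ (cluster0 ω).Finite} := by
  unfold rf
  congr 1
  ext ω
  constructor
  · rintro ⟨hA, hf⟩
    refine ⟨?_, hf⟩
    obtain ⟨v, hv, hr⟩ := armE_iff.mp hA
    refine ⟨v, (open_reach ω _ _).mpr (hr.mono Set.inter_subset_left), ?_⟩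
    unfold onB inR at hv
    unfold rad
    omega
  · rintro ⟨⟨x, hx, hn⟩, hf⟩
    refine ⟨?_, hf⟩
    rw [armE_iff]
    have hr : Reach (opn ω) (0, 0) x := (open_reach ω _ _).mp hx
    unfold rad at hn
    obtain ⟨w, k1, k2, k3⟩ := first_exit (a := -(n:ℤ)) (b := n) (c := -(n:ℤ)) (d := n)
      (by unfold inR; simp) hr (by omega)
    exact ⟨w, ⟨k1, k2⟩, k3⟩

theorem meas_fin : MeasurableSet {ω : sqLattice.edgeSet → Bool | (cluster0 ω).Finite} := by
  have h : {ω : sqLattice.edgeSet → Bool | (cluster0 ω).Finite} =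
      {ω | (cluster0 ω).Infinite}ᶜ := by
    ext ω
    simp [Set.not_infinite]
  rw [h, infinite_eq]
  exact (MeasurableSet.iInter fun n => meas_event (boxE n) (Arm n)).compl

theorem chi_eq (p : unitInterval) : chi p = ∑' x : Vtx, ENNReal.ofReal (tf p x) := by
  have h1 : ∀ ω : sqLattice.edgeSet → Bool, ((cluster0 ω).encard : ENNReal) =
      ∑' x : Vtx, Set.indicator {ω | x ∈ cluster0 ω} (fun _ => (1 : ENNReal)) ω := by
    intro ω
    rw [← ENNReal.tsum_set_one, tsum_subtype (cluster0 ω) (fun _ => (1 : ENNReal))]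
    rfl
  unfold chi
  rw [lintegral_congr h1, lintegral_tsum]
  · refine tsum_congr fun x => ?_
    have h2 : ∫⁻ ω in {ω | (cluster0 ω).Finite},
        Set.indicator {ω | x ∈ cluster0 ω} (fun _ => (1 : ENNReal)) ω ∂(bondLaw p) =
        ((bondLaw p).restrict {ω | (cluster0 ω).Finite}) {ω | x ∈ cluster0 ω} :=
      lintegral_indicator_one (t10_meas x)
    rw [h2, Measure.restrict_apply (t10_meas x)]
    unfold tf
    rw [measureReal_def, ENNReal.ofReal_toReal (measure_ne_top _ _)]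
    rfl
  · intro x
    exact (measurable_one.indicator (t10_meas x)).aemeasurable

theorem mom_zero (p : unitInterval) : mom 0 p = chi p := by
  rw [chi_eq]
  unfold mom
  refine tsum_congr fun x => ?_
  rw [Real.rpow_zero, one_mul]

/-- Summation over shells. -/
theorem mom_le_shell (a : ℝ) (p : unitInterval) {f : ℕ → ℝ} (hf0 : ∀ r, 0 ≤ f r)
    (hf : ∀ x : Vtx, (rad x : ℝ)^a * tf p x ≤ f (rad x)) :
    mom a p ≤ ∑' r : ℕ, ENNReal.ofReal (8 * (r + 1) * f r) := by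
  classical
  unfold mom
  calc ∑' x : Vtx, ENNReal.ofReal ((rad x : ℝ)^a * tf p x)
      ≤ ∑' x : Vtx, ∑' r : ℕ, (if x ∈ t10_T r then ENNReal.ofReal (f r) else 0) := by
        refine ENNReal.tsum_le_tsum fun x => ?_
        refine (ENNReal.ofReal_le_ofReal (hf x)).trans ?_
        have h1 := ENNReal.le_tsum (f := fun r : ℕ =>
          (if x ∈ t10_T r then ENNReal.ofReal (f r) else 0)) (rad x)
        have h2 : x ∈ t10_T (rad x) := t10_T_mem x
        rw [if_pos h2] at h1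
        exact h1
    _ = ∑' r : ℕ, ∑' x : Vtx, (if x ∈ t10_T r then ENNReal.ofReal (f r) else 0) :=
        ENNReal.tsum_comm
    _ ≤ ∑' r : ℕ, ENNReal.ofReal (8 * (r + 1) * f r) := by
        refine ENNReal.tsum_le_tsum fun r => ?_
        rw [tsum_eq_sum (s := t10_T r) (fun x hx => if_neg hx),
          Finset.sum_congr rfl (fun x hx => if_pos hx), Finset.sum_const, nsmul_eq_mul]
        have h1 : ((t10_T r).card : ENNReal) = ENNReal.ofReal ((t10_T r).card : ℝ) := by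
          rw [ENNReal.ofReal_natCast]
        rw [h1, ← ENNReal.ofReal_mul (by positivity)]
        exact ENNReal.ofReal_le_ofReal (mul_le_mul_of_nonneg_right (t10_T_card r) (hf0 r))

theorem lam_pow {s : ℝ} (hs : 0 < s) (e : ℝ) : (s^(-(4/3) : ℝ))^e = s^(-(4/3 * e)) := by
  rw [← Real.rpow_mul hs.le]
  congr 1
  ring

/-- Upper bound for the spatial moments. -/
theorem mom_up {C k : ℝ} (hC : 0 < C) (hk : 0 < k) {a : ℝ} (ha : 0 ≤ a) : ∃ D : ℝ, 0 < D ∧
    ∀ (p : unitInterval) (s : ℝ), 0 < s → s ≤ 1 →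
      (∀ x : Vtx, 1 ≤ rad x → tf p x ≤
        C * (rad x : ℝ)^(-(5/24) : ℝ) * Real.exp (-(k * (rad x * s^(4/3 : ℝ))))) →
      mom a p ≤ ENNReal.ofReal (D * s^(-(4/3 * (a + 43/24)))) := by
  obtain ⟨C', hC'⟩ : ∃ C' : ℝ, C' = 2 * C + Real.exp (k/2) := ⟨_, rfl⟩
  have hC'0 : 0 < C' := by rw [hC']; positivity
  obtain ⟨K, hK, -⟩ := sum_pow_exp (c := k/2) (Λ := 1) (by positivity) le_rfl
    (α := a + 19/24) (by positivity) 0
  have hK0 : 0 < K := by rw [hK]; positivity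
  refine ⟨8 * C' * K, by positivity, ?_⟩
  intro p s hs hs1 htf
  obtain ⟨Λ, hΛ⟩ : ∃ Λ : ℝ, Λ = s^(-(4/3) : ℝ) := ⟨_, rfl⟩
  have hΛ0 : 0 < Λ := by rw [hΛ]; positivity
  have hΛ1 : 1 ≤ Λ := by
    rw [hΛ]
    exact Real.one_le_rpow_of_pos_of_le_one_of_nonpos hs hs1 (by norm_num)
  have hinv : ∀ r : ℕ, (r:ℝ) * s^(4/3 : ℝ) = (r:ℝ)/Λ := by
    intro r
    rw [hΛ, Real.rpow_neg hs.le, div_inv_eq_mul]
  obtain ⟨f, hf⟩ : ∃ f : ℕ → ℝ, f = fun r : ℕ => C' * ((r:ℝ) + 1)^(a - 5/24) *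
    Real.exp (-(k/2 * (((r:ℝ) + 1)/Λ))) := ⟨_, rfl⟩
  have hf0 : ∀ r, 0 ≤ f r := by intro r; rw [hf]; positivity
  have hfx : ∀ x : Vtx, (rad x : ℝ)^a * tf p x ≤ f (rad x) := by
    intro x
    rw [hf]
    simp only
    rcases Nat.eq_zero_or_pos (rad x) with h0 | h0
    · rw [h0]
      simp only [Nat.cast_zero, zero_add, Real.one_rpow, mul_one]
      have h1 : (0:ℝ)^a ≤ 1 := Real.zero_rpow_le_one a
      have h2 : tf p x ≤ 1 := (tf_le_tau p x).trans (tau_le_one p x)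
      have h3 : (0:ℝ)^a * tf p x ≤ 1 :=
        (mul_le_mul h1 h2 (tf_nonneg p x) zero_le_one).trans (by norm_num)
      refine h3.trans ?_
      have h4 : Real.exp (-(k/2)) ≤ Real.exp (-(k/2 * (1/Λ))) := by
        apply Real.exp_le_exp.mpr
        have : 1/Λ ≤ 1 := by rw [div_le_one hΛ0]; exact hΛ1
        nlinarith
      calc (1:ℝ) = Real.exp (k/2) * Real.exp (-(k/2)) := by rw [← Real.exp_add]; simp
        _ ≤ C' * Real.exp (-(k/2 * (1/Λ))) := by
            apply mul_le_mul _ h4 (Real.exp_pos _).le hC'0.le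
            rw [hC']; linarith
    · obtain ⟨r, hr⟩ : ∃ r : ℕ, r = rad x := ⟨_, rfl⟩
      have h1 := htf x h0
      rw [← hr] at h0 h1 ⊢
      rw [hinv] at h1
      have hr1 : (1:ℝ) ≤ r := by exact_mod_cast h0
      have hr0 : (0:ℝ) < r := by linarith
      have h3 : (r:ℝ)^(-(5/24) : ℝ) ≤ 2 * ((r:ℝ) + 1)^(-(5/24) : ℝ) := by
        have h4 := pow_scale (a := 5/24) (γ := 1/2) (by norm_num) (by norm_num) (by norm_num)
          (by norm_num) (r := (r:ℝ) + 1) (m := r) (by positivity) (by linarith)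
        have e : ((1:ℝ)/2)⁻¹ = 2 := by norm_num
        rwa [e] at h4
      have h5 : (r:ℝ)^a ≤ ((r:ℝ) + 1)^a := Real.rpow_le_rpow hr0.le (by linarith) ha
      have h6 : (r:ℝ)^a * (r:ℝ)^(-(5/24) : ℝ) ≤ 2 * ((r:ℝ) + 1)^(a - 5/24) := by
        calc (r:ℝ)^a * (r:ℝ)^(-(5/24) : ℝ) ≤ ((r:ℝ) + 1)^a * (2 * ((r:ℝ) + 1)^(-(5/24) : ℝ)) :=
              mul_le_mul h5 h3 (by positivity) (by positivity)
          _ = 2 * (((r:ℝ) + 1)^a * ((r:ℝ) + 1)^(-(5/24) : ℝ)) := by ring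
          _ = _ := by
              rw [← Real.rpow_add (by positivity)]
              congr 2
      have h7 : Real.exp (-(k * ((r:ℝ)/Λ))) ≤ Real.exp (-(k/2 * (((r:ℝ) + 1)/Λ))) := by
        apply Real.exp_le_exp.mpr
        apply neg_le_neg
        have : ((r:ℝ) + 1)/Λ ≤ 2 * ((r:ℝ)/Λ) := by
          rw [← mul_div_assoc]
          apply div_le_div_of_nonneg_right _ hΛ0.le
          linarith
        have h8 := mul_le_mul_of_nonneg_left this (by positivity : 0 ≤ k/2)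
        linarith
      calc (r:ℝ)^a * tf p x ≤ (r:ℝ)^a *
            (C * (r:ℝ)^(-(5/24) : ℝ) * Real.exp (-(k * ((r:ℝ)/Λ)))) :=
            mul_le_mul_of_nonneg_left h1 (by positivity)
        _ = C * ((r:ℝ)^a * (r:ℝ)^(-(5/24) : ℝ)) * Real.exp (-(k * ((r:ℝ)/Λ))) := by ring
        _ ≤ C * (2 * ((r:ℝ) + 1)^(a - 5/24)) * Real.exp (-(k/2 * (((r:ℝ) + 1)/Λ))) := by
            apply mul_le_mul _ h7 (Real.exp_pos _).le (by positivity)
            exact mul_le_mul_of_nonneg_left h6 hC.le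
        _ = 2 * C * (((r:ℝ) + 1)^(a - 5/24) * Real.exp (-(k/2 * (((r:ℝ) + 1)/Λ)))) := by ring
        _ ≤ C' * (((r:ℝ) + 1)^(a - 5/24) * Real.exp (-(k/2 * (((r:ℝ) + 1)/Λ)))) := by
            apply mul_le_mul_of_nonneg_right _ (by positivity)
            rw [hC']
            have := Real.exp_pos (k/2)
            linarith
        _ = _ := by ring
  refine (mom_le_shell a p hf0 hfx).trans ?_
  rw [ENNReal.tsum_eq_iSup_nat]
  apply iSup_le
  intro M
  rw [← ENNReal.ofReal_sum_of_nonneg (fun r _ => mul_nonneg (by positivity) (hf0 r))]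
  apply ENNReal.ofReal_le_ofReal
  obtain ⟨K', hK', hsum⟩ := sum_pow_exp (c := k/2) (Λ := Λ) (by positivity) hΛ1
    (α := a + 19/24) (by positivity) M
  have hKK : K' = K := by rw [hK', hK]
  rw [hKK] at hsum
  have e1 : ∑ r ∈ range M, 8 * ((r:ℝ) + 1) * f r =
      8 * C' * ∑ r ∈ range M, ((r:ℝ) + 1)^(a + 19/24) * Real.exp (-(k/2 * (((r:ℝ) + 1)/Λ))) := by
    rw [Finset.mul_sum]
    apply Finset.sum_congr rfl
    intro r _
    rw [hf]
    simp only
    have hr0 : (0:ℝ) < (r:ℝ) + 1 := by positivity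
    have e2 : ((r:ℝ) + 1)^(a + 19/24) = ((r:ℝ) + 1) * ((r:ℝ) + 1)^(a - 5/24) := by
      have : a + 19/24 = 1 + (a - 5/24) := by ring
      rw [this, Real.rpow_add hr0, Real.rpow_one]
    rw [e2]
    ring
  rw [e1]
  have e3 : s^(-(4/3 * (a + 43/24))) = Λ^(1 + (a + 19/24)) := by
    rw [hΛ, lam_pow hs]
    congr 1
    ring
  rw [e3]
  have := mul_le_mul_of_nonneg_left hsum (by positivity : 0 ≤ 8 * C')
  linarith

/-- Lower bound for the spatial moments. -/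
theorem mom_low {c K : ℝ} (hc : 0 < c) (hK : 0 < K) {a : ℝ} (ha : 0 ≤ a) : ∃ D : ℝ, 0 < D ∧
    ∀ (p : unitInterval) (s : ℝ), 0 < s → s ≤ 1 →
      (∀ x : Vtx, 1 ≤ rad x →
        c * (rad x : ℝ)^(-(5/24) : ℝ) * Real.exp (-(K * (rad x * s^(4/3 : ℝ)))) ≤ tf p x) →
      ENNReal.ofReal (D * s^(-(4/3 * (a + 43/24)))) ≤ mom a p := by
  classical
  refine ⟨c * Real.exp (-K) * (1/4)^a * (1/16), by positivity, ?_⟩
  intro p s hs hs1 htf
  obtain ⟨Λ, hΛ⟩ : ∃ Λ : ℝ, Λ = s^(-(4/3) : ℝ) := ⟨_, rfl⟩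
  have hΛ0 : 0 < Λ := by rw [hΛ]; positivity
  have hΛ1 : 1 ≤ Λ := by
    rw [hΛ]
    exact Real.one_le_rpow_of_pos_of_le_one_of_nonpos hs hs1 (by norm_num)
  have hinv : ∀ r : ℕ, (r:ℝ) * s^(4/3 : ℝ) = (r:ℝ)/Λ := by
    intro r
    rw [hΛ, Real.rpow_neg hs.le, div_inv_eq_mul]
  obtain ⟨m, hm⟩ : ∃ m : ℕ, m = ⌊Λ⌋₊ := ⟨_, rfl⟩
  have hm1 : 1 ≤ m := by rw [hm]; exact Nat.le_floor (by exact_mod_cast hΛ1)
  have hmΛ : (m:ℝ) ≤ Λ := by rw [hm]; exact Nat.floor_le hΛ0.le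
  have hm1' : (1:ℝ) ≤ m := by exact_mod_cast hm1
  have hΛm : Λ ≤ 2 * m := by
    have := Nat.lt_floor_add_one Λ
    rw [← hm] at this
    linarith
  -- the vertices with first coordinate between `m/2` and `m`
  obtain ⟨B, hB⟩ : ∃ B : Finset Vtx, B = Finset.Icc ((m:ℤ) - (m/2 : ℕ)) m ×ˢ
    Finset.Icc (0:ℤ) ((m:ℤ)) := ⟨_, rfl⟩
  have hcard : (1/4) * (m:ℝ)^2 ≤ (B.card : ℝ) := by
    rw [hB, Finset.card_product, Int.card_Icc, Int.card_Icc]
    have e1 : (((m:ℤ) + 1 - ((m:ℤ) - (m/2 : ℕ))).toNat) = m/2 + 1 := by omega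
    have e2 : (((m:ℤ) + 1 - 0).toNat) = m + 1 := by omega
    rw [e1, e2]
    have e3 : (m:ℝ) ≤ 2 * ((m/2 : ℕ) + 1 : ℝ) := by
      have : m ≤ 2 * (m/2 + 1) := by omega
      exact_mod_cast this
    push_cast
    nlinarith
  have hB2 : ∀ x ∈ B, m ≤ 2 * rad x ∧ rad x ≤ m := by
    rintro ⟨x1, x2⟩ hx
    rw [hB, Finset.mem_product, Finset.mem_Icc, Finset.mem_Icc] at hx
    simp only at hx
    unfold rad
    simp only
    omega
  have h1 : ENNReal.ofReal (∑ x ∈ B, (rad x : ℝ)^a * tf p x) ≤ mom a p := by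
    rw [ENNReal.ofReal_sum_of_nonneg (fun x _ => mul_nonneg (by positivity) (tf_nonneg p x))]
    unfold mom
    exact ENNReal.sum_le_tsum B
  refine le_trans (ENNReal.ofReal_le_ofReal ?_) h1
  have h2 : ∀ x ∈ B, (1/4)^a * Λ^a * (c * Λ^(-(5/24) : ℝ) * Real.exp (-K)) ≤
      (rad x : ℝ)^a * tf p x := by
    intro x hx
    obtain ⟨h3, h4⟩ := hB2 x hx
    have h5 : 1 ≤ rad x := by omega
    have h6 := htf x h5
    rw [hinv] at h6
    have hr1 : (1:ℝ) ≤ rad x := by exact_mod_cast h5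
    have hrm : (rad x : ℝ) ≤ m := by exact_mod_cast h4
    have hmr : (m:ℝ) ≤ 2 * rad x := by exact_mod_cast h3
    have h7 : (1/4)^a * Λ^a ≤ (rad x : ℝ)^a := by
      rw [← Real.mul_rpow (by norm_num) hΛ0.le]
      exact Real.rpow_le_rpow (by positivity) (by linarith) ha
    have h8 : Λ^(-(5/24) : ℝ) ≤ (rad x : ℝ)^(-(5/24) : ℝ) :=
      Real.rpow_le_rpow_of_nonpos (by linarith) (by linarith) (by norm_num)
    have h9 : Real.exp (-K) ≤ Real.exp (-(K * ((rad x : ℝ)/Λ))) := by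
      apply Real.exp_le_exp.mpr
      have : (rad x : ℝ)/Λ ≤ 1 := by rw [div_le_one hΛ0]; linarith
      nlinarith
    apply mul_le_mul h7 _ (by positivity) (by positivity)
    refine le_trans ?_ h6
    apply mul_le_mul _ h9 (Real.exp_pos _).le (by positivity)
    exact mul_le_mul_of_nonneg_left h8 hc.le
  have h3 := Finset.sum_le_sum h2
  rw [Finset.sum_const, nsmul_eq_mul] at h3
  refine le_trans ?_ h3
  have e3 : s^(-(4/3 * (a + 43/24))) = Λ^a * Λ^(-(5/24) : ℝ) * Λ^2 := by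
    rw [← Real.rpow_natCast Λ 2, ← Real.rpow_add hΛ0, ← Real.rpow_add hΛ0, hΛ, lam_pow hs]
    congr 1
    push_cast
    ring
  rw [e3]
  have h4 : (1/16) * Λ^2 ≤ (B.card : ℝ) := by nlinarith
  calc c * Real.exp (-K) * (1/4)^a * (1/16) * (Λ^a * Λ^(-(5/24) : ℝ) * Λ^2)
      = ((1/16) * Λ^2) * ((1/4)^a * Λ^a * (c * Λ^(-(5/24) : ℝ) * Real.exp (-K))) := by ring
    _ ≤ _ := mul_le_mul_of_nonneg_right h4 (by positivity)

/-- Decay rates. -/
theorem rate {c C k K s : ℝ} (hc : 0 < c) (hC : 0 < C) (hk : 0 < k) (hK : 0 < K) (hs : 0 < s)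
    {T : ℕ → ℝ} (h : ∀ n : ℕ, 1 ≤ n → c * (n:ℝ)^(-(5/24) : ℝ) * Real.exp (-(K * (n * s))) ≤ T n ∧
      T n ≤ C * (n:ℝ)^(-(5/24) : ℝ) * Real.exp (-(k * (n * s)))) :
    ∀ᶠ n : ℕ in atTop, k/2 * s ≤ -Real.log (T n) / n ∧ -Real.log (T n) / n ≤ 2 * K * s := by
  have hlog : Tendsto (fun n : ℕ => Real.log n / (n:ℝ)) atTop (nhds 0) := by
    have := Real.isLittleO_log_id_atTop.tendsto_div_nhds_zero
    exact this.comp tendsto_natCast_atTop_atTop
  have hinv : Tendsto (fun n : ℕ => (1:ℝ) / (n:ℝ)) atTop (nhds 0) :=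
    tendsto_one_div_atTop_nhds_zero_nat
  have h1 : ∀ᶠ n : ℕ in atTop, |Real.log C| * ((1:ℝ) / (n:ℝ)) < k/2 * s := by
    have := hinv.const_mul |Real.log C|
    rw [mul_zero] at this
    exact this.eventually (gt_mem_nhds (by positivity))
  have h2 : ∀ᶠ n : ℕ in atTop, |Real.log c| * ((1:ℝ) / (n:ℝ)) < K/2 * s := by
    have := hinv.const_mul |Real.log c|
    rw [mul_zero] at this
    exact this.eventually (gt_mem_nhds (by positivity))
  have h3 : ∀ᶠ n : ℕ in atTop, Real.log n / (n:ℝ) < K/2 * s :=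
    hlog.eventually (gt_mem_nhds (by positivity))
  filter_upwards [h1, h2, h3, eventually_ge_atTop 1] with n g1 g2 g3 hn
  obtain ⟨l, u⟩ := h n hn
  have hn0 : (0:ℝ) < n := by exact_mod_cast hn
  have hn1 : (1:ℝ) ≤ n := by exact_mod_cast hn
  have hlogn : 0 ≤ Real.log n := Real.log_nonneg hn1
  have hp : 0 < (n:ℝ)^(-(5/24) : ℝ) := by positivity
  have hT : 0 < T n := lt_of_lt_of_le (by positivity) l
  have lu := Real.log_le_log hT u
  have ll := Real.log_le_log (by positivity) l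
  rw [Real.log_mul (by positivity) (Real.exp_pos _).ne', Real.log_exp,
    Real.log_mul hC.ne' hp.ne', Real.log_rpow hn0] at lu
  rw [Real.log_mul (by positivity) (Real.exp_pos _).ne', Real.log_exp,
    Real.log_mul hc.ne' hp.ne', Real.log_rpow hn0] at ll
  rw [mul_one_div, div_lt_iff₀ hn0] at g1 g2
  rw [div_lt_iff₀ hn0] at g3
  have a1 := le_abs_self (Real.log C)
  have a2 := neg_abs_le (Real.log c)
  constructor
  · rw [le_div_iff₀ hn0]
    nlinarith
  · rw [div_le_iff₀ hn0]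
    nlinarith

end Pool.Agent.W2helper77.TP
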