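import Pool.Agent.W2helper77.TP.Mom

/-!
Sums over finite sets of vertices of products of powers of the (capped) distances to the nearest
other vertex.
-/

set_option autoImplicit false
set_option maxHeartbeats 400000

namespace Pool.Agent.W2helper77.TP

open H974 H31K Finset

/-- Distance of two vertices. -/
def dd (x y : Vtx) : ℕ := rad (x - y)

theorem dd_comm (x y : Vtx) : dd x y = dd y x := by
  obtain ⟨a, b⟩ := x
  obtain ⟨c, d⟩ := y
  unfold dd rad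
  simp only [Prod.mk_sub_mk]
  omega

theorem dd_tri (x y z : Vtx) : dd x z ≤ dd x y + dd y z := by
  obtain ⟨a, b⟩ := x
  obtain ⟨c, d⟩ := y
  obtain ⟨e, f⟩ := z
  unfold dd rad
  simp only [Prod.mk_sub_mk]
  omega

theorem dd_pos {x y : Vtx} (h : x ≠ y) : 1 ≤ dd x y := by
  obtain ⟨a, b⟩ := x
  obtain ⟨c, d⟩ := y
  unfold dd rad
  simp only [Prod.mk_sub_mk]
  by_contra hcon
  apply h
  have h1 : a = c := by omega
  have h2 : b = d := by omega
  rw [h1, h2]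

/-- Distance to the nearest other vertex of `X`, capped by `n`. -/
noncomputable def nd (n : ℕ) (X : Finset Vtx) (x : Vtx) : ℕ :=
  (insert n ((X.erase x).image (fun y => dd x y))).min' (Finset.insert_nonempty _ _)

theorem nd_le_cap (n : ℕ) (X : Finset Vtx) (x : Vtx) : nd n X x ≤ n :=
  Finset.min'_le _ _ (Finset.mem_insert_self _ _)

theorem nd_le {n : ℕ} {X : Finset Vtx} {x y : Vtx} (hy : y ∈ X) (hne : y ≠ x) :
    nd n X x ≤ dd x y :=
  Finset.min'_le _ _ (Finset.mem_insert_of_mem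
    (Finset.mem_image_of_mem _ (Finset.mem_erase.mpr ⟨hne, hy⟩)))

theorem le_nd {n k : ℕ} {X : Finset Vtx} {x : Vtx} (hk : k ≤ n)
    (h : ∀ y ∈ X, y ≠ x → k ≤ dd x y) : k ≤ nd n X x := by
  apply Finset.le_min'
  intro z hz
  rcases Finset.mem_insert.mp hz with h1 | h1
  · rw [h1]; exact hk
  · obtain ⟨y, hy, rfl⟩ := Finset.mem_image.mp h1
    exact h y (Finset.mem_erase.mp hy).2 (Finset.mem_erase.mp hy).1

theorem nd_pos {n : ℕ} (hn : 1 ≤ n) (X : Finset Vtx) (x : Vtx) : 1 ≤ nd n X x :=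
  le_nd hn (fun _ _ hne => dd_pos (Ne.symm hne))

theorem nd_cases (n : ℕ) (X : Finset Vtx) (x : Vtx) :
    nd n X x = n ∨ ∃ y ∈ X, y ≠ x ∧ nd n X x = dd x y := by
  have h := Finset.min'_mem (insert n ((X.erase x).image (fun y => dd x y)))
    (Finset.insert_nonempty _ _)
  rcases Finset.mem_insert.mp h with h1 | h1
  · exact Or.inl h1
  · obtain ⟨y, hy, he⟩ := Finset.mem_image.mp h1
    exact Or.inr ⟨y, (Finset.mem_erase.mp hy).2, (Finset.mem_erase.mp hy).1, he.symm⟩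

/-- The weight of a finite set. -/
noncomputable def wt (A : ℝ) (n : ℕ) (X : Finset Vtx) : ℝ :=
  ∏ x ∈ X, A * (nd n X x : ℝ)^(-(5/48) : ℝ)

theorem wt_nonneg {A : ℝ} (hA : 0 ≤ A) (n : ℕ) (X : Finset Vtx) : 0 ≤ wt A n X :=
  Finset.prod_nonneg (fun _ _ => mul_nonneg hA (by positivity))

theorem exists_closest {X : Finset Vtx} (h : 1 < X.card) :
    ∃ a ∈ X, ∃ b ∈ X, a ≠ b ∧ ∀ x ∈ X, ∀ y ∈ X, x ≠ y → dd a b ≤ dd x y := by
  classical
  obtain ⟨u, hu, v, hv, huv⟩ := Finset.one_lt_card.mp h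
  have hne : (X.offDiag).Nonempty := ⟨(u, v), Finset.mem_offDiag.mpr ⟨hu, hv, huv⟩⟩
  obtain ⟨⟨a, b⟩, hab, hmin⟩ := Finset.exists_min_image X.offDiag (fun q => dd q.1 q.2) hne
  obtain ⟨ha, hb, hne'⟩ := Finset.mem_offDiag.mp hab
  exact ⟨a, ha, b, hb, hne', fun x hx y hy hxy => hmin (x, y) (Finset.mem_offDiag.mpr ⟨hx, hy, hxy⟩)⟩

/-- The factor of a removed vertex. -/
noncomputable def gg (n d : ℕ) : ℝ := ((min n d : ℕ) : ℝ)^(-(5/24) : ℝ) * (n:ℝ)^((5/48) : ℝ)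

theorem gg_nonneg (n d : ℕ) : 0 ≤ gg n d := by unfold gg; positivity

/-- Removing a vertex of a closest pair. -/
theorem wt_remove {A : ℝ} (hA : 0 ≤ A) {n : ℕ} (hn : 1 ≤ n) {X : Finset Vtx} {a b : Vtx}
    (ha : a ∈ X) (hb : b ∈ X) (hab : a ≠ b)
    (hmin : ∀ x ∈ X, ∀ y ∈ X, x ≠ y → dd a b ≤ dd x y) :
    wt A n X ≤ A * 2^X.card * gg n (dd a b) * wt A n (X.erase a) := by
  classical
  obtain ⟨Z, hZ⟩ : ∃ Z : Finset Vtx, Z = X.erase a := ⟨_, rfl⟩
  obtain ⟨m, hm⟩ : ∃ m : ℕ, m = min n (dd a b) := ⟨_, rfl⟩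
  have hd1 := dd_pos hab
  have hm1 : 1 ≤ m := by rw [hm]; exact le_min hn hd1
  have hm0 : (0:ℝ) < m := by exact_mod_cast hm1
  have hn0 : (0:ℝ) < n := by exact_mod_cast hn
  have hbZ : b ∈ Z := by rw [hZ]; exact Finset.mem_erase.mpr ⟨hab.symm, hb⟩
  have hmp : 0 < (m:ℝ)^(-(5/48) : ℝ) := by positivity
  -- the vertex `a`
  have fa : (nd n X a : ℝ)^(-(5/48) : ℝ) ≤ (m:ℝ)^(-(5/48) : ℝ) := by
    apply Real.rpow_le_rpow_of_nonpos hm0 _ (by norm_num)
    have : m ≤ nd n X a := by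
      apply le_nd (by rw [hm]; exact min_le_left _ _)
      intro y hy hne
      rw [hm]
      exact (min_le_right _ _).trans (hmin a ha y hy (Ne.symm hne))
    exact_mod_cast this
  -- the vertex `b`
  have fb : (nd n X b : ℝ)^(-(5/48) : ℝ) ≤
      ((m:ℝ)^(-(5/48) : ℝ) * (n:ℝ)^((5/48) : ℝ)) * (nd n Z b : ℝ)^(-(5/48) : ℝ) := by
    have h1 : (nd n X b : ℝ)^(-(5/48) : ℝ) ≤ (m:ℝ)^(-(5/48) : ℝ) := by
      apply Real.rpow_le_rpow_of_nonpos hm0 _ (by norm_num)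
      have : m ≤ nd n X b := by
        apply le_nd (by rw [hm]; exact min_le_left _ _)
        intro y hy hne
        rw [hm]
        exact (min_le_right _ _).trans (hmin b hb y hy (Ne.symm hne))
      exact_mod_cast this
    have h2 : 1 ≤ (n:ℝ)^((5/48) : ℝ) * (nd n Z b : ℝ)^(-(5/48) : ℝ) := by
      have h3 : (n:ℝ)^(-(5/48) : ℝ) ≤ (nd n Z b : ℝ)^(-(5/48) : ℝ) := by
        apply Real.rpow_le_rpow_of_nonpos _ _ (by norm_num)
        · exact_mod_cast nd_pos hn Z b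
        · exact_mod_cast nd_le_cap n Z b
      have h4 : (n:ℝ)^((5/48) : ℝ) * (n:ℝ)^(-(5/48) : ℝ) = 1 := by
        rw [← Real.rpow_add hn0]; norm_num
      rw [← h4]
      exact mul_le_mul_of_nonneg_left h3 (by positivity)
    calc (nd n X b : ℝ)^(-(5/48) : ℝ) ≤ (m:ℝ)^(-(5/48) : ℝ) * 1 := by rw [mul_one]; exact h1
      _ ≤ (m:ℝ)^(-(5/48) : ℝ) * ((n:ℝ)^((5/48) : ℝ) * (nd n Z b : ℝ)^(-(5/48) : ℝ)) :=
          mul_le_mul_of_nonneg_left h2 hmp.le
      _ = _ := by ring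
  -- the other vertices
  have fx : ∀ x ∈ Z.erase b, A * (nd n X x : ℝ)^(-(5/48) : ℝ) ≤
      2 * (A * (nd n Z x : ℝ)^(-(5/48) : ℝ)) := by
    intro x hx
    have hxb : x ≠ b := (Finset.mem_erase.mp hx).1
    have hxZ : x ∈ Z := (Finset.mem_erase.mp hx).2
    rw [hZ] at hxZ
    have hxa : x ≠ a := (Finset.mem_erase.mp hxZ).1
    have hxX : x ∈ X := (Finset.mem_erase.mp hxZ).2
    have h1 : nd n Z x ≤ 2 * nd n X x := by
      rcases nd_cases n X x with h2 | ⟨y, hy, hyx, h2⟩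
      · have := nd_le_cap n Z x
        omega
      · by_cases hya : y = a
        · subst hya
          have h3 : nd n Z x ≤ dd x b := nd_le hbZ (Ne.symm hxb)
          have h4 := dd_tri x y b
          have h5 := hmin x hxX y hy (Ne.symm hyx)
          omega
        · have h3 : nd n Z x ≤ dd x y := by
            apply nd_le _ hyx
            rw [hZ]
            exact Finset.mem_erase.mpr ⟨hya, hy⟩
          omega
    have h0 : (0:ℝ) < nd n Z x := by exact_mod_cast nd_pos hn Z x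
    have h6 := pow_scale (a := 5/48) (γ := 1/2) (by norm_num) (by norm_num) (by norm_num)
      (by norm_num) (r := (nd n Z x : ℝ)) (m := (nd n X x : ℝ)) h0 (by
        have : (nd n Z x : ℝ) ≤ 2 * nd n X x := by exact_mod_cast h1
        linarith)
    have e : ((1:ℝ)/2)⁻¹ = 2 := by norm_num
    rw [e] at h6
    have := mul_le_mul_of_nonneg_left h6 hA
    linarith
  have hprod : ∏ x ∈ Z.erase b, A * (nd n X x : ℝ)^(-(5/48) : ℝ) ≤
      2^(Z.erase b).card * ∏ x ∈ Z.erase b, A * (nd n Z x : ℝ)^(-(5/48) : ℝ) := by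
    rw [← Finset.prod_const, ← Finset.prod_mul_distrib]
    exact Finset.prod_le_prod (fun x _ => mul_nonneg hA (by positivity)) fx
  have e1 : wt A n X = (A * (nd n X a : ℝ)^(-(5/48) : ℝ)) *
      ((A * (nd n X b : ℝ)^(-(5/48) : ℝ)) *
        ∏ x ∈ Z.erase b, A * (nd n X x : ℝ)^(-(5/48) : ℝ)) := by
    unfold wt
    rw [← Finset.mul_prod_erase X _ ha, ← hZ, ← Finset.mul_prod_erase Z _ hbZ]
  have e2 : wt A n Z = (A * (nd n Z b : ℝ)^(-(5/48) : ℝ)) *
      ∏ x ∈ Z.erase b, A * (nd n Z x : ℝ)^(-(5/48) : ℝ) := by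
    unfold wt
    rw [← Finset.mul_prod_erase Z _ hbZ]
  have hP0 : 0 ≤ ∏ x ∈ Z.erase b, A * (nd n Z x : ℝ)^(-(5/48) : ℝ) :=
    Finset.prod_nonneg (fun x _ => mul_nonneg hA (by positivity))
  have hQ0 : 0 ≤ ∏ x ∈ Z.erase b, A * (nd n X x : ℝ)^(-(5/48) : ℝ) :=
    Finset.prod_nonneg (fun x _ => mul_nonneg hA (by positivity))
  have hcard : (2:ℝ)^(Z.erase b).card ≤ 2^X.card := by
    apply pow_le_pow_right₀ (by norm_num)
    exact (Finset.card_erase_le).trans (by rw [hZ]; exact Finset.card_erase_le)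
  have egg : gg n (dd a b) = ((m:ℝ)^(-(5/48) : ℝ) * (m:ℝ)^(-(5/48) : ℝ)) * (n:ℝ)^((5/48) : ℝ) := by
    unfold gg
    rw [← hm, ← Real.rpow_add hm0]
    norm_num
  rw [← hZ, e1, e2, egg]
  calc (A * (nd n X a : ℝ)^(-(5/48) : ℝ)) * ((A * (nd n X b : ℝ)^(-(5/48) : ℝ)) *
        ∏ x ∈ Z.erase b, A * (nd n X x : ℝ)^(-(5/48) : ℝ))
      ≤ (A * (m:ℝ)^(-(5/48) : ℝ)) * ((A * (((m:ℝ)^(-(5/48) : ℝ) * (n:ℝ)^((5/48) : ℝ)) *
          (nd n Z b : ℝ)^(-(5/48) : ℝ))) *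
        (2^X.card * ∏ x ∈ Z.erase b, A * (nd n Z x : ℝ)^(-(5/48) : ℝ))) := by
        apply mul_le_mul (mul_le_mul_of_nonneg_left fa hA) _ (by positivity) (by positivity)
        apply mul_le_mul (mul_le_mul_of_nonneg_left fb hA) _ hQ0 (by positivity)
        exact hprod.trans (mul_le_mul_of_nonneg_right hcard hP0)
    _ = _ := by ring

/-- The other vertices of the box. -/
noncomputable def bxz (R : ℕ) : Finset Vtx := (boxV R).erase (0, 0)

/-- Sum of the weights of the sets containing the origin and `m` other vertices. -/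
noncomputable def SW (A : ℝ) (n R m : ℕ) : ℝ :=
  ∑ X ∈ (bxz R).powersetCard m, wt A n (insert (0, 0) X)

theorem SW_nonneg {A : ℝ} (hA : 0 ≤ A) (n R m : ℕ) : 0 ≤ SW A n R m :=
  Finset.sum_nonneg (fun _ _ => wt_nonneg hA _ _)

theorem SW_zero {A : ℝ} (n R : ℕ) : SW A n R 0 = A * (n:ℝ)^(-(5/48) : ℝ) := by
  have e : nd n {((0:ℤ), (0:ℤ))} (0, 0) = n := by
    apply le_antisymm (nd_le_cap _ _ _)
    apply le_nd le_rfl
    intro y hy hne
    exact absurd (Finset.mem_singleton.mp hy) hne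
  unfold SW wt
  rw [Finset.powersetCard_zero, Finset.sum_singleton]
  simp only [insert_empty_eq, Finset.prod_singleton, e]

/-- Shells around a vertex. -/
theorem shell_sum {f : ℕ → ℝ} (hf : ∀ k, 0 ≤ f k) (R : ℕ) {b : Vtx} (hb : b ∈ boxV R)
    {B : Finset Vtx} (hB : B ⊆ boxV R) (hbB : b ∉ B) :
    ∑ a ∈ B, f (dd a b) ≤ ∑ k ∈ Finset.Icc 1 (2 * R), 8 * ((k:ℝ) + 1) * f k := by
  classical
  have hmaps : ∀ a ∈ B, dd a b ∈ Finset.Icc 1 (2 * R) := by
    intro a ha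
    rw [Finset.mem_Icc]
    refine ⟨dd_pos (fun h => hbB (h ▸ ha)), ?_⟩
    have h1 := mem_boxV (hB ha)
    have h2 := mem_boxV hb
    obtain ⟨a1, a2⟩ := a
    obtain ⟨b1, b2⟩ := b
    unfold inR at h1 h2
    unfold dd rad
    simp only [Prod.mk_sub_mk] at h1 h2 ⊢
    omega
  rw [← Finset.sum_fiberwise_of_maps_to hmaps]
  apply Finset.sum_le_sum
  intro k _
  have h1 : ∀ a ∈ B.filter (fun a => dd a b = k), f (dd a b) = f k := by
    intro a ha
    rw [(Finset.mem_filter.mp ha).2]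
  rw [Finset.sum_congr rfl h1, Finset.sum_const, nsmul_eq_mul]
  apply mul_le_mul_of_nonneg_right _ (hf k)
  have h2 : (B.filter (fun a => dd a b = k)).card ≤ (t10_T k).card := by
    apply Finset.card_le_card_of_injOn (fun a => a - b)
    · intro a ha
      have h3 : dd a b = k := (Finset.mem_filter.mp (Finset.mem_coe.mp ha)).2
      have h4 := t10_T_mem (a - b)
      have h5 : max (a - b).1.natAbs (a - b).2.natAbs = k := h3
      rw [h5] at h4
      exact Finset.mem_coe.mpr h4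
    · intro a _ a' _ h
      exact sub_left_injective h
  have h3 : ((B.filter (fun a => dd a b = k)).card : ℝ) ≤ ((t10_T k).card : ℝ) := by
    exact_mod_cast h2
  exact h3.trans (t10_T_card k)

theorem gg_sum {n : ℕ} (hn : 1 ≤ n) {R : ℕ} {j : ℝ} (hj : 1 ≤ j) (hR : (R:ℝ) ≤ j * n) :
    ∑ k ∈ Finset.Icc 1 (2 * R), 8 * ((k:ℝ) + 1) * gg n k ≤
      100 * j^2 * (n:ℝ)^((91/48) : ℝ) := by
  have hn0 : (0:ℝ) < n := by exact_mod_cast hn
  have hn1 : (1:ℝ) ≤ n := by exact_mod_cast hn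
  -- pointwise bound
  have h1 : ∀ k ∈ Finset.Icc 1 (2 * R), 8 * ((k:ℝ) + 1) * gg n k ≤
      (if k ≤ n then 16 * (n:ℝ)^((43/48) : ℝ) else 0) +
        16 * (2 * (j * n)) * (n:ℝ)^(-(5/48) : ℝ) := by
    intro k hk
    obtain ⟨hk1, hk2⟩ := Finset.mem_Icc.mp hk
    have hk0 : (0:ℝ) < k := by exact_mod_cast hk1
    have hk1' : (1:ℝ) ≤ k := by exact_mod_cast hk1
    have hkR : (k:ℝ) ≤ 2 * (j * n) := by
      have : (k:ℝ) ≤ 2 * R := by exact_mod_cast hk2
      linarith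
    have hp0 : 0 ≤ 16 * (2 * (j * n)) * (n:ℝ)^(-(5/48) : ℝ) := by positivity
    by_cases hkn : k ≤ n
    · rw [if_pos hkn]
      have e : gg n k = (k:ℝ)^(-(5/24) : ℝ) * (n:ℝ)^((5/48) : ℝ) := by
        unfold gg; rw [min_eq_right hkn]
      rw [e]
      have h2 : (k:ℝ) * (k:ℝ)^(-(5/24) : ℝ) ≤ (n:ℝ)^((19/24) : ℝ) := by
        have e2 : (k:ℝ) * (k:ℝ)^(-(5/24) : ℝ) = (k:ℝ)^((19/24) : ℝ) := by
          rw [show ((19/24) : ℝ) = 1 + -(5/24) by norm_num, Real.rpow_add hk0, Real.rpow_one]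
        rw [e2]
        exact Real.rpow_le_rpow hk0.le (by exact_mod_cast hkn) (by norm_num)
      have h3 : 8 * ((k:ℝ) + 1) ≤ 16 * k := by linarith
      have h4 : (n:ℝ)^((19/24) : ℝ) * (n:ℝ)^((5/48) : ℝ) = (n:ℝ)^((43/48) : ℝ) := by
        rw [← Real.rpow_add hn0]; norm_num
      have h5 : 8 * ((k:ℝ) + 1) * ((k:ℝ)^(-(5/24) : ℝ) * (n:ℝ)^((5/48) : ℝ)) ≤
          16 * (n:ℝ)^((43/48) : ℝ) := by
        calc 8 * ((k:ℝ) + 1) * ((k:ℝ)^(-(5/24) : ℝ) * (n:ℝ)^((5/48) : ℝ))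
            ≤ 16 * k * ((k:ℝ)^(-(5/24) : ℝ) * (n:ℝ)^((5/48) : ℝ)) :=
              mul_le_mul_of_nonneg_right h3 (by positivity)
          _ = 16 * ((k:ℝ) * (k:ℝ)^(-(5/24) : ℝ)) * (n:ℝ)^((5/48) : ℝ) := by ring
          _ ≤ 16 * (n:ℝ)^((19/24) : ℝ) * (n:ℝ)^((5/48) : ℝ) := by
              apply mul_le_mul_of_nonneg_right _ (by positivity)
              linarith
          _ = 16 * ((n:ℝ)^((19/24) : ℝ) * (n:ℝ)^((5/48) : ℝ)) := by ring
          _ = _ := by rw [h4]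
      linarith
    · rw [if_neg hkn, zero_add]
      have e : gg n k = (n:ℝ)^(-(5/48) : ℝ) := by
        unfold gg
        rw [min_eq_left (by omega), ← Real.rpow_add hn0]
        norm_num
      rw [e]
      apply mul_le_mul_of_nonneg_right _ (by positivity)
      linarith
  refine (Finset.sum_le_sum h1).trans ?_
  rw [Finset.sum_add_distrib, ← Finset.sum_filter, Finset.sum_const, Finset.sum_const,
    nsmul_eq_mul, nsmul_eq_mul, Nat.card_Icc]
  have h2 : (((Finset.Icc 1 (2 * R)).filter (fun k => k ≤ n)).card : ℝ) ≤ n := by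
    have : ((Finset.Icc 1 (2 * R)).filter (fun k => k ≤ n)).card ≤ (Finset.Icc 1 n).card := by
      apply Finset.card_le_card
      intro k hk
      obtain ⟨hk1, hk2⟩ := Finset.mem_filter.mp hk
      exact Finset.mem_Icc.mpr ⟨(Finset.mem_Icc.mp hk1).1, hk2⟩
    rw [Nat.card_Icc, Nat.add_sub_cancel] at this
    exact_mod_cast this
  have e3 : (n:ℝ) * (n:ℝ)^((43/48) : ℝ) = (n:ℝ)^((91/48) : ℝ) := by
    rw [show ((91/48) : ℝ) = 1 + 43/48 by norm_num, Real.rpow_add hn0, Real.rpow_one]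
  have e4 : (n:ℝ)^2 * (n:ℝ)^(-(5/48) : ℝ) = (n:ℝ)^((91/48) : ℝ) := by
    rw [← Real.rpow_natCast (n:ℝ) 2, ← Real.rpow_add hn0]
    norm_num
  have e5 : ((2 * R + 1 - 1 : ℕ) : ℝ) ≤ 2 * (j * n) := by
    rw [Nat.add_sub_cancel]
    push_cast
    linarith
  have hV : 0 < (n:ℝ)^((91/48) : ℝ) := by positivity
  have f1 : (((Finset.Icc 1 (2 * R)).filter (fun k => k ≤ n)).card : ℝ) *
      (16 * (n:ℝ)^((43/48) : ℝ)) ≤ 16 * (n:ℝ)^((91/48) : ℝ) := by
    calc (((Finset.Icc 1 (2 * R)).filter (fun k => k ≤ n)).card : ℝ) * (16 * (n:ℝ)^((43/48) : ℝ))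
        ≤ n * (16 * (n:ℝ)^((43/48) : ℝ)) := mul_le_mul_of_nonneg_right h2 (by positivity)
      _ = 16 * ((n:ℝ) * (n:ℝ)^((43/48) : ℝ)) := by ring
      _ = _ := by rw [e3]
  have f2 : ((2 * R + 1 - 1 : ℕ) : ℝ) * (16 * (2 * (j * n)) * (n:ℝ)^(-(5/48) : ℝ)) ≤
      64 * j^2 * (n:ℝ)^((91/48) : ℝ) := by
    calc ((2 * R + 1 - 1 : ℕ) : ℝ) * (16 * (2 * (j * n)) * (n:ℝ)^(-(5/48) : ℝ))
        ≤ 2 * (j * n) * (16 * (2 * (j * n)) * (n:ℝ)^(-(5/48) : ℝ)) :=
          mul_le_mul_of_nonneg_right e5 (by positivity)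
      _ = 64 * j^2 * ((n:ℝ)^2 * (n:ℝ)^(-(5/48) : ℝ)) := by ring
      _ = _ := by rw [e4]
  have f3 : 16 * (n:ℝ)^((91/48) : ℝ) ≤ 16 * j^2 * (n:ℝ)^((91/48) : ℝ) := by
    apply mul_le_mul_of_nonneg_right _ hV.le
    nlinarith
  nlinarith [mul_pos (by positivity : (0:ℝ) < j^2) hV]

/-- Double counting of the pairs (set, element). -/
theorem double_count (B : Finset Vtx) (m : ℕ) (f : Vtx → Finset Vtx → ℝ) :
    ∑ X ∈ B.powersetCard (m + 1), ∑ a ∈ X, f a (X.erase a) =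
      ∑ Z ∈ B.powersetCard m, ∑ a ∈ B \ Z, f a Z := by
  classical
  rw [Finset.sum_sigma', Finset.sum_sigma']
  refine Finset.sum_bij' (fun (q : (_ : Finset Vtx) × Vtx) _ => (⟨q.1.erase q.2, q.2⟩ :
      (_ : Finset Vtx) × Vtx))
    (fun (q : (_ : Finset Vtx) × Vtx) _ => (⟨insert q.2 q.1, q.2⟩ : (_ : Finset Vtx) × Vtx))
    ?_ ?_ ?_ ?_ ?_
  · rintro ⟨X, a⟩ h
    obtain ⟨h1, h2⟩ := Finset.mem_sigma.mp h
    obtain ⟨h3, h4⟩ := Finset.mem_powersetCard.mp h1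
    simp only at h1 h2 h3 h4
    refine Finset.mem_sigma.mpr ⟨Finset.mem_powersetCard.mpr ⟨?_, ?_⟩, ?_⟩
    · exact (Finset.erase_subset _ _).trans h3
    · simp only
      rw [Finset.card_erase_of_mem h2, h4, Nat.add_sub_cancel]
    · simp only
      rw [Finset.mem_sdiff]
      exact ⟨h3 h2, Finset.notMem_erase _ _⟩
  · rintro ⟨Z, a⟩ h
    obtain ⟨h1, h2⟩ := Finset.mem_sigma.mp h
    obtain ⟨h3, h4⟩ := Finset.mem_powersetCard.mp h1
    simp only at h1 h2 h3 h4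
    rw [Finset.mem_sdiff] at h2
    refine Finset.mem_sigma.mpr ⟨Finset.mem_powersetCard.mpr ⟨?_, ?_⟩, ?_⟩
    · exact Finset.insert_subset h2.1 h3
    · simp only
      rw [Finset.card_insert_of_notMem h2.2, h4]
    · exact Finset.mem_insert_self _ _
  · rintro ⟨X, a⟩ h
    obtain ⟨h1, h2⟩ := Finset.mem_sigma.mp h
    simp only at h2 ⊢
    rw [Finset.insert_erase h2]
  · rintro ⟨Z, a⟩ h
    obtain ⟨h1, h2⟩ := Finset.mem_sigma.mp h
    simp only at h2 ⊢
    rw [Finset.mem_sdiff] at h2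
    rw [Finset.erase_insert h2.2]
  · rintro ⟨X, a⟩ h
    rfl

theorem SW_succ {A : ℝ} (hA : 0 ≤ A) {n : ℕ} (hn : 1 ≤ n) {R : ℕ} {j : ℝ} (hj : 1 ≤ j)
    (hR : (R:ℝ) ≤ j * n) (m : ℕ) :
    SW A n R (m + 1) ≤ (A * 2^(m + 2) * ((m + 1) * (100 * j^2 * (n:ℝ)^((91/48) : ℝ)))) *
      SW A n R m := by
  classical
  obtain ⟨o, ho⟩ : ∃ o : Vtx, o = (0, 0) := ⟨_, rfl⟩
  have hoB : o ∉ bxz R := by rw [ho]; unfold bxz; exact Finset.notMem_erase _ _
  have hoV : o ∈ boxV R := by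
    rw [ho]
    unfold boxV
    simp
  -- pointwise: a closest pair
  have h1 : ∀ X ∈ (bxz R).powersetCard (m + 1), wt A n (insert o X) ≤
      ∑ a ∈ X, A * 2^(m + 2) * (∑ b ∈ insert o (X.erase a), gg n (dd a b)) *
        wt A n (insert o (X.erase a)) := by
    intro X hX
    obtain ⟨h3, h4⟩ := Finset.mem_powersetCard.mp hX
    have hoX : o ∉ X := fun h => hoB (h3 h)
    have hcard : (insert o X).card = m + 2 := by
      rw [Finset.card_insert_of_notMem hoX, h4]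
    have key : ∃ a ∈ X, ∃ b ∈ insert o X, a ≠ b ∧
        ∀ x ∈ insert o X, ∀ y ∈ insert o X, x ≠ y → dd a b ≤ dd x y := by
      obtain ⟨a, ha, b, hb, hab, hmin⟩ := exists_closest (X := insert o X) (by omega)
      by_cases hao : a = o
      · have hbo : b ≠ o := fun h => hab (hao.trans h.symm)
        refine ⟨b, (Finset.mem_insert.mp hb).resolve_left hbo, a, ha, hab.symm, ?_⟩
        intro x hx y hy hxy
        rw [dd_comm b a]
        exact hmin x hx y hy hxy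
      · exact ⟨a, (Finset.mem_insert.mp ha).resolve_left hao, b, hb, hab, hmin⟩
    obtain ⟨a, ha, b, hb, hab, hmin⟩ := key
    have h5 := wt_remove hA hn (X := insert o X) (Finset.mem_insert_of_mem ha) hb hab hmin
    have hao : o ≠ a := fun h => hoX (h ▸ ha)
    have e1 : (insert o X).erase a = insert o (X.erase a) := Finset.erase_insert_of_ne hao
    rw [e1, hcard] at h5
    refine h5.trans ?_
    have hb' : b ∈ insert o (X.erase a) := by
      rw [← e1]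
      exact Finset.mem_erase.mpr ⟨hab.symm, hb⟩
    have h6 : gg n (dd a b) ≤ ∑ b ∈ insert o (X.erase a), gg n (dd a b) :=
      Finset.single_le_sum (f := fun b => gg n (dd a b)) (fun b _ => gg_nonneg _ _) hb'
    have h7 : A * 2^(m + 2) * gg n (dd a b) * wt A n (insert o (X.erase a)) ≤
        A * 2^(m + 2) * (∑ b ∈ insert o (X.erase a), gg n (dd a b)) *
          wt A n (insert o (X.erase a)) := by
      apply mul_le_mul_of_nonneg_right _ (wt_nonneg hA _ _)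
      exact mul_le_mul_of_nonneg_left h6 (by positivity)
    refine h7.trans ?_
    exact Finset.single_le_sum (f := fun a => A * 2^(m + 2) *
      (∑ b ∈ insert o (X.erase a), gg n (dd a b)) * wt A n (insert o (X.erase a)))
      (fun a _ => mul_nonneg (mul_nonneg (by positivity)
        (Finset.sum_nonneg (fun b _ => gg_nonneg _ _))) (wt_nonneg hA _ _)) ha
  have h2 : SW A n R (m + 1) ≤ ∑ X ∈ (bxz R).powersetCard (m + 1),
      ∑ a ∈ X, A * 2^(m + 2) * (∑ b ∈ insert o (X.erase a), gg n (dd a b)) *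
        wt A n (insert o (X.erase a)) := by
    unfold SW
    rw [← ho]
    exact Finset.sum_le_sum h1
  rw [double_count (bxz R) m (fun a Z => A * 2^(m + 2) *
    (∑ b ∈ insert o Z, gg n (dd a b)) * wt A n (insert o Z))] at h2
  refine h2.trans ?_
  unfold SW
  rw [← ho, Finset.mul_sum]
  apply Finset.sum_le_sum
  intro Z hZ
  obtain ⟨h3, h4⟩ := Finset.mem_powersetCard.mp hZ
  have hoZ : o ∉ Z := fun h => hoB (h3 h)
  rw [← Finset.sum_mul, ← Finset.mul_sum]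
  apply mul_le_mul_of_nonneg_right _ (wt_nonneg hA _ _)
  apply mul_le_mul_of_nonneg_left _ (by positivity)
  rw [Finset.sum_comm]
  have h5 : ∀ b ∈ insert o Z, ∑ a ∈ bxz R \ Z, gg n (dd a b) ≤
      100 * j^2 * (n:ℝ)^((91/48) : ℝ) := by
    intro b hb
    refine (shell_sum (f := gg n) (gg_nonneg n) R (b := b) ?_ ?_ ?_).trans (gg_sum hn hj hR)
    · rcases Finset.mem_insert.mp hb with h | h
      · rw [h]; exact hoV
      · exact Finset.mem_of_mem_erase (h3 h)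
    · exact Finset.sdiff_subset.trans (Finset.erase_subset _ _)
    · rcases Finset.mem_insert.mp hb with h | h
      · rw [h]
        intro h'
        exact hoB (Finset.mem_sdiff.mp h').1
      · intro h'
        exact (Finset.mem_sdiff.mp h').2 h
  refine (Finset.sum_le_sum h5).trans ?_
  rw [Finset.sum_const, nsmul_eq_mul, Finset.card_insert_of_notMem hoZ, h4]
  push_cast
  exact le_rfl

/-- **Sums over sets of vertices.** -/
theorem SW_bound {A : ℝ} (hA : 0 < A) (m : ℕ) : ∃ D : ℝ, 0 < D ∧ ∀ (n R : ℕ) (j : ℝ), 1 ≤ n →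
    1 ≤ j → (R:ℝ) ≤ j * n →
    SW A n R m ≤ D * (j^2 * (n:ℝ)^((91/48) : ℝ))^m * (n:ℝ)^(-(5/48) : ℝ) := by
  induction m with
  | zero =>
    refine ⟨A, hA, ?_⟩
    intro n R j _ _ _
    rw [SW_zero, pow_zero, mul_one]
  | succ m ih =>
    obtain ⟨D, hD, h⟩ := ih
    refine ⟨A * 2^(m + 2) * ((m + 1) * 100) * D, by positivity, ?_⟩
    intro n R j hn hj hR
    have h1 := SW_succ hA.le hn hj hR m
    have h2 := h n R j hn hj hR
    refine h1.trans ((mul_le_mul_of_nonneg_left h2 (by positivity)).trans (le_of_eq ?_))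
    ring

end Pool.Agent.W2helper77.TP
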