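import Pool.Agent.W2helper77.TP.Multi
import Pool.Agent.Y244.PC.Loc

/-!
Probability that finitely many vertices belong to the cluster of the origin, and moments of the
number of vertices of the cluster in a box.
-/

set_option autoImplicit false
set_option maxHeartbeats 400000

namespace Pool.Agent.W2helper77.TP

open H974 H31K Finset MeasureTheory
open Pool.Agent.H160R2.CV (nv)
open Pool.Agent.H160R2.CV.Quad (LA bo LA_loc bo_disj)

/-- Half of the distance to the nearest other vertex. -/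
noncomputable def hr (n : ℕ) (Y : Finset Vtx) (x : Vtx) : ℕ := (nd n Y x - 1) / 2

theorem conn_arms {ω : sqLattice.edgeSet → Bool} {Y : Finset Vtx} {n : ℕ} (hn : 1 ≤ n)
    (hY : 1 < Y.card) (h : ∀ x ∈ Y, x ∈ cluster0 ω) {M : ℕ}
    (hM : ∀ x ∈ Y, bo x (hr n Y x) ⊆ boxE M) :
    ∀ x ∈ Y, LA x (hr n Y x) (FF (boxE M) ω) := by
  intro x hx
  obtain ⟨y, hy, hyx⟩ : ∃ y ∈ Y, y ≠ x := by
    obtain ⟨u, hu, v, hv, huv⟩ := Finset.one_lt_card.mp hY
    by_cases hux : u = x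
    · exact ⟨v, hv, fun h' => huv (hux.trans h'.symm)⟩
    · exact ⟨u, hu, hux⟩
  have h1 : Reach (opn ω) (0, 0) x := (open_reach ω _ _).mp (h x hx)
  have h2 : Reach (opn ω) (0, 0) y := (open_reach ω _ _).mp (h y hy)
  have h3 : Reach (opn ω) x y := h1.symm.trans h2
  have h4 : hr n Y x ≤ dd x y := by
    have h5 : nd n Y x ≤ dd x y := nd_le hy hyx
    unfold hr
    omega
  obtain ⟨m, hm⟩ : ∃ m : ℕ, m = hr n Y x := ⟨_, rfl⟩
  have h5 : bo x m ⊆ boxE M := by rw [hm]; exact hM x hx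
  rw [← hm] at h4 ⊢
  obtain ⟨w, k1, k2, k3⟩ := first_exit (a := x.1 - m) (b := x.1 + m) (c := x.2 - m)
    (d := x.2 + m) (u := x) (by unfold inR; omega) h3 (by
      unfold dd rad at h4
      simp only [Prod.fst_sub, Prod.snd_sub] at h4
      omega)
  refine ⟨w, k1, k2, k3.mono ?_⟩
  rw [FF_coe]
  rintro e ⟨he1, he2⟩
  exact ⟨⟨he1, h5 he2⟩, he2⟩

theorem disj_bo {Y : Finset Vtx} {n : ℕ} (hn : 1 ≤ n) {x y : Vtx} (hx : x ∈ Y) (hy : y ∈ Y)
    (hxy : x ≠ y) : Disjoint (bo x (hr n Y x)) (bo y (hr n Y y)) := by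
  apply bo_disj
  have h1 : nd n Y x ≤ dd x y := nd_le hy (Ne.symm hxy)
  have h2 : nd n Y y ≤ dd y x := nd_le hx hxy
  rw [dd_comm y x] at h2
  have h3 := nd_pos hn Y x
  have h4 := nd_pos hn Y y
  have h5 : nv (x - y) = dd x y := rfl
  rw [h5]
  unfold hr
  omega

theorem pr_LAp {q : ℝ} (h0 : 0 ≤ q) (h1 : q ≤ 1) (S : Finset Edg) (v : Vtx) (m : ℕ) :
    Pr (fun _ => q) S (LA v m) ≤ arm q m := by
  refine le_trans (Pr_mono (okq h0 h1) ?_) (arm_bound h0 h1 S v m)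
  rintro F _ ⟨w, -, k2, k3⟩
  exact ⟨w, by omega, k3.mono Set.inter_subset_left⟩

theorem arm_hr {p κ c C : ℝ} {n : ℕ} (W : WinA p κ c C n) (hn : 1 ≤ n) (Y : Finset Vtx)
    (x : Vtx) : arm p (hr n Y x) ≤ (6 * C + 2) * (nd n Y x : ℝ)^(-(5/48) : ℝ) := by
  have h0 : 0 ≤ p := by linarith [W.win.lo]
  have h1 : p ≤ 1 := by linarith [W.win.hi]
  have hC := W.Cpos
  obtain ⟨d, hd⟩ : ∃ d : ℕ, d = nd n Y x := ⟨_, rfl⟩
  have hd1 : 1 ≤ d := by rw [hd]; exact nd_pos hn Y x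
  have hdn : d ≤ n := by rw [hd]; exact nd_le_cap n Y x
  have hd0 : (0:ℝ) < d := by exact_mod_cast hd1
  unfold hr
  rw [← hd]
  have hdp : 0 < (d:ℝ)^(-(5/48) : ℝ) := by positivity
  rcases le_or_gt d 2 with h2 | h2
  · have e : (d - 1)/2 = 0 := by omega
    rw [e]
    have h3 := arm_le_one h0 h1 0
    have h4 := small_r (a := 5/48) (by norm_num) (by norm_num) hd1 h2
    have h5 : 0 ≤ 6 * C * (d:ℝ)^(-(5/48) : ℝ) := by positivity
    rw [add_mul]
    linarith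
  · have h3 : 1 ≤ (d - 1)/2 := by omega
    have h4 := W.upp ((d - 1)/2) h3 (by omega)
    have h5 := pow_scale (a := 5/48) (γ := 1/6) (by norm_num) (by norm_num) (by norm_num)
      (by norm_num) (r := (d : ℝ)) (m := (((d-1)/2 : ℕ) : ℝ)) hd0 (by
        have : d ≤ 6 * ((d-1)/2) := by omega
        have : (d:ℝ) ≤ 6 * (((d-1)/2 : ℕ) : ℝ) := by exact_mod_cast this
        linarith)
    have e : ((1:ℝ)/6)⁻¹ = 6 := by norm_num
    rw [e] at h5
    calc arm p ((d-1)/2) ≤ C * (((d-1)/2 : ℕ) : ℝ)^(-(5/48) : ℝ) := h4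
      _ ≤ C * (6 * (d:ℝ)^(-(5/48) : ℝ)) := mul_le_mul_of_nonneg_left h5 hC.le
      _ ≤ _ := by nlinarith

/-- **Connection probabilities of finite sets.** -/
theorem conn_le {p : unitInterval} {κ c C : ℝ} {n : ℕ} (W : WinA p κ c C n) (hn : 1 ≤ n)
    {Y : Finset Vtx} (hY : 1 < Y.card) :
    (bondLaw p).real {ω | ∀ x ∈ Y, x ∈ cluster0 ω} ≤ wt (6 * C + 2) n Y := by
  classical
  have h0 := p.2.1
  have h1 := p.2.2
  obtain ⟨M, hM⟩ : ∃ M : ℕ, M = Y.sup (fun x => nv x + hr n Y x) := ⟨_, rfl⟩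
  have hsub : ∀ x ∈ Y, bo x (hr n Y x) ⊆ boxE M := by
    intro x hx
    refine H362P.bo_sub.trans (boxE_mono ?_)
    rw [hM]
    exact Finset.le_sup (f := fun x => nv x + hr n Y x) hx
  have e1 : (bondLaw p).real {ω | ∀ x ∈ Y, x ∈ cluster0 ω} ≤
      (bondLaw p).real {ω | ∀ x ∈ Y, LA x (hr n Y x) (FF (boxE M) ω)} := by
    refine measureReal_mono ?_
    intro ω hω
    exact conn_arms hn hY hω hsub
  have e2 := law_event p (boxE M) (fun F => ∀ x ∈ Y, LA x (hr n Y x) F)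
  have e3 := Pool.Agent.Y244.PC.indep_prod (p := fun _ => (p:ℝ)) (U := boxE M) Y
    (fun x => LA x (hr n Y x)) (fun x => bo x (hr n Y x)) hsub
    (fun x hx y hy hxy => disj_bo hn hx hy hxy)
    (fun x _ F => LA_loc (Finset.Subset.refl _) F)
  rw [e2, e3] at e1
  refine e1.trans ?_
  unfold wt
  apply Finset.prod_le_prod
  · intro x _
    exact Pr_nonneg (okq h0 h1) _ _
  · intro x _
    exact (pr_LAp h0 h1 _ _ _).trans (arm_hr W hn Y x)

open Classical in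
/-- The number of vertices of the cluster of the origin in the box, the origin excepted. -/
noncomputable def NR (R : ℕ) (ω : sqLattice.edgeSet → Bool) : ℕ :=
  ((bxz R).filter (fun x => x ∈ cluster0 ω)).card

theorem origin_mem (ω : sqLattice.edgeSet → Bool) : ((0, 0) : Vtx) ∈ cluster0 ω :=
  (open_reach ω _ _).mpr (Reach.refl _ _)

theorem choose_eq (R m : ℕ) (ω : sqLattice.edgeSet → Bool) :
    (((NR R ω).choose m : ℕ) : ENNReal) = ∑ X ∈ (bxz R).powersetCard m,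
      Set.indicator {ω | ∀ x ∈ insert (0, 0) X, x ∈ cluster0 ω} (fun _ => (1 : ENNReal)) ω := by
  classical
  obtain ⟨Q, hQ⟩ : ∃ Q : Finset Vtx → Prop, Q = fun X => ∀ x ∈ insert (0, 0) X, x ∈ cluster0 ω :=
    ⟨_, rfl⟩
  have hQ' : ∀ X, Q X ↔ ∀ x ∈ insert (0, 0) X, x ∈ cluster0 ω := by intro X; rw [hQ]
  have h1 : (NR R ω).choose m = (((bxz R).powersetCard m).filter Q).card := by
    unfold NR
    rw [← Finset.card_powersetCard]
    congr 1
    ext X
    rw [Finset.mem_powersetCard, Finset.mem_filter, Finset.mem_powersetCard, hQ']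
    constructor
    · rintro ⟨h2, h3⟩
      refine ⟨⟨h2.trans (Finset.filter_subset _ _), h3⟩, ?_⟩
      intro x hx
      rcases Finset.mem_insert.mp hx with h4 | h4
      · rw [h4]; exact origin_mem ω
      · exact (Finset.mem_filter.mp (h2 h4)).2
    · rintro ⟨⟨h2, h3⟩, h4⟩
      exact ⟨fun x hx => Finset.mem_filter.mpr ⟨h2 hx, h4 x (Finset.mem_insert_of_mem hx)⟩, h3⟩
  rw [h1, Finset.card_filter, Nat.cast_sum]
  apply Finset.sum_congr rfl
  intro X _
  by_cases hX : Q X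
  · rw [if_pos hX, Set.indicator_of_mem (show ω ∈ {ω | ∀ x ∈ insert (0, 0) X, x ∈ cluster0 ω}
      from (hQ' X).mp hX)]
    norm_num
  · rw [if_neg hX, Set.indicator_of_notMem (show ω ∉ {ω | ∀ x ∈ insert (0, 0) X, x ∈ cluster0 ω}
      from fun h => hX ((hQ' X).mpr h))]
    norm_num

theorem meas_conn (Y : Finset Vtx) :
    MeasurableSet {ω : sqLattice.edgeSet → Bool | ∀ x ∈ Y, x ∈ cluster0 ω} := by
  have : {ω : sqLattice.edgeSet → Bool | ∀ x ∈ Y, x ∈ cluster0 ω} =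
      ⋂ x ∈ Y, {ω | x ∈ cluster0 ω} := by
    ext ω
    simp
  rw [this]
  exact Finset.measurableSet_biInter _ (fun x _ => t10_meas x)

theorem choose_int {p : unitInterval} {κ c C : ℝ} {n : ℕ} (W : WinA p κ c C n) (hn : 1 ≤ n)
    {m : ℕ} (hm : 1 ≤ m) (R : ℕ) :
    ∫⁻ ω, (((NR R ω).choose m : ℕ) : ENNReal) ∂(bondLaw p) ≤
      ENNReal.ofReal (SW (6 * C + 2) n R m) := by
  classical
  have hC := W.Cpos
  rw [lintegral_congr (choose_eq R m), lintegral_finsetSum]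
  · unfold SW
    rw [ENNReal.ofReal_sum_of_nonneg (fun X _ => wt_nonneg (by linarith) _ _)]
    apply Finset.sum_le_sum
    intro X hX
    obtain ⟨h3, h4⟩ := Finset.mem_powersetCard.mp hX
    have hoX : ((0, 0) : Vtx) ∉ X := fun h => (Finset.notMem_erase _ _) (h3 h)
    have hcard : 1 < (insert ((0, 0) : Vtx) X).card := by
      rw [Finset.card_insert_of_notMem hoX, h4]
      omega
    have h5 := conn_le W hn hcard
    have h6 : ∫⁻ ω, Set.indicator {ω | ∀ x ∈ insert ((0, 0) : Vtx) X, x ∈ cluster0 ω}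
        (fun _ => (1 : ENNReal)) ω ∂(bondLaw p) =
        (bondLaw p) {ω | ∀ x ∈ insert ((0, 0) : Vtx) X, x ∈ cluster0 ω} :=
      lintegral_indicator_one (meas_conn _)
    rw [h6, ← ENNReal.ofReal_toReal (measure_ne_top (bondLaw p) _)]
    exact ENNReal.ofReal_le_ofReal h5
  · intro X _
    exact measurable_one.indicator (meas_conn _)

theorem pow_le_choose (N m : ℕ) : (N + 1)^m ≤ (2 * m)^m + 2^m * m.factorial * N.choose m := by
  rcases lt_or_ge (N + 1) (2 * m) with h | h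
  · exact (Nat.pow_le_pow_left h.le m).trans (Nat.le_add_right _ _)
  · have h1 : (N + 1 - m)^m ≤ N.descFactorial m := Nat.pow_sub_le_descFactorial N m
    rw [Nat.descFactorial_eq_factorial_mul_choose] at h1
    have h2 : N + 1 ≤ 2 * (N + 1 - m) := by omega
    calc (N + 1)^m ≤ (2 * (N + 1 - m))^m := Nat.pow_le_pow_left h2 m
      _ = 2^m * (N + 1 - m)^m := mul_pow _ _ _
      _ ≤ 2^m * (m.factorial * N.choose m) := Nat.mul_le_mul_left _ h1
      _ = 2^m * m.factorial * N.choose m := by ring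
      _ ≤ _ := Nat.le_add_left _ _

/-- **Moments of the number of vertices of the cluster in a box.** -/
theorem mom_box {C : ℝ} (hC : 0 < C) {m : ℕ} (hm : 1 ≤ m) : ∃ D : ℝ, 0 < D ∧
    ∀ (p : unitInterval) (κ c : ℝ) (n R : ℕ) (j : ℝ), WinA p κ c C n → 1 ≤ n → 1 ≤ j →
      (R:ℝ) ≤ j * n →
      ∫⁻ ω, ((NR R ω + 1 : ℕ) : ENNReal)^m ∂(bondLaw p) ≤
        ENNReal.ofReal (D * (j^2 * (n:ℝ)^((91/48) : ℝ))^m * (n:ℝ)^(-(5/48) : ℝ)) := by
  obtain ⟨D, hD, hSW⟩ := SW_bound (A := 6 * C + 2) (by positivity) m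
  refine ⟨(2 * m)^m + 2^m * m.factorial * D, by positivity, ?_⟩
  intro p κ c n R j W hn hj hR
  have h1 := choose_int W hn hm R
  have h2 := hSW n R j hn hj hR
  have hn1 : (1:ℝ) ≤ n := by exact_mod_cast hn
  have hn0 : (0:ℝ) < n := by linarith
  have h3 : ∀ ω : sqLattice.edgeSet → Bool, ((NR R ω + 1 : ℕ) : ENNReal)^m ≤
      ((2 * m)^m : ℕ) + ((2^m * m.factorial : ℕ) : ENNReal) *
        (((NR R ω).choose m : ℕ) : ENNReal) := by
    intro ω
    have := pow_le_choose (NR R ω) m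
    exact_mod_cast this
  refine (lintegral_mono h3).trans ?_
  rw [lintegral_add_left measurable_const, lintegral_const, measure_univ, mul_one,
    lintegral_const_mul' _ _ (ENNReal.natCast_ne_top _)]
  have h4 : 1 ≤ (j^2 * (n:ℝ)^((91/48) : ℝ))^m * (n:ℝ)^(-(5/48) : ℝ) := by
    have e1 : 1 ≤ j^2 := one_le_pow₀ hj
    have e2 : 1 ≤ (n:ℝ)^((91/48) : ℝ) := Real.one_le_rpow hn1 (by norm_num)
    have e3 : 1 ≤ j^2 * (n:ℝ)^((91/48) : ℝ) := one_le_mul_of_one_le_of_one_le e1 e2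
    have e4 : (n:ℝ)^((91/48) : ℝ) ≤ (j^2 * (n:ℝ)^((91/48) : ℝ))^m := by
      calc (n:ℝ)^((91/48) : ℝ) ≤ j^2 * (n:ℝ)^((91/48) : ℝ) :=
            le_mul_of_one_le_left (by positivity) e1
        _ ≤ _ := le_self_pow₀ e3 (by omega)
    calc (1:ℝ) ≤ (n:ℝ)^((86/48) : ℝ) := Real.one_le_rpow hn1 (by norm_num)
      _ = (n:ℝ)^((91/48) : ℝ) * (n:ℝ)^(-(5/48) : ℝ) := by
          rw [← Real.rpow_add hn0]; norm_num
      _ ≤ _ := mul_le_mul_of_nonneg_right e4 (by positivity)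
  have h5 : (((2 * m)^m : ℕ) : ENNReal) = ENNReal.ofReal ((2 * m)^m) := by
    rw [← ENNReal.ofReal_natCast]; push_cast; rfl
  have h6 : ((2^m * m.factorial : ℕ) : ENNReal) = ENNReal.ofReal (2^m * m.factorial) := by
    rw [← ENNReal.ofReal_natCast]; push_cast; rfl
  calc (((2 * m)^m : ℕ) : ENNReal) + ((2^m * m.factorial : ℕ) : ENNReal) *
        ∫⁻ ω, (((NR R ω).choose m : ℕ) : ENNReal) ∂(bondLaw p)
      ≤ ENNReal.ofReal ((2 * m)^m) + ENNReal.ofReal (2^m * m.factorial) *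
        ENNReal.ofReal (D * (j^2 * (n:ℝ)^((91/48) : ℝ))^m * (n:ℝ)^(-(5/48) : ℝ)) := by
        rw [h5, h6]
        gcongr
        exact h1.trans (ENNReal.ofReal_le_ofReal h2)
    _ = ENNReal.ofReal ((2 * m)^m + (2^m * m.factorial) *
        (D * (j^2 * (n:ℝ)^((91/48) : ℝ))^m * (n:ℝ)^(-(5/48) : ℝ))) := by
        rw [← ENNReal.ofReal_mul (by positivity), ← ENNReal.ofReal_add (by positivity)
          (by positivity)]
    _ ≤ _ := by
        apply ENNReal.ofReal_le_ofReal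
        have h7 := mul_le_mul_of_nonneg_left h4 (show (0:ℝ) ≤ (2 * m)^m by positivity)
        nlinarith

end Pool.Agent.W2helper77.TP
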