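import Pool.Agent.W2helper77.TP.Low
import Pool.Agent.H31R3.Kes.Decay

/-!
Upper bounds for the truncated two-point function and for the truncated radius.
-/

set_option autoImplicit false
set_option maxHeartbeats 400000

namespace Pool.Agent.W2helper77.TP

open H974 H31K Finset MeasureTheory

/-- A connection to `x` gives arms at both ends. -/
theorem sub_arms {x1 x2 : ℤ} {m : ℕ} (hx : 2 * (m:ℤ) < |x1| ∨ 2 * (m:ℤ) < |x2|) {F : Finset Edg}
    (hF : TP (x1, x2) F) : Arm m F ∧ Arm m ((trl (-x1) (-x2)).mp F) := by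
  have hreach : Reach (↑F : Set Edg) (0, 0) (x1, x2) := hF
  have h0 : (0:ℤ) ≤ m := by positivity
  have h1 : x1 < -(2 * (m:ℤ)) ∨ 2 * (m:ℤ) < x1 ∨ x2 < -(2 * (m:ℤ)) ∨ 2 * (m:ℤ) < x2 := by
    rcases hx with h | h
    · rcases lt_abs.mp h with h | h
      · exact Or.inr (Or.inl h)
      · exact Or.inl (by omega)
    · rcases lt_abs.mp h with h | h
      · exact Or.inr (Or.inr (Or.inr h))
      · exact Or.inr (Or.inr (Or.inl (by omega)))
  constructor
  · obtain ⟨w, k1, k2, k3⟩ := first_exit (a := -m) (b := m) (c := -m) (d := m)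
      (by unfold inR; simp) hreach (by simp only; omega)
    exact ⟨w, ⟨k1, k2⟩, k3⟩
  · obtain ⟨w, k1, k2, k3⟩ := first_exit (a := x1 - m) (b := x1 + m) (c := x2 - m) (d := x2 + m)
      (u := (x1, x2)) (by unfold inR; simp only; omega) hreach.symm (by simp only; omega)
    obtain ⟨w1, w2⟩ := w
    have k4 := (trl (-x1) (-x2)).reach k3
    rw [trl_ψ, trl_ψ] at k4
    have e1 : x1 + -x1 = 0 := by ring
    have e2 : x2 + -x2 = 0 := by ring
    rw [e1, e2] at k4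
    unfold inR at k1
    simp only at k1 k2
    refine ⟨(w1 + -x1, w2 + -x2), ⟨?_, ?_⟩, k4.mono ?_⟩
    · unfold inR
      simp only
      omega
    · simp only
      omega
    · have e3 : boxE m = (trl (-x1) (-x2)).mp (RE (x1 - m) (x1 + m) (x2 - m) (x2 + m)) := by
        rw [trl_RE]; unfold boxE; congr 1 <;> ring
      rw [e3, LSym.coe_mp, LSym.coe_mp]
      rintro _ ⟨e, ⟨he1, he2⟩, rfl⟩
      exact ⟨⟨e, he1, rfl⟩, ⟨e, he2, rfl⟩⟩

theorem arm_of_reach {F : Finset Edg} {m : ℕ} {v : Vtx} (h : Reach (↑F : Set Edg) (0, 0) v)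
    (hv : v.1 ≤ -m ∨ (m:ℤ) ≤ v.1 ∨ v.2 ≤ -m ∨ (m:ℤ) ≤ v.2) : Arm m F := by
  obtain ⟨w, k1, k2, k3⟩ := first_exit (a := -m) (b := m) (c := -m) (d := m)
    (by unfold inR; simp) h hv
  exact ⟨w, ⟨k1, k2⟩, k3⟩

theorem pow2_add (J j : ℕ) : 2^J + j ≤ 2^(J + j) := by
  rw [pow_add]
  have h1 : 1 ≤ 2^J := Nat.one_le_two_pow
  have h2 : j < 2^j := Nat.lt_two_pow_self
  nlinarith

theorem eps_pow3 {p : ℝ} (h0 : 0 ≤ p) (h1 : p ≤ 1) {N : ℕ} (hN : 2 ≤ N)
    (he : eps p N ≤ 1/100) (J j : ℕ) :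
    eps p (2^j * (2^J * N)) ≤ 1/25 * (1/4)^(2^J) * (1/4)^j := by
  have h2 := eps_pow2 h0 h1 hN he (J + j)
  have e : 2^(J + j) * N = 2^j * (2^J * N) := by rw [pow_add]; ring
  rw [e] at h2
  have h3 : ((1:ℝ)/4)^(2^(J + j)) ≤ (1/4)^(2^J + j) :=
    pow_le_pow_of_le_one (by norm_num) (by norm_num) (pow2_add J j)
  rw [pow_add (1/4:ℝ) (2^J) j] at h3
  linarith

/-- All the crossings of the chain beyond scale `2^J N`. -/
theorem pr_steps2 {p : ℝ} (h0 : 0 ≤ p) (h1 : p ≤ 1) {N : ℕ} (hN : 2 ≤ N)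
    (he : eps p N ≤ 1/100) (J K : ℕ) {S : Finset Edg} (hS : boxE (2 * (2^K * (2^J * N))) ⊆ S) :
    1 - 4/75 * (1/4)^(2^J) * (1 - (1/4 : ℝ)^(K + 1)) ≤
      Pr (fun _ => p) S (fun F => ∀ j ≤ K, Step (2^J * N) j F) := by
  have ok := okq h0 h1
  induction K with
  | zero =>
    have e : Pr (fun _ => p) S (fun F => ∀ j ≤ 0, Step (2^J * N) j F) =
        Pr (fun _ => p) S (Step (2^J * N) 0) := by
      apply Pr_congr
      intro F _
      constructor
      · intro h; exact h 0 le_rfl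
      · intro h j hj
        have : j = 0 := by omega
        rw [this]; exact h
    rw [e, pr_step hS]
    have := eps_pow3 h0 h1 hN he J 0
    simp only [pow_zero, mul_one, one_mul, zero_add, pow_one] at this ⊢
    linarith
  | succ K ih =>
    have hle : 2 * (2^K * (2^J * N)) ≤ 2 * (2^(K+1) * (2^J * N)) := by
      rw [pow_succ]
      nlinarith [Nat.zero_le (2^K * (2^J * N))]
    have hS' : boxE (2 * (2^K * (2^J * N))) ⊆ S := (boxE_mono hle).trans hS
    have i1 := ih hS'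
    have i2 := Pr_and_ge ok S (fun F => ∀ j ≤ K, Step (2^J * N) j F) (Step (2^J * N) (K + 1))
    have i3 : Pr (fun _ => p) S (fun F => (∀ j ≤ K, Step (2^J * N) j F) ∧
        Step (2^J * N) (K + 1) F) =
        Pr (fun _ => p) S (fun F => ∀ j ≤ K + 1, Step (2^J * N) j F) := by
      apply Pr_congr
      intro F _
      constructor
      · rintro ⟨h, h'⟩ j hj
        rcases Nat.lt_or_ge j (K + 1) with hlt | hge
        · exact h j (by omega)
        · have : j = K + 1 := by omega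
          rw [this]; exact h'
      · intro h
        exact ⟨fun j hj => h j (by omega), h _ le_rfl⟩
    rw [pr_step hS, i3] at i2
    have h3 := eps_pow3 h0 h1 hN he J (K + 1)
    have h4 : (1/4:ℝ)^(K + 1 + 1) = (1/4)^(K+1) * (1/4) := pow_succ _ _
    rw [h4]
    nlinarith

theorem pr_chain {p : ℝ} (h0 : 0 ≤ p) (h1 : p ≤ 1) {N : ℕ} (hN : 2 ≤ N)
    (he : eps p N ≤ 1/100) (J K : ℕ) {S : Finset Edg} (hS : boxE (2 * (2^K * (2^J * N))) ⊆ S) :
    Pr (fun _ => p) S (fun F => ¬ (Circ ((2^J * N : ℕ):ℤ) ((2 * (2^J * N) : ℕ):ℤ) F ∧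
      ∀ j ≤ K, Step (2^J * N) j F)) ≤ (1/4)^(2^J) := by
  have ok := okq h0 h1
  have hle : 2^J * N ≤ 2^K * (2^J * N) := Nat.le_mul_of_pos_left _ (by positivity)
  have hN2 : 2 ≤ 2^J * N := le_trans hN (Nat.le_mul_of_pos_left _ (by positivity))
  have i1 := pr_circ_ge h0 h1 hN2 (S := S) ((boxE_mono (by omega)).trans hS)
  have i2 := pr_steps2 h0 h1 hN he J K hS
  have i3 := Pr_and_ge ok S (Circ ((2^J * N : ℕ):ℤ) ((2 * (2^J * N) : ℕ):ℤ))
    (fun F => ∀ j ≤ K, Step (2^J * N) j F)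
  have h3 := eps_pow3 h0 h1 hN he J 0
  simp only [pow_zero, mul_one, one_mul] at h3
  rw [Pr_not]
  have h5 : (0:ℝ) < (1/4)^(2^J) := by positivity
  have h6 : (0:ℝ) < (1/4)^(K + 1) := by positivity
  nlinarith [mul_pos h5 h6]

/-- The events of being connected to `x` without reaching a large distance. -/
theorem fin_union (x : Vtx) (M : ℕ → ℕ) (hM2 : ∀ k, k ≤ M k) :
    {ω : sqLattice.edgeSet → Bool | x ∈ cluster0 ω ∧ (cluster0 ω).Finite} ⊆
      ⋃ k : ℕ, {ω | TP x (FF (boxE (M k)) ω) ∧ ¬ Arm (M k) (FF (boxE (M k)) ω)} := by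
  rintro ω ⟨h1, h2⟩
  have h3 : ω ∈ ⋃ n : ℕ, {ω | TP x (FF (boxE n) ω)} := by
    rw [← t10_union]; exact h1
  obtain ⟨n1, hn1⟩ := Set.mem_iUnion.mp h3
  have h4 : ¬ (cluster0 ω).Infinite := Set.not_infinite.mpr h2
  rw [infinite_iff] at h4
  push Not at h4
  obtain ⟨n2, hn2⟩ := h4
  refine Set.mem_iUnion.mpr ⟨max n1 n2, ?_, ?_⟩
  · have h5 : Reach (↑(FF (boxE n1) ω) : Set Edg) (0, 0) x := hn1
    have h6 : Reach (↑(FF (boxE (M (max n1 n2))) ω) : Set Edg) (0, 0) x := by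
      refine h5.mono ?_
      rw [FF_coe, FF_coe]
      apply Set.inter_subset_inter_right
      exact_mod_cast boxE_mono ((le_max_left n1 n2).trans (hM2 _))
    exact h6
  · intro hA
    have h7 : ω ∈ ArmE (M (max n1 n2)) := hA
    exact hn2 (armE_anti ((le_max_right n1 n2).trans (hM2 _)) h7)

theorem meas_le_of_union {p : unitInterval} {A : Set (sqLattice.edgeSet → Bool)}
    {B : ℕ → Set (sqLattice.edgeSet → Bool)} (hB : Monotone B) (hAB : A ⊆ ⋃ k, B k) {t : ℝ}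
    (h : ∀ k, (bondLaw p).real (B k) ≤ t) : (bondLaw p).real A ≤ t := by
  have h1 : Filter.Tendsto (fun n => (bondLaw p) (B n)) Filter.atTop
      (nhds ((bondLaw p) (⋃ n, B n))) := tendsto_measure_iUnion_atTop hB
  have h2 : Filter.Tendsto (fun n => (bondLaw p).real (B n)) Filter.atTop
      (nhds ((bondLaw p).real (⋃ n, B n))) :=
    (ENNReal.tendsto_toReal (measure_ne_top _ _)).comp h1
  exact (measureReal_mono hAB).trans (le_of_tendsto' h2 h)

/-- Upper bound for the truncated two-point function when primal crossings are likely. -/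
theorem tf_up_super (p : unitInterval) {N : ℕ} (hN : 2 ≤ N) (he : eps p N ≤ 1/100) (J : ℕ)
    {x : Vtx} {r : ℕ} (hxr : r = max x.1.natAbs x.2.natAbs) (hr : 2 * (2^J * N) ≤ r)
    {m : ℕ} (hm : 2 * m < r) : tf p x ≤ (arm p m)^2 * (1/4)^(2^J) := by
  have h0 := p.2.1
  have h1 := p.2.2
  have ok := okq h0 h1
  obtain ⟨x1, x2⟩ := x
  simp only at hxr
  have hx1 : 2 * (m:ℤ) < |x1| ∨ 2 * (m:ℤ) < |x2| := by
    rw [Int.abs_eq_natAbs, Int.abs_eq_natAbs]
    have : r = x1.natAbs ∨ r = x2.natAbs := by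
      rcases max_choice x1.natAbs x2.natAbs with h | h
      · left; rw [hxr, h]
      · right; rw [hxr, h]
    rcases this with h | h
    · left; omega
    · right; omega
  obtain ⟨M0, hM0⟩ : ∃ M0 : ℕ, M0 = 2^J * N := ⟨_, rfl⟩
  have hM02 : 2 ≤ M0 := by
    rw [hM0]; exact le_trans hN (Nat.le_mul_of_pos_left _ (by positivity))
  obtain ⟨M, hM⟩ : ∃ M : ℕ → ℕ, M = fun k => 2 * (2^(k + r) * M0) := ⟨_, rfl⟩
  have hMmono : Monotone M := by
    intro a b hab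
    rw [hM]
    simp only
    have : 2^(a + r) ≤ 2^(b + r) := Nat.pow_le_pow_right (by norm_num) (by omega)
    nlinarith
  have hMk : ∀ k, k + 2 * r ≤ M k := by
    intro k
    rw [hM]
    simp only
    have h2 : k + r < 2^(k + r) := Nat.lt_two_pow_self
    nlinarith
  refine meas_le_of_union (B := fun k => {ω | TP (x1, x2) (FF (boxE (M k)) ω) ∧
    ¬ Arm (M k) (FF (boxE (M k)) ω)}) ?_
    (fin_union (x1, x2) M (fun k => by have := hMk k; omega)) ?_
  · intro a b hab ω hω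
    refine ⟨?_, ?_⟩
    · have h5 : Reach (↑(FF (boxE (M a)) ω) : Set Edg) (0, 0) (x1, x2) := hω.1
      have h6 : Reach (↑(FF (boxE (M b)) ω) : Set Edg) (0, 0) (x1, x2) := by
        refine h5.mono ?_
        rw [FF_coe, FF_coe]
        apply Set.inter_subset_inter_right
        exact_mod_cast boxE_mono (hMmono hab)
      exact h6
    · intro hA
      have h7 : ω ∈ ArmE (M b) := hA
      exact hω.2 (armE_anti (hMmono hab) h7)
  · intro k
    rw [law_event p (boxE (M k)) (fun F => TP (x1, x2) F ∧ ¬ Arm (M k) F)]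
    have hk := hMk k
    have hMke : M k = 2 * (2^(k + r) * (2^J * N)) := by rw [hM, hM0]
    have hA : boxE m ⊆ boxE (M k) := boxE_mono (by omega)
    have hB : RE (x1 - m) (x1 + m) (x2 - m) (x2 + m) ⊆ boxE (M k) := by
      unfold boxE
      apply RE_subset <;> omega
    have i1 : Pr (fun _ => (p:ℝ)) (boxE (M k)) (fun F => TP (x1, x2) F ∧ ¬ Arm (M k) F) ≤
        Pr (fun _ => (p:ℝ)) (boxE (M k)) (fun F =>
          (Arm m F ∧ Arm m ((trl (-x1) (-x2)).mp F)) ∧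
          ¬ (Circ ((2^J * N : ℕ):ℤ) ((2 * (2^J * N) : ℕ):ℤ) F ∧
            ∀ j ≤ k + r, Step (2^J * N) j F)) := by
      apply Pr_mono ok
      rintro F - ⟨k1, k2⟩
      refine ⟨sub_arms hx1 k1, ?_⟩
      rintro ⟨k3, k4⟩
      apply k2
      rw [hMke]
      have hA2 : Arm (2 * (2^J * N)) F := by
        apply arm_of_reach k1
        simp only
        omega
      exact arm_of_chain (by rw [← hM0]; exact hM02) (k + r) hA2 k3 k4
    refine i1.trans ?_
    have i2 := Pr_harris_decr ok (S := boxE (M k))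
      (A := fun F => Arm m F ∧ Arm m ((trl (-x1) (-x2)).mp F))
      (B := fun F => ¬ (Circ ((2^J * N : ℕ):ℤ) ((2 * (2^J * N) : ℕ):ℤ) F ∧
            ∀ j ≤ k + r, Step (2^J * N) j F))
      (fun F G h _ hF => ⟨hF.1.mono h, hF.2.mono (LSym.mp_mono _ h)⟩)
      (by
        intro F G h _ hF
        rw [not_not] at hF ⊢
        exact ⟨hF.1.mono h, fun j hj => (hF.2 j hj).mono h⟩)
    refine i2.trans ?_
    rw [t10_indep (p:ℝ) hx1 hA hB, ← sq]
    apply mul_le_mul_of_nonneg_left _ (sq_nonneg _)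
    exact pr_chain h0 h1 hN he J (k + r) (by rw [hMke])

/-- Upper bound for the truncated radius when primal crossings are likely. -/
theorem rf_up_super (p : unitInterval) {N : ℕ} (hN : 2 ≤ N) (he : eps p N ≤ 1/100) (J : ℕ)
    {r : ℕ} (hr : 2 * (2^J * N) ≤ r) {m : ℕ} (hm : m ≤ r) :
    rf p r ≤ arm p m * (1/4)^(2^J) := by
  have h0 := p.2.1
  have h1 := p.2.2
  have ok := okq h0 h1
  obtain ⟨M0, hM0⟩ : ∃ M0 : ℕ, M0 = 2^J * N := ⟨_, rfl⟩
  have hM02 : 2 ≤ M0 := by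
    rw [hM0]; exact le_trans hN (Nat.le_mul_of_pos_left _ (by positivity))
  obtain ⟨M, hM⟩ : ∃ M : ℕ → ℕ, M = fun k => 2 * (2^(k + r) * M0) := ⟨_, rfl⟩
  have hMmono : Monotone M := by
    intro a b hab
    rw [hM]
    simp only
    have : 2^(a + r) ≤ 2^(b + r) := Nat.pow_le_pow_right (by norm_num) (by omega)
    nlinarith
  have hMk : ∀ k, k + 2 * r ≤ M k := by
    intro k
    rw [hM]
    simp only
    have h2 : k + r < 2^(k + r) := Nat.lt_two_pow_self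
    nlinarith
  refine meas_le_of_union (B := fun k => {ω | Arm r (FF (boxE (M k)) ω) ∧
    ¬ Arm (M k) (FF (boxE (M k)) ω)}) ?_ ?_ ?_
  · intro a b hab ω hω
    refine ⟨?_, ?_⟩
    · refine hω.1.mono ?_
      intro e he
      rw [mem_FF] at he ⊢
      exact ⟨boxE_mono (hMmono hab) he.1, he.2⟩
    · intro hA
      have h7 : ω ∈ ArmE (M b) := hA
      exact hω.2 (armE_anti (hMmono hab) h7)
  · rintro ω ⟨h2, h3⟩
    have h4 : ¬ (cluster0 ω).Infinite := Set.not_infinite.mpr h3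
    rw [infinite_iff] at h4
    push Not at h4
    obtain ⟨n2, hn2⟩ := h4
    refine Set.mem_iUnion.mpr ⟨n2, ?_, ?_⟩
    · have h5 : Arm r (FF (boxE r) ω) := h2
      refine h5.mono ?_
      intro e he
      rw [mem_FF] at he ⊢
      have := hMk n2
      exact ⟨boxE_mono (by omega) he.1, he.2⟩
    · intro hA
      have h7 : ω ∈ ArmE (M n2) := hA
      have := hMk n2
      exact hn2 (armE_anti (by omega) h7)
  · intro k
    rw [law_event p (boxE (M k)) (fun F => Arm r F ∧ ¬ Arm (M k) F)]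
    have hk := hMk k
    have hMke : M k = 2 * (2^(k + r) * (2^J * N)) := by rw [hM, hM0]
    have hA : boxE m ⊆ boxE (M k) := boxE_mono (by omega)
    have i1 : Pr (fun _ => (p:ℝ)) (boxE (M k)) (fun F => Arm r F ∧ ¬ Arm (M k) F) ≤
        Pr (fun _ => (p:ℝ)) (boxE (M k)) (fun F => Arm m F ∧
          ¬ (Circ ((2^J * N : ℕ):ℤ) ((2 * (2^J * N) : ℕ):ℤ) F ∧
            ∀ j ≤ k + r, Step (2^J * N) j F)) := by
      apply Pr_mono ok
      rintro F - ⟨⟨v, hv, hvr⟩, k2⟩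
      have hvr' : Reach (↑F : Set Edg) (0, 0) v := hvr.mono Set.inter_subset_left
      unfold onB inR at hv
      refine ⟨arm_of_reach hvr' (by omega), ?_⟩
      rintro ⟨k3, k4⟩
      apply k2
      rw [hMke]
      have hA2 : Arm (2 * (2^J * N)) F := arm_of_reach hvr' (by omega)
      exact arm_of_chain (by rw [← hM0]; exact hM02) (k + r) hA2 k3 k4
    refine i1.trans ?_
    have i2 := Pr_harris_decr ok (S := boxE (M k))
      (A := Arm m)
      (B := fun F => ¬ (Circ ((2^J * N : ℕ):ℤ) ((2 * (2^J * N) : ℕ):ℤ) F ∧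
            ∀ j ≤ k + r, Step (2^J * N) j F))
      (Arm_incr _ _)
      (by
        intro F G h _ hF
        rw [not_not] at hF ⊢
        exact ⟨hF.1.mono h, fun j hj => (hF.2 j hj).mono h⟩)
    refine i2.trans ?_
    rw [pr_Arm (p:ℝ) hA]
    apply mul_le_mul_of_nonneg_left _ (arm_nonneg h0 h1 _)
    exact pr_chain h0 h1 hN he J (k + r) (by rw [hMke])

/-- Failure of the block event beyond scale `2^J N`. -/
theorem pr_not_Blk2 {p : ℝ} (h0 : 0 ≤ p) (h1 : p ≤ 1) {N : ℕ} (hN : 2 ≤ N)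
    (he : eps (1 - p) N ≤ 1/100) (J : ℕ) {M : ℕ} (hM : M = 2^J * N) {S : Finset Edg}
    (hS : RE (-(2 * (M:ℤ) - 1)) (2 * (M:ℤ) - 1) (-(2 * (M:ℤ) - 1)) (2 * (M:ℤ) - 1) ⊆ S) :
    Pr (fun _ => p) S (fun F => ¬ Blk ((M:ℤ) - 1) (2 * (M:ℤ) - 1) F) ≤ (1/4)^(2^J) := by
  have hM2 : 2 ≤ M := by
    rw [hM]; exact le_trans hN (Nat.le_mul_of_pos_left _ (by positivity))
  have h2 := pr_not_Blk h0 h1 hM2 hS
  have h3 := eps_pow3 (p := 1 - p) (by linarith) (by linarith) hN he J 0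
  simp only [pow_zero, mul_one, one_mul] at h3
  rw [← hM] at h3
  have h5 : (0:ℝ) < (1/4)^(2^J) := by positivity
  linarith

/-- Upper bound for the two-point function when dual crossings are likely. -/
theorem tf_up_sub (p : unitInterval) {N : ℕ} (hN : 2 ≤ N) (he : eps (1 - (p:ℝ)) N ≤ 1/100) (J : ℕ)
    {x : Vtx} {r : ℕ} (hxr : r = max x.1.natAbs x.2.natAbs) (hr : 4 * (2^J * N) ≤ r)
    {m : ℕ} (hm : m + 1 ≤ 2^J * N) : tf p x ≤ (arm p m)^2 * (1/4)^(2^J) := by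
  have h0 := p.2.1
  have h1 := p.2.2
  have ok := okq h0 h1
  obtain ⟨x1, x2⟩ := x
  simp only at hxr
  obtain ⟨M, hM⟩ : ∃ M : ℕ, M = 2^J * N := ⟨_, rfl⟩
  rw [← hM] at hr hm
  have hM02 : 2 ≤ M := by
    rw [hM]; exact le_trans hN (Nat.le_mul_of_pos_left _ (by positivity))
  have hx0 : r = x1.natAbs ∨ r = x2.natAbs := by
    rcases max_choice x1.natAbs x2.natAbs with h | h
    · left; rw [hxr, h]
    · right; rw [hxr, h]
  have hx1 : 2 * (m:ℤ) < |x1| ∨ 2 * (m:ℤ) < |x2| := by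
    rw [Int.abs_eq_natAbs, Int.abs_eq_natAbs]
    rcases hx0 with h | h
    · left; omega
    · right; omega
  obtain ⟨S, hS⟩ : ∃ S : Finset Edg, S = boxE (2 * r) := ⟨_, rfl⟩
  have hA : boxE m ⊆ S := by rw [hS]; exact boxE_mono (by omega)
  have hB : RE (x1 - m) (x1 + m) (x2 - m) (x2 + m) ⊆ S := by
    rw [hS]
    unfold boxE
    apply RE_subset <;> omega
  have hR : RE (-(2 * (M:ℤ) - 1)) (2 * (M:ℤ) - 1) (-(2 * (M:ℤ) - 1)) (2 * (M:ℤ) - 1) ⊆ S := by
    rw [hS]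
    unfold boxE
    apply RE_subset <;> omega
  have g1 : tf p (x1, x2) ≤ Pr (fun _ => (p:ℝ)) S (fun F =>
      (Arm m F ∧ Arm m ((trl (-x1) (-x2)).mp F)) ∧ ¬ Blk ((M:ℤ) - 1) (2 * (M:ℤ) - 1) F) := by
    rw [← law_event p S]
    unfold tf
    refine measureReal_mono ?_
    rintro ω ⟨hω, -⟩
    refine ⟨t10_sub hx1 hA hB hω, ?_⟩
    have hreach := t10_reach hω
    obtain ⟨w, k1, k2, k3⟩ := first_exit (a := -(2 * (M:ℤ) - 1)) (b := 2 * (M:ℤ) - 1)
      (c := -(2 * (M:ℤ) - 1)) (d := 2 * (M:ℤ) - 1) (by unfold inR; simp only; omega) hreach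
      (by simp only; omega)
    refine not_blk_of_arm (by omega) (by omega) (v := w) ?_ (by omega)
    refine k3.mono ?_
    rw [FF_coe]
    rintro e ⟨he1, he2⟩
    exact ⟨he1, hR he2⟩
  refine g1.trans ?_
  -- locality
  have l1 : ∀ F : Finset Edg, F ⊆ S → ((Arm m F ∧ Arm m ((trl (-x1) (-x2)).mp F)) ↔
      (Arm m (F ∩ (boxE m ∪ RE (x1 - m) (x1 + m) (x2 - m) (x2 + m))) ∧
        Arm m ((trl (-x1) (-x2)).mp (F ∩ (boxE m ∪ RE (x1 - m) (x1 + m) (x2 - m) (x2 + m)))))) := by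
    intro F _
    have e3 : boxE m ⊆ (trl (-x1) (-x2)).mp (boxE m ∪ RE (x1 - m) (x1 + m) (x2 - m) (x2 + m)) := by
      have : boxE m = (trl (-x1) (-x2)).mp (RE (x1 - m) (x1 + m) (x2 - m) (x2 + m)) := by
        rw [trl_RE]; unfold boxE; congr 1 <;> ring
      rw [this]
      apply LSym.mp_mono
      rw [← this]
      exact Finset.subset_union_right
    rw [LSym.mp_inter]
    exact and_congr (Arm_local Finset.subset_union_left) (Arm_local e3)
  have l2 : ∀ F : Finset Edg, F ⊆ S → ((¬ Blk ((M:ℤ) - 1) (2 * (M:ℤ) - 1) F) ↔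
      (¬ Blk ((M:ℤ) - 1) (2 * (M:ℤ) - 1)
        (F ∩ (RE (-(2 * (M:ℤ) - 1)) (2 * (M:ℤ) - 1) (-(2 * (M:ℤ) - 1)) (2 * (M:ℤ) - 1) \
          boxE m)))) := by
    intro F _
    exact not_congr (blk_local' (by omega) (by omega) (by omega) (Finset.Subset.refl _) F)
  have hd : Disjoint (boxE m ∪ RE (x1 - m) (x1 + m) (x2 - m) (x2 + m))
      (RE (-(2 * (M:ℤ) - 1)) (2 * (M:ℤ) - 1) (-(2 * (M:ℤ) - 1)) (2 * (M:ℤ) - 1) \ boxE m) := by
    rw [Finset.disjoint_left]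
    intro e he1 he2
    rw [Finset.mem_sdiff] at he2
    rcases Finset.mem_union.mp he1 with h | h
    · exact he2.2 h
    · have h3 := he2.1
      obtain ⟨u, v, _ | _⟩ := e
      · simp only [mem_RE_false] at h h3; omega
      · simp only [mem_RE_true] at h h3; omega
  have i1 := Pr_indep (p := fun _ => (p:ℝ)) (U := S)
    (S := boxE m ∪ RE (x1 - m) (x1 + m) (x2 - m) (x2 + m))
    (T := RE (-(2 * (M:ℤ) - 1)) (2 * (M:ℤ) - 1) (-(2 * (M:ℤ) - 1)) (2 * (M:ℤ) - 1) \ boxE m)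
    (Finset.union_subset hA hB) (Finset.sdiff_subset.trans hR) hd
    (A := fun F => Arm m F ∧ Arm m ((trl (-x1) (-x2)).mp F))
    (B := fun F => ¬ Blk ((M:ℤ) - 1) (2 * (M:ℤ) - 1) F) l1 l2
  rw [i1, t10_indep (p:ℝ) hx1 hA hB, ← sq]
  apply mul_le_mul_of_nonneg_left _ (sq_nonneg _)
  exact pr_not_Blk2 h0 h1 hN he J hM hR

/-- Upper bound for the radius when dual crossings are likely. -/
theorem rf_up_sub (p : unitInterval) {N : ℕ} (hN : 2 ≤ N) (he : eps (1 - (p:ℝ)) N ≤ 1/100) (J : ℕ)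
    {r : ℕ} (hr : 2 * (2^J * N) ≤ r) {m : ℕ} (hm : m + 1 ≤ 2^J * N) :
    rf p r ≤ arm p m * (1/4)^(2^J) := by
  have h0 := p.2.1
  have h1 := p.2.2
  have ok := okq h0 h1
  obtain ⟨M, hM⟩ : ∃ M : ℕ, M = 2^J * N := ⟨_, rfl⟩
  rw [← hM] at hr hm
  have hM02 : 2 ≤ M := by
    rw [hM]; exact le_trans hN (Nat.le_mul_of_pos_left _ (by positivity))
  obtain ⟨S, hS⟩ : ∃ S : Finset Edg, S = boxE (2 * r) := ⟨_, rfl⟩
  have hA : boxE m ⊆ S := by rw [hS]; exact boxE_mono (by omega)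
  have hR : RE (-(2 * (M:ℤ) - 1)) (2 * (M:ℤ) - 1) (-(2 * (M:ℤ) - 1)) (2 * (M:ℤ) - 1) ⊆ S := by
    rw [hS]
    unfold boxE
    apply RE_subset <;> omega
  have g1 : rf p r ≤ Pr (fun _ => (p:ℝ)) S (fun F =>
      Arm m F ∧ ¬ Blk ((M:ℤ) - 1) (2 * (M:ℤ) - 1) F) := by
    rw [← law_event p S]
    unfold rf
    refine measureReal_mono ?_
    rintro ω ⟨hω, -⟩
    obtain ⟨v, hv, hvr⟩ := armE_iff.mp hω
    have hvr' : Reach (↑(FF S ω) : Set Edg) (0, 0) v := by
      refine hvr.mono ?_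
      rw [FF_coe, hS]
      rintro e ⟨he1, he2⟩
      exact ⟨he1, boxE_mono (by omega) he2⟩
    unfold onB inR at hv
    exact ⟨arm_of_reach hvr' (by omega), not_blk_of_arm (by omega) (by omega) hvr' (by omega)⟩
  refine g1.trans ?_
  have l2 : ∀ F : Finset Edg, F ⊆ S → ((¬ Blk ((M:ℤ) - 1) (2 * (M:ℤ) - 1) F) ↔
      (¬ Blk ((M:ℤ) - 1) (2 * (M:ℤ) - 1)
        (F ∩ (RE (-(2 * (M:ℤ) - 1)) (2 * (M:ℤ) - 1) (-(2 * (M:ℤ) - 1)) (2 * (M:ℤ) - 1) \
          boxE m)))) := by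
    intro F _
    exact not_congr (blk_local' (by omega) (by omega) (by omega) (Finset.Subset.refl _) F)
  have i1 := Pr_indep (p := fun _ => (p:ℝ)) (U := S)
    (S := boxE m)
    (T := RE (-(2 * (M:ℤ) - 1)) (2 * (M:ℤ) - 1) (-(2 * (M:ℤ) - 1)) (2 * (M:ℤ) - 1) \ boxE m)
    hA (Finset.sdiff_subset.trans hR) Finset.disjoint_sdiff
    (A := Arm m) (B := fun F => ¬ Blk ((M:ℤ) - 1) (2 * (M:ℤ) - 1) F)
    (fun F _ => Arm_local (Finset.Subset.refl _)) l2
  rw [i1, pr_Arm (p:ℝ) hA]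
  apply mul_le_mul_of_nonneg_left _ (arm_nonneg h0 h1 _)
  exact pr_not_Blk2 h0 h1 hN he J hM hR

end Pool.Agent.W2helper77.TP
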