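import Pool.Agent.W2helper77.TP.MultiP

/-!
Moments and distribution of the size of the finite clusters: upper bounds.
-/

set_option autoImplicit false
set_option maxHeartbeats 400000

namespace Pool.Agent.W2helper77.TP

open H974 H31K Finset MeasureTheory

/-- The moment of order `m` of the size of the cluster of the origin, when this is finite. -/
noncomputable def vmom (m : ℕ) (p : unitInterval) : ENNReal :=
  ∫⁻ ω in {ω | (cluster0 ω).Finite}, ((cluster0 ω).encard : ENNReal)^m ∂(bondLaw p)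

/-- The probability that the cluster of the origin is finite and has at least `N` vertices. -/
noncomputable def vt (p : unitInterval) (N : ℕ) : ℝ :=
  (bondLaw p).real {ω | (N : ENat) ≤ (cluster0 ω).encard ∧ (cluster0 ω).Finite}

/-- The cluster is finite and reaches distance `r`. -/
def RE0 (r : ℕ) : Set (sqLattice.edgeSet → Bool) :=
  {ω | (∃ x ∈ cluster0 ω, r ≤ rad x) ∧ (cluster0 ω).Finite}

theorem rf_RE0 (p : unitInterval) (r : ℕ) : rf p r = (bondLaw p).real (RE0 r) := rf_eq p r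

theorem RE0_eq (r : ℕ) : RE0 r = {ω | ω ∈ ArmE r ∧ (cluster0 ω).Finite} := by
  ext ω
  unfold RE0
  constructor
  · rintro ⟨⟨x, hx, hn⟩, hf⟩
    refine ⟨?_, hf⟩
    rw [armE_iff]
    have hr : Reach (opn ω) (0, 0) x := (open_reach ω _ _).mp hx
    unfold rad at hn
    obtain ⟨w, k1, k2, k3⟩ := first_exit (a := -(r:ℤ)) (b := r) (c := -(r:ℤ)) (d := r)
      (by unfold inR; simp) hr (by omega)
    exact ⟨w, ⟨k1, k2⟩, k3⟩
  · rintro ⟨hA, hf⟩
    refine ⟨?_, hf⟩
    obtain ⟨v, hv, hr⟩ := armE_iff.mp hA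
    refine ⟨v, (open_reach ω _ _).mpr (hr.mono Set.inter_subset_left), ?_⟩
    unfold onB inR at hv
    unfold rad
    omega

theorem meas_RE0 (r : ℕ) : MeasurableSet (RE0 r) := by
  rw [RE0_eq]
  exact (meas_event (boxE r) (Arm r)).inter meas_fin

theorem meas_NR (R : ℕ) : Measurable (NR R) := by
  classical
  have h : NR R = fun ω => ∑ x ∈ bxz R, Set.indicator {ω | x ∈ cluster0 ω} (fun _ => (1:ℕ)) ω := by
    funext ω
    unfold NR
    rw [Finset.card_filter]
    apply Finset.sum_congr rfl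
    intro x _
    rw [Set.indicator_apply]
    rfl
  rw [h]
  apply Finset.measurable_sum
  intro x _
  exact measurable_const.indicator (t10_meas x)

theorem mem_boxV_iff {R : ℕ} {x : Vtx} : x ∈ boxV R ↔ rad x ≤ R := by
  unfold boxV rad
  rw [Finset.mem_product, Finset.mem_Icc, Finset.mem_Icc]
  omega

theorem filter_boxV (R : ℕ) (ω : sqLattice.edgeSet → Bool) :
    (cluster0 ω ∩ ↑(boxV R)).encard = ((NR R ω + 1 : ℕ) : ENat) := by
  classical
  have h : cluster0 ω ∩ ↑(boxV R) =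
      ↑(insert ((0, 0) : Vtx) ((bxz R).filter (fun x => x ∈ cluster0 ω))) := by
    ext x
    rw [Finset.mem_coe, Finset.mem_insert, Finset.mem_filter, Set.mem_inter_iff, Finset.mem_coe]
    unfold bxz
    rw [Finset.mem_erase]
    constructor
    · rintro ⟨h1, h2⟩
      by_cases hx : x = (0, 0)
      · exact Or.inl hx
      · exact Or.inr ⟨⟨hx, h2⟩, h1⟩
    · rintro (h1 | ⟨⟨-, h2⟩, h1⟩)
      · rw [h1]
        refine ⟨origin_mem ω, ?_⟩
        rw [mem_boxV_iff]
        simp [rad]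
      · exact ⟨h1, h2⟩
  rw [h, Set.encard_coe_eq_coe_finsetCard, Finset.card_insert_of_notMem]
  · rfl
  · intro h1
    exact Finset.notMem_erase _ _ (Finset.mem_filter.mp h1).1

theorem le_encard (R : ℕ) (ω : sqLattice.edgeSet → Bool) :
    ((NR R ω + 1 : ℕ) : ENat) ≤ (cluster0 ω).encard := by
  rw [← filter_boxV]
  exact Set.encard_le_encard Set.inter_subset_left

theorem encard_eq {R : ℕ} {ω : sqLattice.edgeSet → Bool} (h : cluster0 ω ⊆ ↑(boxV R)) :
    (cluster0 ω).encard = ((NR R ω + 1 : ℕ) : ENat) := by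
  rw [← filter_boxV, Set.inter_eq_left.mpr h]

theorem sub_box {R : ℕ} {ω : sqLattice.edgeSet → Bool} (hf : (cluster0 ω).Finite)
    (h : ω ∉ RE0 (R + 1)) : cluster0 ω ⊆ ↑(boxV R) := by
  intro x hx
  rw [Finset.mem_coe, mem_boxV_iff]
  by_contra hcon
  exact h ⟨⟨x, hx, by omega⟩, hf⟩

/-- The elementary inequality of Cauchy-Schwarz type. -/
theorem young (l : ℝ) (hl : 0 < l) (z m : ℕ) :
    ((z:ℕ) : ENNReal)^m ≤ ENNReal.ofReal l * ((z:ℕ) : ENNReal)^(2 * m) + ENNReal.ofReal l⁻¹ := by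
  have e : ∀ k : ℕ, ((z:ℕ) : ENNReal)^k = ENNReal.ofReal ((z:ℝ)^k) := by
    intro k
    rw [ENNReal.ofReal_pow (Nat.cast_nonneg _), ENNReal.ofReal_natCast]
  rw [e, e, ← ENNReal.ofReal_mul hl.le, ← ENNReal.ofReal_add (by positivity) (by positivity)]
  apply ENNReal.ofReal_le_ofReal
  obtain ⟨a, ha⟩ : ∃ a : ℝ, a = (z:ℝ)^m := ⟨_, rfl⟩
  have e2 : (z:ℝ)^(2 * m) = a^2 := by rw [ha, ← pow_mul]; ring
  rw [e2, ← ha]
  have h1 : l * l⁻¹ = 1 := mul_inv_cancel₀ hl.ne'
  have h2 : 0 < l⁻¹ := inv_pos.mpr hl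
  have h3 : l⁻¹ * (l * a - 1)^2 ≥ 0 := by positivity
  have h4 : l⁻¹ * (l * a - 1)^2 = l * a^2 - 2 * a + l⁻¹ := by
    field_simp
    ring
  have h5 : 0 ≤ a := by rw [ha]; positivity
  nlinarith

/-- Moments on the event that the cluster reaches a large distance. -/
theorem mom_far (p : unitInterval) (R m r : ℕ) {l : ℝ} (hl : 0 < l) :
    ∫⁻ ω in RE0 r, ((NR R ω + 1 : ℕ) : ENNReal)^m ∂(bondLaw p) ≤
      ENNReal.ofReal l * ∫⁻ ω, ((NR R ω + 1 : ℕ) : ENNReal)^(2 * m) ∂(bondLaw p) +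
        ENNReal.ofReal (l⁻¹ * rf p r) := by
  have hm : Measurable (fun ω : sqLattice.edgeSet → Bool => ((NR R ω + 1 : ℕ) : ENNReal)^(2 * m)) :=
    (measurable_from_top.comp (meas_NR R) :
      Measurable ((fun z : ℕ => ((z + 1 : ℕ) : ENNReal)^(2 * m)) ∘ NR R))
  calc ∫⁻ ω in RE0 r, ((NR R ω + 1 : ℕ) : ENNReal)^m ∂(bondLaw p)
      ≤ ∫⁻ ω in RE0 r, (ENNReal.ofReal l * ((NR R ω + 1 : ℕ) : ENNReal)^(2 * m) +
          ENNReal.ofReal l⁻¹) ∂(bondLaw p) := lintegral_mono (fun ω => young l hl _ _)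
    _ = ENNReal.ofReal l * ∫⁻ ω in RE0 r, ((NR R ω + 1 : ℕ) : ENNReal)^(2 * m) ∂(bondLaw p) +
          ENNReal.ofReal l⁻¹ * (bondLaw p) (RE0 r) := by
        rw [lintegral_add_right _ measurable_const, lintegral_const_mul _ hm, lintegral_const,
          Measure.restrict_apply MeasurableSet.univ, Set.univ_inter]
    _ ≤ _ := by
        apply add_le_add
        · gcongr
          exact Measure.restrict_le_self
        · rw [rf_RE0, ENNReal.ofReal_mul (inv_pos.mpr hl).le, measureReal_def,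
            ENNReal.ofReal_toReal (measure_ne_top _ _)]

/-- Decomposition of the moments according to the radius. -/
theorem vmom_le (p : unitInterval) (m : ℕ) {n : ℕ} (hn : 1 ≤ n) :
    vmom m p ≤ ∑' j : ℕ, ∫⁻ ω in RE0 (j * n), ((NR ((j + 1) * n) ω + 1 : ℕ) : ENNReal)^m
      ∂(bondLaw p) := by
  have hm : ∀ j : ℕ, Measurable
      (fun ω : sqLattice.edgeSet → Bool => ((NR ((j + 1) * n) ω + 1 : ℕ) : ENNReal)^m) :=
    fun j => (measurable_from_top.comp (meas_NR _) :
      Measurable ((fun z : ℕ => ((z + 1 : ℕ) : ENNReal)^m) ∘ NR ((j + 1) * n)))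
  have e : ∀ j : ℕ, ∫⁻ ω in RE0 (j * n), ((NR ((j + 1) * n) ω + 1 : ℕ) : ENNReal)^m
      ∂(bondLaw p) = ∫⁻ ω, (RE0 (j * n)).indicator
        (fun ω => ((NR ((j + 1) * n) ω + 1 : ℕ) : ENNReal)^m) ω ∂(bondLaw p) := by
    intro j
    rw [lintegral_indicator (meas_RE0 _)]
  rw [tsum_congr e, ← lintegral_tsum (fun j => ((hm j).indicator (meas_RE0 _)).aemeasurable)]
  unfold vmom
  rw [← lintegral_indicator meas_fin]
  apply lintegral_mono
  intro ω
  by_cases hf : (cluster0 ω).Finite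
  · rw [Set.indicator_of_mem (show ω ∈ {ω | (cluster0 ω).Finite} from hf)]
    obtain ⟨x, hx, hmax⟩ := Set.exists_max_image (cluster0 ω) rad hf ⟨_, origin_mem ω⟩
    obtain ⟨j, hj⟩ : ∃ j : ℕ, j = rad x / n := ⟨_, rfl⟩
    have hj1 : j * n ≤ rad x := by rw [hj]; exact Nat.div_mul_le_self _ _
    have hj2 : rad x < (j + 1) * n := by
      rw [hj]
      have := Nat.lt_mul_div_succ (rad x) (show 0 < n by omega)
      rw [mul_comm]
      exact this
    have hsub : cluster0 ω ⊆ ↑(boxV ((j + 1) * n)) := by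
      intro y hy
      rw [Finset.mem_coe, mem_boxV_iff]
      have := hmax y hy
      omega
    have hmem : ω ∈ RE0 (j * n) := ⟨⟨x, hx, hj1⟩, hf⟩
    have h1 := ENNReal.le_tsum (f := fun j : ℕ => (RE0 (j * n)).indicator
        (fun ω => ((NR ((j + 1) * n) ω + 1 : ℕ) : ENNReal)^m) ω) j
    refine le_trans (le_of_eq ?_) h1
    simp only
    rw [Set.indicator_of_mem hmem, encard_eq hsub]
    rfl
  · rw [Set.indicator_of_notMem (show ω ∉ {ω | (cluster0 ω).Finite} from hf)]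
    exact bot_le

end Pool.Agent.W2helper77.TP
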