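import Pool.Agent.W2helper77.TP.VolTail

/-!
The distribution of the size of the finite clusters near the critical point.
-/

set_option autoImplicit false
set_option maxHeartbeats 400000

namespace Pool.Agent.W2helper77.TP

open H974 H31K Finset MeasureTheory

theorem two_rpow {a y e M : ℝ} (hy : 0 < y) (ha0 : 0 ≤ a) (ha : a ≤ 2 * y) (he : 0 ≤ e)
    (hM : (2:ℝ)^e ≤ M) : a^e ≤ M * y^e := by
  calc a^e ≤ (2 * y)^e := Real.rpow_le_rpow ha0 ha he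
    _ = 2^e * y^e := Real.mul_rpow (by norm_num) hy.le
    _ ≤ _ := mul_le_mul_of_nonneg_right hM (by positivity)

theorem ceil_two {y : ℝ} (hy : 1 ≤ y) : y ≤ (⌈y⌉₊ : ℝ) ∧ (⌈y⌉₊ : ℝ) ≤ 2 * y ∧ 1 ≤ ⌈y⌉₊ := by
  have h1 := Nat.le_ceil y
  have h2 := Nat.ceil_lt_add_one (show 0 ≤ y by linarith)
  refine ⟨h1, by linarith, ?_⟩
  have : (1:ℝ) ≤ (⌈y⌉₊ : ℝ) := hy.trans h1
  exact_mod_cast this

theorem two_pow_le {e : ℝ} {k : ℕ} (h : e ≤ k) : (2:ℝ)^e ≤ 2^k := by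
  rw [← Real.rpow_natCast (2:ℝ) k]
  exact Real.rpow_le_rpow_of_exponent_le (by norm_num) h

/-- Upper bound inside the window. -/
theorem vt_upA {C : ℝ} (hC : 0 < C) : ∃ D : ℝ, 0 < D ∧ ∀ (p : unitInterval) (κ c : ℝ) (r N : ℕ),
    WinA p κ c C r → 1 ≤ N → r = ⌈(N:ℝ)^((48/91) : ℝ)⌉₊ →
    vt p N ≤ D * (N:ℝ)^(-(5/91) : ℝ) := by
  obtain ⟨D, hD, hb⟩ := mom_box hC (m := 2) (by norm_num)
  refine ⟨C + 16 * D, by positivity, ?_⟩
  intro p κ c r N W hN hr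
  have hN0 : (0:ℝ) < N := by exact_mod_cast hN
  have hN1 : (1:ℝ) ≤ N := by exact_mod_cast hN
  obtain ⟨y, hy⟩ : ∃ y : ℝ, y = (N:ℝ)^((48/91) : ℝ) := ⟨_, rfl⟩
  have hy1 : 1 ≤ y := by rw [hy]; exact Real.one_le_rpow hN1 (by norm_num)
  have hy0 : 0 < y := by linarith
  rw [← hy] at hr
  obtain ⟨k1, k2, k3⟩ := ceil_two hy1
  rw [← hr] at k1 k2 k3
  have hr0 : (0:ℝ) < r := by exact_mod_cast k3
  have ey1 : y^(-(5/48) : ℝ) = (N:ℝ)^(-(5/91) : ℝ) := by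
    rw [hy, ← Real.rpow_mul hN0.le]; norm_num
  have ey2 : y^((177/48) : ℝ) = (N:ℝ)^((177/91) : ℝ) := by
    rw [hy, ← Real.rpow_mul hN0.le]; norm_num
  have h1 := hb p κ c r r 1 W k3 le_rfl (by linarith)
  have h2 := vt_le_small p hN (Q := D * (1^2 * (r:ℝ)^((91/48) : ℝ))^2 * (r:ℝ)^(-(5/48) : ℝ))
    (by positivity) h1
  have h3 : rf p (r + 1) ≤ C * (N:ℝ)^(-(5/91) : ℝ) := by
    refine (rf_le_arm p (show r ≤ r + 1 by omega)).trans ((W.upp r k3 le_rfl).trans ?_)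
    rw [← ey1]
    exact mul_le_mul_of_nonneg_left
      (Real.rpow_le_rpow_of_nonpos hy0 k1 (by norm_num)) hC.le
  have e1 : (1^2 * (r:ℝ)^((91/48) : ℝ))^2 * (r:ℝ)^(-(5/48) : ℝ) = (r:ℝ)^((177/48) : ℝ) := by
    rw [one_pow, one_mul, ← Real.rpow_natCast ((r:ℝ)^((91/48) : ℝ)) 2, ← Real.rpow_mul hr0.le,
      ← Real.rpow_add hr0]
    norm_num
  have h4 : (r:ℝ)^((177/48) : ℝ) ≤ 16 * (N:ℝ)^((177/91) : ℝ) := by
    rw [← ey2]
    apply two_rpow hy0 hr0.le k2 (by norm_num)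
    have := two_pow_le (e := 177/48) (k := 4) (by norm_num)
    norm_num at this ⊢
    exact this
  have h5 : D * (1^2 * (r:ℝ)^((91/48) : ℝ))^2 * (r:ℝ)^(-(5/48) : ℝ) / (N:ℝ)^2 ≤
      16 * D * (N:ℝ)^(-(5/91) : ℝ) := by
    rw [div_le_iff₀ (by positivity), mul_assoc D, e1]
    have e2 : (N:ℝ)^(-(5/91) : ℝ) * (N:ℝ)^2 = (N:ℝ)^((177/91) : ℝ) := by
      rw [← Real.rpow_natCast (N:ℝ) 2, ← Real.rpow_add hN0]
      norm_num
    calc D * (r:ℝ)^((177/48) : ℝ) ≤ D * (16 * (N:ℝ)^((177/91) : ℝ)) :=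
          mul_le_mul_of_nonneg_left h4 hD.le
      _ = 16 * D * ((N:ℝ)^(-(5/91) : ℝ) * (N:ℝ)^2) := by rw [e2]; ring
      _ = _ := by ring
  linarith

/-- Lower bound inside the window. -/
theorem vt_lowB {C c1 : ℝ} (hC : 0 < C) (hc1 : 0 < c1) : ∃ ε D : ℝ, 0 < ε ∧ ε ≤ 1 ∧ 0 < D ∧
    ∀ (p : unitInterval) (κ c : ℝ) (r N : ℕ),
    WinA p κ c C r → 1 ≤ N → r = ⌈((N:ℝ)/ε)^((48/91) : ℝ)⌉₊ →
    (∀ x : Vtx, r ≤ rad x → rad x ≤ 2 * r → c1 * (r:ℝ)^(-(5/24) : ℝ) ≤ tf p x) →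
    D * (N:ℝ)^(-(5/91) : ℝ) ≤ vt p N := by
  obtain ⟨D, hD, hb⟩ := mom_box hC (m := 2) (by norm_num)
  obtain ⟨ε, hε⟩ : ∃ ε : ℝ, ε = min (c1/(2 * C)) 1 := ⟨_, rfl⟩
  have hε0 : 0 < ε := by rw [hε]; exact lt_min (by positivity) one_pos
  have hε1 : ε ≤ 1 := by rw [hε]; exact min_le_right _ _
  have hε2 : ε * C ≤ c1/2 := by
    have : ε ≤ c1/(2 * C) := by rw [hε]; exact min_le_left _ _
    calc ε * C ≤ c1/(2 * C) * C := mul_le_mul_of_nonneg_right this hC.le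
      _ = c1/2 := by field_simp
  obtain ⟨η, hη⟩ : ∃ η : ℝ, η = c1/(32 * D) := ⟨_, rfl⟩
  have hη0 : 0 < η := by rw [hη]; positivity
  refine ⟨ε, c1 * η/2 * ε^((5/91) : ℝ), hε0, hε1, by positivity, ?_⟩
  intro p κ c r N W hN hr htf
  have hN0 : (0:ℝ) < N := by exact_mod_cast hN
  have hN1 : (1:ℝ) ≤ N := by exact_mod_cast hN
  have hNε : 1 ≤ (N:ℝ)/ε := by rw [le_div_iff₀ hε0]; linarith
  have hNε0 : 0 < (N:ℝ)/ε := by linarith
  obtain ⟨y, hy⟩ : ∃ y : ℝ, y = ((N:ℝ)/ε)^((48/91) : ℝ) := ⟨_, rfl⟩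
  have hy1 : 1 ≤ y := by rw [hy]; exact Real.one_le_rpow hNε (by norm_num)
  have hy0 : 0 < y := by linarith
  rw [← hy] at hr
  obtain ⟨k1, k2, k3⟩ := ceil_two hy1
  rw [← hr] at k1 k2 k3
  have hr0 : (0:ℝ) < r := by exact_mod_cast k3
  have ey1 : y^(-(5/48) : ℝ) = ((N:ℝ)/ε)^(-(5/91) : ℝ) := by
    rw [hy, ← Real.rpow_mul hNε0.le]; norm_num
  have ey2 : y^((91/48) : ℝ) = (N:ℝ)/ε := by
    rw [hy, ← Real.rpow_mul hNε0.le]; norm_num
  have h1 := hb p κ c r (2 * r) 2 W k3 (by norm_num) (by push_cast; exact le_rfl)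
  obtain ⟨V, hV⟩ : ∃ V : ℝ, V = (r:ℝ)^((91/48) : ℝ) := ⟨_, rfl⟩
  obtain ⟨w, hw⟩ : ∃ w : ℝ, w = (r:ℝ)^(-(5/48) : ℝ) := ⟨_, rfl⟩
  have hV0 : 0 < V := by rw [hV]; positivity
  have hw0 : 0 < w := by rw [hw]; positivity
  have hVw : (r:ℝ)^2 * (r:ℝ)^(-(5/24) : ℝ) = V * w := by
    rw [hV, hw, ← Real.rpow_natCast (r:ℝ) 2, ← Real.rpow_add hr0, ← Real.rpow_add hr0]
    norm_num
  have ht : (N:ℝ) ≤ ε * V := by
    have : (N:ℝ)/ε ≤ V := by
      rw [← ey2, hV]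
      exact Real.rpow_le_rpow hy0.le k1 (by norm_num)
    rw [div_le_iff₀ hε0] at this
    linarith
  have h3 : rf p r ≤ C * w := by
    rw [hw]
    exact (rf_le_arm p le_rfl).trans (W.upp r k3 le_rfl)
  rw [← hV, ← hw] at h1
  have h4 := second p k3 (t := ε * V) (b := c1 * (r:ℝ)^(-(5/24) : ℝ))
    (Q := D * (2^2 * V)^2 * w) (l := η * V⁻¹) ht (by positivity) (by positivity) (by positivity)
    htf h1
  have e1 : 2 * (r:ℝ)^2 * (c1 * (r:ℝ)^(-(5/24) : ℝ)) = 2 * c1 * (V * w) := by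
    rw [← hVw]; ring
  have e2 : η * V⁻¹ * (D * (2^2 * V)^2 * w) = c1/2 * (V * w) := by
    rw [hη]
    field_simp
    ring
  have e3 : (η * V⁻¹)⁻¹ * vt p N = η⁻¹ * V * vt p N := by
    rw [mul_inv, inv_inv]
  have e4 : ε * V * rf p r ≤ c1/2 * (V * w) := by
    calc ε * V * rf p r ≤ ε * V * (C * w) := mul_le_mul_of_nonneg_left h3 (by positivity)
      _ = (ε * C) * (V * w) := by ring
      _ ≤ _ := mul_le_mul_of_nonneg_right hε2 (by positivity)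
  rw [e1, e2, e3] at h4
  have h5 : c1 * η * w ≤ vt p N := by
    have h6 : c1 * (V * w) ≤ η⁻¹ * V * vt p N := by linarith
    have h7 : V * (c1 * w) ≤ V * (η⁻¹ * vt p N) := by nlinarith
    have h8 := le_of_mul_le_mul_left h7 hV0
    calc c1 * η * w = η * (c1 * w) := by ring
      _ ≤ η * (η⁻¹ * vt p N) := mul_le_mul_of_nonneg_left h8 hη0.le
      _ = vt p N := by rw [← mul_assoc, mul_inv_cancel₀ hη0.ne', one_mul]
  refine le_trans ?_ h5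
  have h9 : 1/2 * y^(-(5/48) : ℝ) ≤ w := by
    rw [hw]
    have h10 : (2 * y)^(-(5/48) : ℝ) ≤ (r:ℝ)^(-(5/48) : ℝ) :=
      Real.rpow_le_rpow_of_nonpos hr0 k2 (by norm_num)
    rw [Real.mul_rpow (by norm_num) hy0.le] at h10
    have h11 : (1:ℝ)/2 ≤ 2^(-(5/48) : ℝ) := by
      calc (1:ℝ)/2 = (2:ℝ)^(-1:ℝ) := by rw [Real.rpow_neg_one]; norm_num
        _ ≤ _ := Real.rpow_le_rpow_of_exponent_le (by norm_num) (by norm_num)
    exact (mul_le_mul_of_nonneg_right h11 (by positivity)).trans h10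
  have e5 : ((N:ℝ)/ε)^(-(5/91) : ℝ) = ε^((5/91) : ℝ) * (N:ℝ)^(-(5/91) : ℝ) := by
    rw [Real.div_rpow hN0.le hε0.le, Real.rpow_neg hε0.le, div_inv_eq_mul]
    ring
  rw [ey1, e5] at h9
  calc c1 * η/2 * ε^((5/91) : ℝ) * (N:ℝ)^(-(5/91) : ℝ)
      = c1 * η * (1/2 * (ε^((5/91) : ℝ) * (N:ℝ)^(-(5/91) : ℝ))) := by ring
    _ ≤ _ := mul_le_mul_of_nonneg_left h9 (by positivity)

/-- **The distribution and the moments of the size of the finite clusters.** -/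
theorem volnear : ∃ δ c C : ℝ, 0 < δ ∧ 0 < c ∧ 0 < C ∧
    (∀ p : unitInterval, |(p:ℝ) - 1/2| ≤ δ → ∀ N : ℕ, 1 ≤ N →
      vt p N ≤ C * (N:ℝ)^(-(5/91) : ℝ) ∧
      (N * |(p:ℝ) - 1/2|^((91/36) : ℝ) ≤ c → c * (N:ℝ)^(-(5/91) : ℝ) ≤ vt p N)) ∧
    ∀ m : ℕ, 1 ≤ m → ∃ c' C' : ℝ, 0 < c' ∧ 0 < C' ∧
      ∀ p : unitInterval, |(p:ℝ) - 1/2| ≤ δ → (p:ℝ) ≠ 1/2 →
        ENNReal.ofReal (c' * |(p:ℝ) - 1/2|^(-((91 * m - 5)/36) : ℝ)) ≤ vmom m p ∧
        vmom m p ≤ ENNReal.ofReal (C' * |(p:ℝ) - 1/2|^(-((91 * m - 5)/36) : ℝ)) := by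
  obtain ⟨κ, b, c0, C0, hκ, hκ1, hb, hc0, hC0, hwin⟩ := winA
  obtain ⟨δ0, c, C, k, K, hδ0, hc, hC, hk, hK, hδ4, hnear⟩ := near
  obtain ⟨B, hB⟩ : ∃ B : ℝ, B = b^(4/3 : ℝ) := ⟨_, rfl⟩
  have hB0 : 0 < B := by rw [hB]; positivity
  -- upper bound for the moments
  have hmomup : ∀ m : ℕ, 1 ≤ m → ∃ C' : ℝ, 0 < C' ∧ ∀ p : unitInterval,
      |(p:ℝ) - 1/2| ≤ min δ0 (b/8) → ∀ n : ℕ, 8 ≤ n →
      |(p:ℝ) - 1/2| ≤ b * (n:ℝ)^(-(3/4 : ℝ)) → B ≤ 2 * (n * |(p:ℝ) - 1/2|^((4/3) : ℝ)) →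
      vmom m p ≤ ENNReal.ofReal (C' * ((n:ℝ)^((91/48) : ℝ))^m * (n:ℝ)^(-(5/48) : ℝ)) := by
    intro m hm
    obtain ⟨D, hD, h⟩ := vmom_up hC0 hC (show 0 < k * (B/2) by positivity) hm
    refine ⟨D, hD, ?_⟩
    intro p hp n hn8 hwn hBn
    apply h p κ c0 n (hwin n (by omega) p hwn) (by omega)
    intro j hj
    have hj1 : (1:ℝ) ≤ j := by exact_mod_cast hj
    have hn0 : (0:ℝ) < n := by exact_mod_cast (by omega : 0 < n)
    obtain ⟨-, h2⟩ := hnear p (hp.trans (min_le_left _ _))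
    have h3 := (h2 (j * n) (by nlinarith)).2
    refine h3.trans ?_
    push_cast
    have e1 : ((j:ℝ) * n)^(-(5/48) : ℝ) ≤ (n:ℝ)^(-(5/48) : ℝ) :=
      Real.rpow_le_rpow_of_nonpos hn0 (by nlinarith) (by norm_num)
    have e2 : Real.exp (-(k * ((j:ℝ) * n * |(p:ℝ) - 1/2|^((4/3) : ℝ)))) ≤
        Real.exp (-(k * (B/2) * j)) := by
      apply Real.exp_le_exp.mpr
      have : k * j * (B/2) ≤ k * j * (n * |(p:ℝ) - 1/2|^((4/3) : ℝ)) :=
        mul_le_mul_of_nonneg_left (by linarith) (by positivity)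
      linarith
    exact mul_le_mul (mul_le_mul_of_nonneg_left e1 hC.le) e2 (Real.exp_pos _).le (by positivity)
  obtain ⟨M1, hM1, hm1⟩ := hmomup 1 le_rfl
  obtain ⟨D1, hD1, hupA⟩ := vt_upA hC0
  obtain ⟨c1, hc1⟩ : ∃ c1 : ℝ, c1 = c/2 * Real.exp (-(2 * K * B)) := ⟨_, rfl⟩
  have hc10 : 0 < c1 := by rw [hc1]; positivity
  obtain ⟨ε, D2, hε0, hε1, hD2, hlowB⟩ := vt_lowB hC0 hc10
  obtain ⟨T, hT⟩ : ∃ T : ℝ, T = ε * (b/2)^((91/36) : ℝ) := ⟨_, rfl⟩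
  have hT0 : 0 < T := by rw [hT]; positivity
  -- scales
  have hscale : ∀ s : ℝ, 0 < s → s ≤ b/8 → ∃ n : ℕ, 8 ≤ n ∧ s ≤ b * (n:ℝ)^(-(3/4 : ℝ)) ∧
      (n:ℝ) ≤ B * s^(-(4/3) : ℝ) ∧ B ≤ 2 * (n * s^((4/3) : ℝ)) := by
    intro s hs hsb
    obtain ⟨n, hn8, h1, h2, h3⟩ := scale hb hs (by linarith)
    rw [← hB] at h2 h3
    refine ⟨n, hn8, h1, h2, ?_⟩
    have h4 := mul_le_mul_of_nonneg_right h3 (show 0 ≤ s^((4/3) : ℝ) by positivity)
    have e : B * s^(-(4/3) : ℝ) * s^((4/3) : ℝ) = B := by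
      rw [mul_assoc, ← Real.rpow_add hs]; norm_num
    rw [e] at h4
    linarith
  -- lower bound for the tail
  have hlow : ∀ p : unitInterval, |(p:ℝ) - 1/2| ≤ δ0 → ∀ N : ℕ, 1 ≤ N →
      N * |(p:ℝ) - 1/2|^((91/36) : ℝ) ≤ T → D2 * (N:ℝ)^(-(5/91) : ℝ) ≤ vt p N := by
    intro p hp N hN hNs
    have hN0 : (0:ℝ) < N := by exact_mod_cast hN
    have hN1 : (1:ℝ) ≤ N := by exact_mod_cast hN
    obtain ⟨s, hs⟩ : ∃ s : ℝ, s = |(p:ℝ) - 1/2| := ⟨_, rfl⟩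
    have hs0 : 0 ≤ s := by rw [hs]; exact abs_nonneg _
    rw [← hs] at hNs
    obtain ⟨y, hy⟩ : ∃ y : ℝ, y = ((N:ℝ)/ε)^((48/91) : ℝ) := ⟨_, rfl⟩
    obtain ⟨r, hr⟩ : ∃ r : ℕ, r = ⌈y⌉₊ := ⟨_, rfl⟩
    have hNε : 1 ≤ (N:ℝ)/ε := by rw [le_div_iff₀ hε0]; linarith
    have hNε0 : 0 < (N:ℝ)/ε := by linarith
    have hy1 : 1 ≤ y := by rw [hy]; exact Real.one_le_rpow hNε (by norm_num)
    have hy0 : 0 < y := by linarith
    obtain ⟨k1, k2, k3⟩ := ceil_two hy1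
    rw [← hr] at k1 k2 k3
    have hr0 : (0:ℝ) < r := by exact_mod_cast k3
    -- the window
    have hsr : s * (r:ℝ)^((3/4) : ℝ) ≤ b := by
      have h1 : (r:ℝ)^((3/4) : ℝ) ≤ 2 * y^((3/4) : ℝ) := by
        apply two_rpow hy0 hr0.le k2 (by norm_num)
        have := two_pow_le (e := 3/4) (k := 1) (by norm_num)
        norm_num at this ⊢
        exact this
      have h2 : s * y^((3/4) : ℝ) ≤ b/2 := by
        have e1 : s * y^((3/4) : ℝ) = (N * s^((91/36) : ℝ) / ε)^((36/91) : ℝ) := by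
          have e2 : (N * s^((91/36) : ℝ) / ε) = (N:ℝ)/ε * s^((91/36) : ℝ) := by ring
          rw [e2, Real.mul_rpow hNε0.le (by positivity), ← Real.rpow_mul hs0, hy,
            ← Real.rpow_mul hNε0.le]
          norm_num
          ring
        rw [e1]
        have h3 : N * s^((91/36) : ℝ) / ε ≤ (b/2)^((91/36) : ℝ) := by
          rw [div_le_iff₀ hε0]
          rw [hT] at hNs
          linarith
        calc (N * s^((91/36) : ℝ) / ε)^((36/91) : ℝ) ≤ ((b/2)^((91/36) : ℝ))^((36/91) : ℝ) :=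
              Real.rpow_le_rpow (by positivity) h3 (by norm_num)
          _ = b/2 := by rw [← Real.rpow_mul (by positivity)]; norm_num
      calc s * (r:ℝ)^((3/4) : ℝ) ≤ s * (2 * y^((3/4) : ℝ)) := mul_le_mul_of_nonneg_left h1 hs0
        _ = 2 * (s * y^((3/4) : ℝ)) := by ring
        _ ≤ b := by linarith
    have hW : WinA p κ c0 C0 r := by
      apply hwin r k3
      rw [← hs, Real.rpow_neg hr0.le, ← div_eq_mul_inv, le_div_iff₀ (by positivity)]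
      exact hsr
    apply hlowB p κ c0 r N hW hN (by rw [hr, hy])
    intro x hx1 hx2
    have hx0 : 1 ≤ rad x := by omega
    obtain ⟨g1, -⟩ := (hnear p hp).1 x (rad x) rfl hx0
    refine le_trans ?_ g1
    have hrad0 : (0:ℝ) < rad x := by exact_mod_cast hx0
    have hx2' : (rad x : ℝ) ≤ 2 * r := by exact_mod_cast hx2
    have h4 : (1/2) * (r:ℝ)^(-(5/24) : ℝ) ≤ (rad x : ℝ)^(-(5/24) : ℝ) := by
      have h10 : (2 * (r:ℝ))^(-(5/24) : ℝ) ≤ (rad x : ℝ)^(-(5/24) : ℝ) :=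
        Real.rpow_le_rpow_of_nonpos hrad0 hx2' (by norm_num)
      rw [Real.mul_rpow (by norm_num) hr0.le] at h10
      have h11 : (1:ℝ)/2 ≤ 2^(-(5/24) : ℝ) := by
        calc (1:ℝ)/2 = (2:ℝ)^(-1:ℝ) := by rw [Real.rpow_neg_one]; norm_num
          _ ≤ _ := Real.rpow_le_rpow_of_exponent_le (by norm_num) (by norm_num)
      exact (mul_le_mul_of_nonneg_right h11 (by positivity)).trans h10
    have h5 : Real.exp (-(2 * K * B)) ≤
        Real.exp (-(K * (rad x * |(p:ℝ) - 1/2|^(4/3 : ℝ)))) := by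
      apply Real.exp_le_exp.mpr
      rw [← hs]
      have h6 : (r:ℝ) * s^((4/3) : ℝ) ≤ B := by
        have e1 : (r:ℝ) * s^((4/3) : ℝ) = (s * (r:ℝ)^((3/4) : ℝ))^((4/3) : ℝ) := by
          rw [Real.mul_rpow hs0 (by positivity), ← Real.rpow_mul hr0.le]
          norm_num
          ring
        rw [e1, hB]
        exact Real.rpow_le_rpow (by positivity) hsr (by norm_num)
      have h7 : (rad x : ℝ) * s^((4/3) : ℝ) ≤ 2 * B := by
        calc (rad x : ℝ) * s^((4/3) : ℝ) ≤ 2 * r * s^((4/3) : ℝ) :=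
              mul_le_mul_of_nonneg_right hx2' (by positivity)
          _ = 2 * (r * s^((4/3) : ℝ)) := by ring
          _ ≤ _ := by linarith
      have := mul_le_mul_of_nonneg_left h7 hK.le
      linarith
    calc c1 * (r:ℝ)^(-(5/24) : ℝ)
        = c * ((1/2) * (r:ℝ)^(-(5/24) : ℝ)) * Real.exp (-(2 * K * B)) := by rw [hc1]; ring
      _ ≤ _ := mul_le_mul (mul_le_mul_of_nonneg_left h4 hc.le) h5 (Real.exp_pos _).le
          (by positivity)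
  -- the constants
  refine ⟨min (min δ0 (b/8)) (T^((36/91) : ℝ)), min D2 T, D1 + 4 * M1, lt_min (lt_min hδ0
    (by positivity)) (by positivity), lt_min hD2 hT0, by positivity, ?_, ?_⟩
  · intro p hp N hN
    have hp1 : |(p:ℝ) - 1/2| ≤ min δ0 (b/8) := hp.trans (min_le_left _ _)
    have hN0 : (0:ℝ) < N := by exact_mod_cast hN
    have hN1 : (1:ℝ) ≤ N := by exact_mod_cast hN
    have hNp : 0 < (N:ℝ)^(-(5/91) : ℝ) := by positivity
    constructor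
    · obtain ⟨y, hy⟩ : ∃ y : ℝ, y = (N:ℝ)^((48/91) : ℝ) := ⟨_, rfl⟩
      have hy1 : 1 ≤ y := by rw [hy]; exact Real.one_le_rpow hN1 (by norm_num)
      have hy0 : 0 < y := by linarith
      obtain ⟨r, hr⟩ : ∃ r : ℕ, r = ⌈y⌉₊ := ⟨_, rfl⟩
      obtain ⟨k1, k2, k3⟩ := ceil_two hy1
      rw [← hr] at k1 k2 k3
      have hr0 : (0:ℝ) < r := by exact_mod_cast k3
      by_cases hwr : |(p:ℝ) - 1/2| ≤ b * (r:ℝ)^(-(3/4 : ℝ))
      · have h1 := hupA p κ c0 r N (hwin r k3 p hwr) hN (by rw [hr, hy])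
        have : 0 ≤ 4 * M1 * (N:ℝ)^(-(5/91) : ℝ) := by positivity
        rw [add_mul]
        linarith
      · have hsp : 0 < |(p:ℝ) - 1/2| := by
          push Not at hwr
          exact lt_trans (by positivity) hwr
        obtain ⟨n, hn8, hwn, hnup, hBn⟩ := hscale _ hsp (hp1.trans (min_le_right _ _))
        have h1 := hm1 p hp1 n hn8 hwn hBn
        have hn0 : (0:ℝ) < n := by exact_mod_cast (by omega : 0 < n)
        have hnr : (n:ℝ) ≤ r := by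
          by_contra hcon
          push Not at hcon
          apply hwr
          refine hwn.trans (mul_le_mul_of_nonneg_left ?_ hb.le)
          exact Real.rpow_le_rpow_of_nonpos hr0 hcon.le (by norm_num)
        have h2 := markov p 1 N hN (by positivity) h1
        rw [pow_one, pow_one] at h2
        have e1 : M1 * (n:ℝ)^((91/48) : ℝ) * (n:ℝ)^(-(5/48) : ℝ) = M1 * (n:ℝ)^((86/48) : ℝ) := by
          rw [mul_assoc, ← Real.rpow_add hn0]; norm_num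
        rw [e1] at h2
        have h3 : (n:ℝ)^((86/48) : ℝ) ≤ 4 * (N:ℝ)^((86/91) : ℝ) := by
          have e2 : (N:ℝ)^((86/91) : ℝ) = y^((86/48) : ℝ) := by
            rw [hy, ← Real.rpow_mul hN0.le]; norm_num
          rw [e2]
          apply two_rpow hy0 hn0.le (by linarith) (by norm_num)
          have := two_pow_le (e := 86/48) (k := 2) (by norm_num)
          norm_num at this ⊢
          exact this
        have e3 : (N:ℝ)^((86/91) : ℝ) = (N:ℝ)^(-(5/91) : ℝ) * N := by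
          rw [← Real.rpow_add_one hN0.ne']; norm_num
        have h4 : M1 * (n:ℝ)^((86/48) : ℝ) / N ≤ 4 * M1 * (N:ℝ)^(-(5/91) : ℝ) := by
          rw [div_le_iff₀ hN0]
          rw [e3] at h3
          nlinarith
        have : 0 ≤ D1 * (N:ℝ)^(-(5/91) : ℝ) := by positivity
        rw [add_mul]
        linarith
    · intro hNs
      have h1 := hlow p (hp1.trans (min_le_left _ _)) N hN (hNs.trans (min_le_right _ _))
      refine le_trans ?_ h1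
      exact mul_le_mul_of_nonneg_right (min_le_left _ _) hNp.le
  · intro m hm
    obtain ⟨C', hC', hup⟩ := hmomup m hm
    have hm1' : (1:ℝ) ≤ m := by exact_mod_cast hm
    obtain ⟨e, he⟩ : ∃ e : ℝ, e = (91 * (m:ℝ) - 5)/48 := ⟨_, rfl⟩
    have he0 : 0 < e := by rw [he]; linarith
    obtain ⟨e', he'⟩ : ∃ e' : ℝ, e' = (91 * (m:ℝ) - 5)/91 := ⟨_, rfl⟩
    have he'0 : 0 < e' := by rw [he']; linarith
    refine ⟨D2 * (T/2)^e', C' * B^e, by positivity, by positivity, ?_⟩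
    intro p hp hpne
    have hp1 : |(p:ℝ) - 1/2| ≤ min δ0 (b/8) := hp.trans (min_le_left _ _)
    have hsp : 0 < |(p:ℝ) - 1/2| := abs_pos.mpr (sub_ne_zero.mpr hpne)
    obtain ⟨s, hs⟩ : ∃ s : ℝ, s = |(p:ℝ) - 1/2| := ⟨_, rfl⟩
    obtain ⟨n, hn8, hwn, hnup, hBn⟩ := hscale _ hsp (hp1.trans (min_le_right _ _))
    have hn0 : (0:ℝ) < n := by exact_mod_cast (by omega : 0 < n)
    have h1 := hup p hp1 n hn8 hwn hBn
    have hsT : |(p:ℝ) - 1/2| ≤ T^((36/91) : ℝ) := hp.trans (min_le_right _ _)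
    rw [← hs] at hsp hnup hsT ⊢
    constructor
    · -- lower bound
      obtain ⟨N, hN⟩ : ∃ N : ℕ, N = ⌊T * s^(-(91/36) : ℝ)⌋₊ := ⟨_, rfl⟩
      have hss : s^((91/36) : ℝ) ≤ T := by
        calc s^((91/36) : ℝ) ≤ (T^((36/91) : ℝ))^((91/36) : ℝ) :=
              Real.rpow_le_rpow hsp.le hsT (by norm_num)
          _ = T := by rw [← Real.rpow_mul hT0.le]; norm_num
      have hX1 : 1 ≤ T * s^(-(91/36) : ℝ) := by
        rw [Real.rpow_neg hsp.le, ← div_eq_mul_inv, le_div_iff₀ (by positivity)]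
        linarith
      have hN1 : 1 ≤ N := by rw [hN]; exact Nat.le_floor (by exact_mod_cast hX1)
      have hN1' : (1:ℝ) ≤ N := by exact_mod_cast hN1
      have hN0 : (0:ℝ) < N := by linarith
      have hNle : (N:ℝ) ≤ T * s^(-(91/36) : ℝ) := by rw [hN]; exact Nat.floor_le (by linarith)
      have hNge : T * s^(-(91/36) : ℝ) ≤ 2 * N := by
        have := Nat.lt_floor_add_one (T * s^(-(91/36) : ℝ))
        rw [← hN] at this
        linarith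
      have hss2 : s^(-(91/36) : ℝ) * s^((91/36) : ℝ) = 1 := by
        rw [← Real.rpow_add hsp]; norm_num
      have h2 := hlow p (hp1.trans (min_le_left _ _)) N hN1 (by
        rw [← hs]
        calc (N:ℝ) * s^((91/36) : ℝ) ≤ T * s^(-(91/36) : ℝ) * s^((91/36) : ℝ) :=
              mul_le_mul_of_nonneg_right hNle (by positivity)
          _ = T := by rw [mul_assoc, hss2, mul_one])
      refine le_trans (ENNReal.ofReal_le_ofReal ?_) (markov0 p m N)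
      have h3 : D2 * (N:ℝ)^e' ≤ vt p N * (N:ℝ)^m := by
        have e1 : (N:ℝ)^e' = (N:ℝ)^(-(5/91) : ℝ) * (N:ℝ)^m := by
          rw [← Real.rpow_natCast (N:ℝ) m, ← Real.rpow_add hN0, he']
          congr 1
          ring
        rw [e1, ← mul_assoc]
        exact mul_le_mul_of_nonneg_right h2 (by positivity)
      refine le_trans ?_ h3
      have h4 : (T/2 * s^(-(91/36) : ℝ))^e' ≤ (N:ℝ)^e' :=
        Real.rpow_le_rpow (by positivity) (by linarith) he'0.le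
      have e2 : (T/2 * s^(-(91/36) : ℝ))^e' = (T/2)^e' * s^(-((91 * m - 5)/36) : ℝ) := by
        rw [Real.mul_rpow (by positivity) (by positivity), ← Real.rpow_mul hsp.le, he']
        congr 2
        ring
      rw [e2] at h4
      calc D2 * (T/2)^e' * s^(-((91 * m - 5)/36) : ℝ)
          = D2 * ((T/2)^e' * s^(-((91 * m - 5)/36) : ℝ)) := by ring
        _ ≤ _ := mul_le_mul_of_nonneg_left h4 hD2.le
    · -- upper bound
      refine h1.trans (ENNReal.ofReal_le_ofReal ?_)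
      have e1 : ((n:ℝ)^((91/48) : ℝ))^m * (n:ℝ)^(-(5/48) : ℝ) = (n:ℝ)^e := by
        rw [← Real.rpow_natCast ((n:ℝ)^((91/48) : ℝ)) m, ← Real.rpow_mul hn0.le,
          ← Real.rpow_add hn0, he]
        congr 1
        ring
      have h2 : (n:ℝ)^e ≤ (B * s^(-(4/3) : ℝ))^e := Real.rpow_le_rpow hn0.le hnup he0.le
      have e2 : (B * s^(-(4/3) : ℝ))^e = B^e * s^(-((91 * m - 5)/36) : ℝ) := by
        rw [Real.mul_rpow hB0.le (by positivity), ← Real.rpow_mul hsp.le, he]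
        congr 2
        ring
      rw [e2] at h2
      calc C' * ((n:ℝ)^((91/48) : ℝ))^m * (n:ℝ)^(-(5/48) : ℝ)
          = C' * (((n:ℝ)^((91/48) : ℝ))^m * (n:ℝ)^(-(5/48) : ℝ)) := by ring
        _ = C' * (n:ℝ)^e := by rw [e1]
        _ ≤ C' * (B^e * s^(-((91 * m - 5)/36) : ℝ)) := mul_le_mul_of_nonneg_left h2 hC'.le
        _ = _ := by ring

end Pool.Agent.W2helper77.TP
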