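import Pool.Agent.W2helper77.TP.VolUp

/-!
Distribution of the size of the finite clusters.
-/

set_option autoImplicit false
set_option maxHeartbeats 400000

namespace Pool.Agent.W2helper77.TP

open H974 H31K Finset MeasureTheory

/-- The cluster of the origin is finite and has at least `N` vertices. -/
def VE (N : ℕ) : Set (sqLattice.edgeSet → Bool) :=
  {ω | (N : ENat) ≤ (cluster0 ω).encard ∧ (cluster0 ω).Finite}

theorem vt_nonneg (p : unitInterval) (N : ℕ) : 0 ≤ vt p N := measureReal_nonneg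

theorem vt_eq (p : unitInterval) (N : ℕ) : ENNReal.ofReal (vt p N) = (bondLaw p) (VE N) := by
  unfold vt VE
  rw [measureReal_def, ENNReal.ofReal_toReal (measure_ne_top _ _)]

theorem VE_eq (N : ℕ) : VE N = ⋃ R : ℕ, {ω | N ≤ NR R ω + 1} ∩ {ω | (cluster0 ω).Finite} := by
  ext ω
  rw [Set.mem_iUnion]
  constructor
  · rintro ⟨h1, h2⟩
    obtain ⟨x, hx, hmax⟩ := Set.exists_max_image (cluster0 ω) rad h2 ⟨_, origin_mem ω⟩
    refine ⟨rad x, ?_, h2⟩
    have hsub : cluster0 ω ⊆ ↑(boxV (rad x)) := by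
      intro y hy
      rw [Finset.mem_coe, mem_boxV_iff]
      exact hmax y hy
    rw [encard_eq hsub] at h1
    exact_mod_cast h1
  · rintro ⟨R, h1, h2⟩
    refine ⟨?_, h2⟩
    have h3 : ((N : ℕ) : ENat) ≤ ((NR R ω + 1 : ℕ) : ENat) := by exact_mod_cast h1
    exact h3.trans (le_encard R ω)

theorem meas_VE (N : ℕ) : MeasurableSet (VE N) := by
  rw [VE_eq]
  apply MeasurableSet.iUnion
  intro R
  apply MeasurableSet.inter _ meas_fin
  have : {ω : sqLattice.edgeSet → Bool | N ≤ NR R ω + 1} = (NR R) ⁻¹' {z | N ≤ z + 1} := rfl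
  rw [this]
  exact meas_NR R (measurableSet_setOfPred.mpr (measurable_from_top))

/-- The inequality of Markov. -/
theorem markov0 (p : unitInterval) (m N : ℕ) :
    ENNReal.ofReal (vt p N * (N:ℝ)^m) ≤ vmom m p := by
  rw [ENNReal.ofReal_mul (vt_nonneg _ _), vt_eq]
  have h2 : (bondLaw p) (VE N) * ENNReal.ofReal ((N:ℝ)^m) =
      ∫⁻ _ω in VE N, ENNReal.ofReal ((N:ℝ)^m) ∂(bondLaw p) := by
    rw [lintegral_const, Measure.restrict_apply MeasurableSet.univ, Set.univ_inter, mul_comm]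
  rw [h2]
  unfold vmom
  refine (setLIntegral_mono' (meas_VE N) ?_).trans (lintegral_mono_set ?_)
  · rintro ω ⟨hω1, hω2⟩
    rw [ENNReal.ofReal_pow (Nat.cast_nonneg _), ENNReal.ofReal_natCast]
    apply pow_le_pow_left₀ bot_le
    have h3 := ENat.toENNReal_mono hω1
    exact_mod_cast h3
  · exact fun ω hω => hω.2

theorem markov (p : unitInterval) (m N : ℕ) (hN : 1 ≤ N) {Q : ℝ} (hQ : 0 ≤ Q)
    (h : vmom m p ≤ ENNReal.ofReal Q) : vt p N ≤ Q / (N:ℝ)^m := by
  have hN0 : (0:ℝ) < N := by exact_mod_cast hN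
  rw [le_div_iff₀ (by positivity)]
  exact (ENNReal.ofReal_le_ofReal_iff hQ).mp ((markov0 p m N).trans h)

/-- Small sizes. -/
theorem vt_le_small (p : unitInterval) {R N : ℕ} (hN : 1 ≤ N) {Q : ℝ} (hQ : 0 ≤ Q)
    (h : ∫⁻ ω, ((NR R ω + 1 : ℕ) : ENNReal)^2 ∂(bondLaw p) ≤ ENNReal.ofReal Q) :
    vt p N ≤ rf p (R + 1) + Q / (N:ℝ)^2 := by
  have hN0 : (0:ℝ) < N := by exact_mod_cast hN
  obtain ⟨B, hB⟩ : ∃ B : Set (sqLattice.edgeSet → Bool), B = {ω | N ≤ NR R ω + 1} := ⟨_, rfl⟩
  have hBm : MeasurableSet B := by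
    have : B = (NR R) ⁻¹' {z | N ≤ z + 1} := by rw [hB]; rfl
    rw [this]
    exact meas_NR R (measurableSet_setOfPred.mpr (measurable_from_top))
  have h1 : vt p N ≤ (bondLaw p).real (RE0 (R + 1)) + (bondLaw p).real B := by
    have h2 : (bondLaw p).real (VE N) ≤ (bondLaw p).real (RE0 (R + 1) ∪ B) := by
      refine measureReal_mono ?_
      rintro ω ⟨hω1, hω2⟩
      by_cases hr : ω ∈ RE0 (R + 1)
      · exact Or.inl hr
      · right
        rw [encard_eq (sub_box hω2 hr)] at hω1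
        rw [hB]
        exact_mod_cast hω1
    exact h2.trans (measureReal_union_le _ _)
  rw [← rf_RE0] at h1
  have h3 : (bondLaw p).real B ≤ Q / (N:ℝ)^2 := by
    rw [le_div_iff₀ (by positivity)]
    have h4 : ENNReal.ofReal ((bondLaw p).real B * (N:ℝ)^2) ≤ ENNReal.ofReal Q := by
      refine le_trans ?_ h
      rw [ENNReal.ofReal_mul measureReal_nonneg, measureReal_def,
        ENNReal.ofReal_toReal (measure_ne_top _ _)]
      have h2 : (bondLaw p) B * ENNReal.ofReal ((N:ℝ)^2) =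
          ∫⁻ _ω in B, ENNReal.ofReal ((N:ℝ)^2) ∂(bondLaw p) := by
        rw [lintegral_const, Measure.restrict_apply MeasurableSet.univ, Set.univ_inter, mul_comm]
      rw [h2]
      refine (setLIntegral_mono' hBm ?_).trans (lintegral_mono' Measure.restrict_le_self le_rfl)
      intro ω hω
      rw [ENNReal.ofReal_pow (Nat.cast_nonneg _), ENNReal.ofReal_natCast]
      apply pow_le_pow_left₀ bot_le
      rw [hB] at hω
      exact_mod_cast hω
    exact (ENNReal.ofReal_le_ofReal_iff hQ).mp h4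
  linarith

/-- The vertices used in the second moment argument. -/
noncomputable def TT (r : ℕ) : Finset Vtx := Finset.Icc (r:ℤ) (2 * r) ×ˢ Finset.Icc (-(r:ℤ)) r

theorem mem_TT {r : ℕ} {x : Vtx} (h : x ∈ TT r) : r ≤ rad x ∧ rad x ≤ 2 * r := by
  unfold TT at h
  rw [Finset.mem_product, Finset.mem_Icc, Finset.mem_Icc] at h
  unfold rad
  omega

theorem card_TT (r : ℕ) : 2 * (r:ℝ)^2 ≤ ((TT r).card : ℝ) := by
  unfold TT
  rw [Finset.card_product, Int.card_Icc, Int.card_Icc]
  have e1 : (2 * (r:ℤ) + 1 - r).toNat = r + 1 := by omega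
  have e2 : ((r:ℤ) + 1 - -(r:ℤ)).toNat = 2 * r + 1 := by omega
  rw [e1, e2]
  push_cast
  nlinarith [Nat.cast_nonneg (α := ℝ) r]

/-- **The second moment inequality.** -/
theorem second (p : unitInterval) {r N : ℕ} (hr : 1 ≤ r) {t b Q l : ℝ} (ht : (N:ℝ) ≤ t)
    (hb : 0 ≤ b) (hQ : 0 ≤ Q) (hl : 0 < l)
    (h1 : ∀ x : Vtx, r ≤ rad x → rad x ≤ 2 * r → b ≤ tf p x)
    (h2 : ∫⁻ ω, ((NR (2 * r) ω + 1 : ℕ) : ENNReal)^2 ∂(bondLaw p) ≤ ENNReal.ofReal Q) :
    2 * (r:ℝ)^2 * b ≤ t * rf p r + l * Q + l⁻¹ * vt p N := by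
  classical
  have ht0 : 0 ≤ t := le_trans (Nat.cast_nonneg _) ht
  obtain ⟨f, hf⟩ : ∃ f : (sqLattice.edgeSet → Bool) → ENNReal, f = fun ω =>
    ∑ x ∈ TT r, Set.indicator {ω | x ∈ cluster0 ω ∧ (cluster0 ω).Finite} (fun _ => (1:ENNReal)) ω :=
    ⟨_, rfl⟩
  have hm : ∀ x : Vtx, MeasurableSet {ω | x ∈ cluster0 ω ∧ (cluster0 ω).Finite} :=
    fun x => (t10_meas x).inter meas_fin
  have e1 : ENNReal.ofReal (2 * (r:ℝ)^2 * b) ≤ ∫⁻ ω, f ω ∂(bondLaw p) := by
    have e0 : ∫⁻ ω, f ω ∂(bondLaw p) = ∑ x ∈ TT r, ∫⁻ ω, Set.indicator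
        {ω | x ∈ cluster0 ω ∧ (cluster0 ω).Finite} (fun _ => (1:ENNReal)) ω ∂(bondLaw p) := by
      rw [hf]
      exact lintegral_finsetSum _ (fun x _ => measurable_one.indicator (hm x))
    rw [e0]
    have e2 : ∀ x ∈ TT r, ENNReal.ofReal b ≤ ∫⁻ ω, Set.indicator
        {ω | x ∈ cluster0 ω ∧ (cluster0 ω).Finite} (fun _ => (1:ENNReal)) ω ∂(bondLaw p) := by
      intro x hx
      have e3 : ∫⁻ ω, Set.indicator {ω | x ∈ cluster0 ω ∧ (cluster0 ω).Finite}
          (fun _ => (1:ENNReal)) ω ∂(bondLaw p) =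
          (bondLaw p) {ω | x ∈ cluster0 ω ∧ (cluster0 ω).Finite} := lintegral_indicator_one (hm x)
      rw [e3, ← ENNReal.ofReal_toReal (measure_ne_top (bondLaw p) _)]
      exact ENNReal.ofReal_le_ofReal (h1 x (mem_TT hx).1 (mem_TT hx).2)
    refine le_trans ?_ (Finset.sum_le_sum e2)
    rw [Finset.sum_const, nsmul_eq_mul]
    have e4 : ((TT r).card : ENNReal) = ENNReal.ofReal ((TT r).card : ℝ) := by
      rw [ENNReal.ofReal_natCast]
    rw [e4, ← ENNReal.ofReal_mul (by positivity)]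
    exact ENNReal.ofReal_le_ofReal (mul_le_mul_of_nonneg_right (card_TT r) hb)
  have hmZ : Measurable (fun ω : sqLattice.edgeSet → Bool =>
      ((NR (2 * r) ω + 1 : ℕ) : ENNReal)^2) :=
    (measurable_from_top.comp (meas_NR (2 * r)) :
      Measurable ((fun z : ℕ => ((z + 1 : ℕ) : ENNReal)^2) ∘ NR (2 * r)))
  have key : ∀ ω, f ω ≤ (RE0 r).indicator (fun _ => ENNReal.ofReal t) ω +
      (ENNReal.ofReal l * ((NR (2 * r) ω + 1 : ℕ) : ENNReal)^2 +
        (VE N).indicator (fun _ => ENNReal.ofReal l⁻¹) ω) := by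
    intro ω
    by_cases hfin : (cluster0 ω).Finite
    · have ef : f ω = (((TT r).filter (fun x => x ∈ cluster0 ω)).card : ENNReal) := by
        rw [hf, Finset.card_filter, Nat.cast_sum]
        apply Finset.sum_congr rfl
        intro x _
        by_cases hx : x ∈ cluster0 ω
        · rw [if_pos hx, Set.indicator_of_mem (show ω ∈ {ω | x ∈ cluster0 ω ∧ (cluster0 ω).Finite}
            from ⟨hx, hfin⟩)]
          norm_num
        · rw [if_neg hx, Set.indicator_of_notMem (show ω ∉ {ω | x ∈ cluster0 ω ∧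
            (cluster0 ω).Finite} from fun h => hx h.1)]
          norm_num
      have hle : ((TT r).filter (fun x => x ∈ cluster0 ω)).card ≤ NR (2 * r) ω := by
        unfold NR
        apply Finset.card_le_card
        intro x hx
        obtain ⟨hx1, hx2⟩ := Finset.mem_filter.mp hx
        obtain ⟨g1, g2⟩ := mem_TT hx1
        refine Finset.mem_filter.mpr ⟨?_, hx2⟩
        unfold bxz
        rw [Finset.mem_erase, mem_boxV_iff]
        refine ⟨?_, g2⟩
        rintro rfl
        simp [rad] at g1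
        omega
      rw [ef]
      rcases Nat.eq_zero_or_pos ((TT r).filter (fun x => x ∈ cluster0 ω)).card with h0 | h0
      · rw [h0]; simp
      · have hRE : ω ∈ RE0 r := by
          obtain ⟨x, hx⟩ := Finset.card_pos.mp h0
          obtain ⟨hx1, hx2⟩ := Finset.mem_filter.mp hx
          exact ⟨⟨x, hx2, (mem_TT hx1).1⟩, hfin⟩
        rw [Set.indicator_of_mem hRE]
        rcases le_or_gt (((NR (2 * r) ω + 1 : ℕ)) : ℝ) t with hZ | hZ
        · refine le_trans ?_ (le_add_right le_rfl)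
          rw [← ENNReal.ofReal_natCast]
          apply ENNReal.ofReal_le_ofReal
          have : (((TT r).filter (fun x => x ∈ cluster0 ω)).card : ℝ) ≤
              ((NR (2 * r) ω + 1 : ℕ) : ℝ) := by exact_mod_cast (by omega)
          linarith
        · have hVE : ω ∈ VE N := by
            refine ⟨?_, hfin⟩
            have h5 : N ≤ NR (2 * r) ω + 1 := by
              have : (N:ℝ) < ((NR (2 * r) ω + 1 : ℕ) : ℝ) := by linarith
              exact_mod_cast this.le
            have h6 : ((N : ℕ) : ENat) ≤ ((NR (2 * r) ω + 1 : ℕ) : ENat) := by exact_mod_cast h5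
            exact h6.trans (le_encard _ ω)
          rw [Set.indicator_of_mem hVE]
          refine le_trans ?_ (le_add_left le_rfl)
          have h7 := young l hl (NR (2 * r) ω + 1) 1
          rw [pow_one] at h7
          refine le_trans ?_ h7
          exact_mod_cast (by omega : ((TT r).filter (fun x => x ∈ cluster0 ω)).card ≤
            NR (2 * r) ω + 1)
    · have ef : f ω = 0 := by
        rw [hf]
        apply Finset.sum_eq_zero
        intro x _
        exact Set.indicator_of_notMem (fun h => hfin h.2) _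
      rw [ef]
      exact bot_le
  have e5 := e1.trans (lintegral_mono key)
  rw [lintegral_add_left (measurable_const.indicator (meas_RE0 r)),
    lintegral_indicator_const (meas_RE0 r), lintegral_add_left (hmZ.const_mul _),
    lintegral_const_mul _ hmZ, lintegral_indicator_const (meas_VE N), ← vt_eq] at e5
  have e6 : (bondLaw p) (RE0 r) = ENNReal.ofReal (rf p r) := by
    rw [rf_RE0, measureReal_def, ENNReal.ofReal_toReal (measure_ne_top _ _)]
  rw [e6, ← ENNReal.ofReal_mul ht0, ← ENNReal.ofReal_mul (inv_pos.mpr hl).le] at e5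
  have e7 : ENNReal.ofReal (2 * (r:ℝ)^2 * b) ≤
      ENNReal.ofReal (t * rf p r + (l * Q + l⁻¹ * vt p N)) := by
    refine e5.trans ?_
    rw [ENNReal.ofReal_add (mul_nonneg ht0 (rf_nonneg _ _)) (add_nonneg (by positivity)
      (mul_nonneg (inv_pos.mpr hl).le (vt_nonneg _ _))),
      ENNReal.ofReal_add (by positivity) (mul_nonneg (inv_pos.mpr hl).le (vt_nonneg _ _)),
      ENNReal.ofReal_mul hl.le]
    gcongr
  have e8 := (ENNReal.ofReal_le_ofReal_iff (add_nonneg (mul_nonneg ht0 (rf_nonneg _ _))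
    (add_nonneg (by positivity) (mul_nonneg (inv_pos.mpr hl).le (vt_nonneg _ _))))).mp e7
  linarith

end Pool.Agent.W2helper77.TP
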