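import Pool.Agent.W2helper77.TP.Vol

/-!
Moments of the size of the finite clusters: upper bounds at the natural scale.
-/

set_option autoImplicit false
set_option maxHeartbeats 400000

namespace Pool.Agent.W2helper77.TP

open H974 H31K Finset MeasureTheory

theorem summable_aux (q : ℕ) {r : ℝ} (hr : 0 < r) :
    Summable (fun j : ℕ => ((j:ℝ) + 1)^q * Real.exp (-(r * j))) := by
  have h1 := (Real.summable_pow_mul_exp_neg_nat_mul q hr)
  have h2 := ((summable_nat_add_iff 1).mpr h1).mul_left (Real.exp r)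
  refine h2.congr ?_
  intro j
  push_cast
  have : Real.exp (-r * ((j:ℝ) + 1)) = Real.exp (-(r * j)) * Real.exp (-r) := by
    rw [← Real.exp_add]
    congr 1
    ring
  rw [this]
  have h3 : Real.exp r * Real.exp (-r) = 1 := by rw [← Real.exp_add]; simp
  calc Real.exp r * (((j:ℝ) + 1)^q * (Real.exp (-(r * j)) * Real.exp (-r)))
      = (Real.exp r * Real.exp (-r)) * (((j:ℝ) + 1)^q * Real.exp (-(r * j))) := by ring
    _ = _ := by rw [h3, one_mul]

theorem vmom_up {C C' k : ℝ} (hC : 0 < C) (hC' : 0 < C') (hk : 0 < k) {m : ℕ} (hm : 1 ≤ m) :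
    ∃ D : ℝ, 0 < D ∧ ∀ (p : unitInterval) (κ c : ℝ) (n : ℕ), WinA p κ c C n → 1 ≤ n →
      (∀ j : ℕ, 1 ≤ j → rf p (j * n) ≤ C' * (n:ℝ)^(-(5/48) : ℝ) * Real.exp (-(k * j))) →
      vmom m p ≤ ENNReal.ofReal (D * ((n:ℝ)^((91/48) : ℝ))^m * (n:ℝ)^(-(5/48) : ℝ)) := by
  obtain ⟨D1, hD1, hb1⟩ := mom_box hC hm
  obtain ⟨D2, hD2, hb2⟩ := mom_box hC (show 1 ≤ 2 * m by omega)
  have hs := summable_aux (4 * m) (show 0 < k/2 by positivity)
  obtain ⟨a, ha⟩ : ∃ a : ℕ → ℝ, a = fun j : ℕ => ((j:ℝ) + 1)^(4 * m) * Real.exp (-(k/2 * j)) :=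
    ⟨_, rfl⟩
  rw [← ha] at hs
  have ha0 : ∀ j, 0 ≤ a j := by intro j; rw [ha]; positivity
  have hS0 : 0 ≤ ∑' j, a j := tsum_nonneg ha0
  refine ⟨(D1 + D2 + C') * (∑' j, a j) + 1, by positivity, ?_⟩
  intro p κ c n W hn hrf
  obtain ⟨V, hV⟩ : ∃ V : ℝ, V = (n:ℝ)^((91/48) : ℝ) := ⟨_, rfl⟩
  obtain ⟨w, hw⟩ : ∃ w : ℝ, w = (n:ℝ)^(-(5/48) : ℝ) := ⟨_, rfl⟩
  have hn0 : (0:ℝ) < n := by exact_mod_cast hn
  have hV0 : 0 < V := by rw [hV]; positivity
  have hw0 : 0 < w := by rw [hw]; positivity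
  rw [← hw] at hrf
  rw [← hV, ← hw]
  refine (vmom_le p m hn).trans ?_
  have key : ∀ j : ℕ, ∫⁻ ω in RE0 (j * n), ((NR ((j + 1) * n) ω + 1 : ℕ) : ENNReal)^m
      ∂(bondLaw p) ≤ ENNReal.ofReal ((D1 + D2 + C') * (V^m * w) * a j) := by
    intro j
    rcases Nat.eq_zero_or_pos j with hj | hj
    · subst hj
      have h1 := hb1 p κ c n ((0 + 1) * n) 1 W hn le_rfl (by push_cast; linarith)
      rw [← hV, ← hw] at h1
      refine (lintegral_mono' Measure.restrict_le_self le_rfl).trans (h1.trans ?_)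
      apply ENNReal.ofReal_le_ofReal
      have e : a 0 = 1 := by rw [ha]; simp
      rw [e, one_pow, one_mul, mul_one]
      have : 0 ≤ V^m * w := by positivity
      nlinarith
    · have hj1 : (1:ℝ) ≤ j := by exact_mod_cast hj
      obtain ⟨l, hl⟩ : ∃ l : ℝ, l = (V^m)⁻¹ * Real.exp (-(k/2 * j)) := ⟨_, rfl⟩
      have hl0 : 0 < l := by rw [hl]; positivity
      have h1 := mom_far p ((j + 1) * n) m (j * n) hl0
      have h2 := hb2 p κ c n ((j + 1) * n) ((j:ℝ) + 1) W hn (by linarith) (by push_cast; exact le_rfl)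
      rw [← hV, ← hw] at h2
      refine h1.trans ?_
      calc ENNReal.ofReal l * ∫⁻ ω, ((NR ((j + 1) * n) ω + 1 : ℕ) : ENNReal)^(2 * m) ∂(bondLaw p) +
            ENNReal.ofReal (l⁻¹ * rf p (j * n))
          ≤ ENNReal.ofReal l * ENNReal.ofReal (D2 * (((j:ℝ) + 1)^2 * V)^(2 * m) * w) +
            ENNReal.ofReal (l⁻¹ * rf p (j * n)) := by gcongr
        _ = ENNReal.ofReal (l * (D2 * (((j:ℝ) + 1)^2 * V)^(2 * m) * w) + l⁻¹ * rf p (j * n)) := by
            rw [← ENNReal.ofReal_mul hl0.le, ← ENNReal.ofReal_add (by positivity)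
              (mul_nonneg (inv_pos.mpr hl0).le (rf_nonneg _ _))]
        _ ≤ _ := by
            apply ENNReal.ofReal_le_ofReal
            have e1 : l * (D2 * (((j:ℝ) + 1)^2 * V)^(2 * m) * w) = D2 * (V^m * w) * a j := by
              rw [hl, ha]
              simp only
              have : (((j:ℝ) + 1)^2 * V)^(2 * m) = ((j:ℝ) + 1)^(4 * m) * (V^m * V^m) := by
                rw [mul_pow, ← pow_mul, ← pow_add]
                congr 2 <;> ring
              rw [this]
              have hVm : V^m ≠ 0 := by positivity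
              field_simp
            have e2 : l⁻¹ * rf p (j * n) ≤ C' * (V^m * w) * a j := by
              have e3 : l⁻¹ = V^m * Real.exp (k/2 * j) := by
                rw [hl, mul_inv, inv_inv, ← Real.exp_neg, neg_neg]
              have e4 : Real.exp (k/2 * j) * Real.exp (-(k * j)) = Real.exp (-(k/2 * j)) := by
                rw [← Real.exp_add]
                congr 1
                ring
              have e5 : Real.exp (-(k/2 * j)) ≤ a j := by
                rw [ha]
                simp only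
                exact le_mul_of_one_le_left (Real.exp_pos _).le
                  (one_le_pow₀ (by linarith))
              calc l⁻¹ * rf p (j * n) ≤ l⁻¹ * (C' * w * Real.exp (-(k * j))) :=
                    mul_le_mul_of_nonneg_left (hrf j hj) (inv_pos.mpr hl0).le
                _ = C' * (V^m * w) * (Real.exp (k/2 * j) * Real.exp (-(k * j))) := by
                    rw [e3]; ring
                _ = C' * (V^m * w) * Real.exp (-(k/2 * j)) := by rw [e4]
                _ ≤ _ := mul_le_mul_of_nonneg_left e5 (by positivity)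
            have e6 : 0 ≤ D1 * (V^m * w) * a j :=
              mul_nonneg (by positivity) (ha0 j)
            rw [e1]
            nlinarith
  refine (ENNReal.tsum_le_tsum key).trans ?_
  rw [← ENNReal.ofReal_tsum_of_nonneg (fun j => mul_nonneg (by positivity) (ha0 j))
    (hs.mul_left _), tsum_mul_left]
  apply ENNReal.ofReal_le_ofReal
  have : 0 ≤ V^m * w := by positivity
  nlinarith

end Pool.Agent.W2helper77.TP
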